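import Pool.Agent.Lib.MP_d439b2_co.Rep.Spec

/-!
# MP_d439b2_co, Rep/Cap: sets with a large rank (helper10)
-/

set_option autoImplicit false

namespace Pool.Agent.MPd439b2.Rep

open Pool.Agent.MPd439b2

namespace CapAux

variable {Z W : Type} {t : ℕ}

/-- extension by zero -/
def ext0 (Z W : Type) : (W → ZMod 2) →ₗ[ZMod 2] (Z ⊕ W → ZMod 2) where
  toFun f v := Sum.elim (fun _ => 0) f v
  map_add' f g := by
    funext v
    rcases v with v | v <;> simp
  map_smul' a f := by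
    funext v
    rcases v with v | v <;> simp

theorem part2 [Finite Z] [Finite W] (GZ : SimpleGraph Z) (GW : SimpleGraph W) (l : Z → Fin t)
    (A : Fin t → Set W) (U : Set W) :
    LK.rk (glue GZ GW l A) (Sum.inr '' U) (Sum.inr '' Uᶜ) ≤ LK.rk GW U Uᶜ := by
  have h1 : Submodule.span (ZMod 2) (LK.row (glue GZ GW l A) (Sum.inr '' Uᶜ) '' (Sum.inr '' U)) =
      (Submodule.span (ZMod 2) (LK.row GW Uᶜ '' U)).map (ext0 Z W) := by
    rw [Submodule.map_span, Set.image_image, Set.image_image]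
    congr 1
    apply Set.image_congr
    intro w _
    funext v
    rcases v with v | v
    · simp [LK.row, ext0]
    · have hv : (Sum.inr v : Z ⊕ W) ∈ (Sum.inr '' Uᶜ : Set (Z ⊕ W)) ↔ v ∈ Uᶜ := by simp
      show LK.row (glue GZ GW l A) (Sum.inr '' Uᶜ) (Sum.inr w) (Sum.inr v) = LK.row GW Uᶜ w v
      by_cases hh : v ∈ Uᶜ ∧ GW.Adj w v
      · exact (if_pos ⟨hv.mpr hh.1, hh.2⟩).trans (if_pos hh).symm
      · exact (if_neg fun h => hh ⟨hv.mp h.1, h.2⟩).trans (if_neg hh).symm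
  unfold LK.rk
  rw [h1]
  exact Submodule.finrank_map_le _ _

end CapAux

theorem cap (rk : S_Rk) (a1 : LK.S_A1) : S_Cap := by
  intro Z Z' W _ _ _ t GZ GZ' GW l l' A Y U ht
  obtain ⟨h1, h2⟩ := rk Z W t GZ GW l A
  rw [h1]
  have h3 := h2 (stK l Y) (stS GZ l Y) U
  obtain ⟨-, -, b3, -, -, b6⟩ := a1 (Z' ⊕ W) (glue GZ' GW l' A)
  have h4 : (un (Set.univ : Set Z') U)ᶜ = Sum.inr '' Uᶜ := by
    ext v
    rcases v with v | v <;> simp [un]
  have h5 : LK.cr (glue GZ' GW l' A) (un Set.univ U) ≤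
      LK.rk (glue GZ' GW l' A) (Sum.inl '' Set.univ) (Sum.inr '' Uᶜ) +
      LK.rk (glue GZ' GW l' A) (Sum.inr '' U) (Sum.inr '' Uᶜ) := by
    unfold LK.cr
    rw [h4]
    exact b3 _ _ _
  have h6 := CapAux.part2 GZ' GW l' A U
  have h7 : LK.rk (glue GZ' GW l' A) (Sum.inl '' Set.univ) (Sum.inr '' Uᶜ) ≤ t := by
    have h8 := b6 (Sum.inl '' Set.univ) (Sum.inr '' Uᶜ)
      (Set.range (fun i : Fin t => (Sum.inr '' (A i \ U) : Set (Z' ⊕ W)))) (by
        rintro _ ⟨z, -, rfl⟩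
        left
        refine ⟨l' z, ?_⟩
        ext v
        rcases v with v | v
        · simp
        · simp only [Set.mem_image, Set.mem_sdiff, Sum.inr.injEq, exists_eq_right, Set.mem_compl_iff,
            Set.mem_ofPred_eq]
          exact and_comm)
    refine h8.trans ?_
    rw [← Set.image_univ]
    refine (Set.ncard_image_le Set.finite_univ).trans ?_
    rw [Set.ncard_univ, Nat.card_eq_fintype_card, Fintype.card_fin]
  omega

end Pool.Agent.MPd439b2.Rep
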