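import Pool.Agent.Lib.MP_d439b2_co.Rep.SpecG

/-!
# MP_d439b2_co, Rep/FSFor: finitely many forbidden induced subgraphs (helper10)
-/

set_option autoImplicit false

namespace Pool.Agent.MPd439b2.Rep

open Pool.Agent.MPd439b2

theorem fsFor (fsLoc : S_FSLoc) : S_FSFor := by
  intro ι _ s F
  have hInv : Inv (NoInd s F) := by
    intro V V' _ _ G G' e he hp i
    rintro ⟨f, hf, ha⟩
    refine hp i ⟨fun a => e.symm (f a), fun a b hab => hf (e.symm.injective hab), fun a b => ?_⟩
    rw [he, Equiv.apply_symm_apply, Equiv.apply_symm_apply]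
    exact ha a b
  refine ⟨hInv, ?_⟩
  obtain ⟨s₀, hs₀⟩ : ∃ s₀, ∀ i, s i ≤ s₀ := by
    obtain ⟨B, hB⟩ := (Set.finite_range s).bddAbove
    exact ⟨B, fun q => hB ⟨q, rfl⟩⟩
  refine fsLoc s₀ (NoInd s F) hInv ?_
  intro V _ G
  constructor
  · intro h S _ i
    rintro ⟨f, hf, ha⟩
    exact h i ⟨fun a => (f a : V), fun a b hab => hf (Subtype.ext hab), fun a b => ha a b⟩
  · intro h i
    rintro ⟨f, hf, ha⟩
    have hS : (Set.range f).ncard ≤ s₀ := by
      rw [← Set.image_univ, Set.ncard_image_of_injective _ hf, Set.ncard_univ,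
        Nat.card_eq_fintype_card, Fintype.card_fin]
      exact hs₀ i
    refine h (Set.range f) hS i ⟨fun a => ⟨f a, a, rfl⟩, fun a b hab => hf ?_, fun a b => ha a b⟩
    exact congrArg Subtype.val hab

end Pool.Agent.MPd439b2.Rep
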