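import Pool.Agent.Lib.MP_d439b2_co.Rep.SpecG

/-!
# MP_d439b2_co, Rep/FSLoc: local classes are finite-state (helper10)
-/

set_option autoImplicit false

namespace Pool.Agent.MPd439b2.Rep

open Pool.Agent.MPd439b2

theorem fsLoc : S_FSLoc := by
  intro s P hInv hLoc t
  refine ⟨Set ((k : Fin (s + 1)) × SimpleGraph (Fin k) × (Fin k → Fin t)), inferInstance,
    fun n GZ l => {q | ∃ e : Fin q.1 → Fin n, Function.Injective e ∧
      (∀ i j, q.2.1.Adj i j ↔ GZ.Adj (e i) (e j)) ∧ ∀ i, q.2.2 i = l (e i)}, ?_⟩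
  intro n n' m GZ GZ' GW l l' A hpr hP
  rw [hLoc]
  intro S hS
  have hk : (Sum.inl ⁻¹' S : Set (Fin n')).ncard ≤ s := by
    refine le_trans ?_ hS
    rw [← Set.ncard_image_of_injective (Sum.inl ⁻¹' S : Set (Fin n'))
      (Sum.inl_injective (β := Fin m))]
    exact Set.ncard_le_ncard (Set.image_preimage_subset _ _) (Set.toFinite S)
  obtain ⟨k, hk1⟩ : ∃ k : Fin (s + 1), (k : ℕ) = (Sum.inl ⁻¹' S : Set (Fin n')).ncard :=
    ⟨⟨_, Nat.lt_succ_of_le hk⟩, rfl⟩
  have e' : Fin k ≃ (Sum.inl ⁻¹' S : Set (Fin n')) := by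
    refine (Finite.equivFinOfCardEq ?_).symm
    rw [hk1]
    exact Nat.card_coe_set_eq _
  have hmem : (⟨k, GZ'.comap (fun i => ((e' i : Fin n'))), fun i => l' (e' i)⟩ :
      (k : Fin (s + 1)) × SimpleGraph (Fin k) × (Fin k → Fin t)) ∈
      {q : (k : Fin (s + 1)) × SimpleGraph (Fin k) × (Fin k → Fin t) | ∃ e : Fin q.1 → Fin n',
        Function.Injective e ∧ (∀ i j, q.2.1.Adj i j ↔ GZ'.Adj (e i) (e j)) ∧
          ∀ i, q.2.2 i = l' (e i)} :=
    ⟨fun i => e' i, fun i j hij => e'.injective (Subtype.ext hij), fun i j => Iff.rfl, fun i => rfl⟩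
  beta_reduce at hpr
  rw [← hpr] at hmem
  obtain ⟨e, he1, he2, he3⟩ := hmem
  -- the embedding of `S` into the old graph
  let F : S → Fin n ⊕ Fin m := fun u => match u with
    | ⟨Sum.inl z, hz⟩ => Sum.inl (e (e'.symm ⟨z, hz⟩))
    | ⟨Sum.inr w, _⟩ => Sum.inr w
  have hFinj : Function.Injective F := by
    rintro ⟨u | u, hu⟩ ⟨v | v, hv⟩ huv
    · have h1 := e'.symm.injective (he1 (Sum.inl_injective huv))
      have h2 : u = v := congrArg Subtype.val h1
      subst h2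
      rfl
    · exact absurd huv (by simp [F])
    · exact absurd huv (by simp [F])
    · have h2 : u = v := Sum.inr_injective huv
      subst h2
      rfl
  have hFadj : ∀ u v : S, ((glue GZ' GW l' A).induce S).Adj u v ↔
      (glue GZ GW l A).Adj (F u) (F v) := by
    rintro ⟨u | u, hu⟩ ⟨v | v, hv⟩
    · have h1 := he2 (e'.symm ⟨u, hu⟩) (e'.symm ⟨v, hv⟩)
      simp only [SimpleGraph.comap_adj, Equiv.apply_symm_apply] at h1
      exact h1
    · have h1 := he3 (e'.symm ⟨u, hu⟩)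
      simp only [Equiv.apply_symm_apply] at h1
      show v ∈ A (l' u) ↔ v ∈ A (l (e (e'.symm ⟨u, hu⟩)))
      rw [h1]
    · have h1 := he3 (e'.symm ⟨v, hv⟩)
      simp only [Equiv.apply_symm_apply] at h1
      show u ∈ A (l' v) ↔ u ∈ A (l (e (e'.symm ⟨v, hv⟩)))
      rw [h1]
    · exact Iff.rfl
  have h1 := (hLoc _ (glue GZ GW l A)).mp hP (Set.range F) (by
    refine le_trans (le_of_eq ?_) hS
    rw [← Set.image_univ, Set.ncard_image_of_injective _ hFinj, Set.ncard_univ,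
      Nat.card_coe_set_eq])
  refine hInv (Set.range F) S _ _ (Equiv.ofInjective F hFinj).symm (fun u v => ?_) h1
  rw [hFadj]
  obtain ⟨a, rfl⟩ := (Equiv.ofInjective F hFinj).surjective u
  obtain ⟨b, rfl⟩ := (Equiv.ofInjective F hFinj).surjective v
  rw [Equiv.symm_apply_apply, Equiv.symm_apply_apply]
  rfl

end Pool.Agent.MPd439b2.Rep
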