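import Pool.Agent.Lib.MP_d439b2_co.Rep.SpecG

/-!
# MP_d439b2_co, Rep/HLG: the black box for general classes (helper10)
-/

set_option autoImplicit false

namespace Pool.Agent.MPd439b2.Rep

open Pool.Agent.MPd439b2

theorem hlG (repG : S_RepG) (tanE : S_TanE) (tanL : S_TanL) : S_HLG := by
  intro P hInv hFS h
  choose β hβ using repG P hInv hFS
  obtain ⟨c₀, k, hk⟩ := h β
  obtain ⟨φ, h1, h2, h3⟩ : ∃ φ : ℕ, c₀ ≤ φ ∧ k ≤ φ ∧ 1 ≤ φ :=
    ⟨c₀ + k + 1, by omega, by omega, by omega⟩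
  have hno : ∀ n : ℕ, ∀ (V : Type) [Finite V] (G : SimpleGraph V) (T : Set (Set V)),
      Nat.card V = n → P V G → ¬ Tan G φ T := by
    intro n
    induction n using Nat.strong_induction_on with
    | _ n ih =>
      intro V _ G T hV hP hT
      have hlink : Link β c₀ G := by
        intro c hc X hX
        refine hβ c φ (hc.trans h1) h3 V G T hP hT ?_ X hX
        intro V' _ G' T' hP' hT'
        by_contra hlt
        push Not at hlt
        exact ih (Nat.card V') (hV ▸ hlt) V' G' T' rfl hP' hT'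
      exact tanL V G φ k T h2 (hk V G hP hlink) hT
  refine ⟨2 ^ (6 * φ + 1), fun V _ G hP => ?_⟩
  by_contra hlay
  obtain ⟨T, hT⟩ := tanE V G φ (6 * φ + 1) h3 le_rfl hlay
  exact hno _ V G T rfl hP hT

theorem fsAnd : S_FSAnd := by
  intro P P'
  refine ⟨fun h h' V V' _ _ G G' e he hp => ⟨h V V' G G' e he hp.1, h' V V' G G' e he hp.2⟩,
    fun h h' t => ?_⟩
  obtain ⟨Q, hQ, pr, hpr⟩ := h t
  obtain ⟨Q', hQ', pr', hpr'⟩ := h' t
  refine ⟨Q × Q', inferInstance, fun n GZ l => (pr n GZ l, pr' n GZ l), ?_⟩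
  intro n n' m GZ GZ' GW l l' A heq hp
  rw [Prod.mk.injEq] at heq
  exact ⟨hpr n n' m GZ GZ' GW l l' A heq.1 hp.1, hpr' n n' m GZ GZ' GW l l' A heq.2 hp.2⟩

theorem fsFr (mdl : S_Mdl) (trans : S_Trans) : S_FSFr := by
  intro I₁ I₂ _ _ H₁ H₂
  refine ⟨fun V V' _ _ G G' e he hp => ?_, fun t => ?_⟩
  · obtain ⟨-, -, t3⟩ := trans V V' G G' e he
    exact ⟨fun h => hp.1 ((t3 I₁ H₁).mpr h), fun h => hp.2 ((t3 I₂ H₂).mpr h)⟩
  · refine ⟨Set ((I₁ → Set (Set (Fin t) × Set (Fin t))) × (I₁ → I₁ → Prop)) ×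
      Set ((I₂ → Set (Set (Fin t) × Set (Fin t))) × (I₂ → I₂ → Prop)), inferInstance,
      fun n GZ l => (proM I₁ GZ l, proM I₂ GZ l), ?_⟩
    intro n n' m GZ GZ' GW l l' A heq hp
    rw [Prod.mk.injEq] at heq
    exact ⟨fun h => hp.1 (mdl I₁ _ _ _ H₁ t GZ' GZ GW l' l A heq.1.symm h),
      fun h => hp.2 (mdl I₂ _ _ _ H₂ t GZ' GZ GW l' l A heq.2.symm h)⟩

end Pool.Agent.MPd439b2.Rep
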