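import Pool.Agent.Lib.MP_d439b2_co.Rep.Spec

/-!
# MP_d439b2_co, Rep/Mdl: models only depend on the traces (helper10)
-/

set_option autoImplicit false

namespace Pool.Agent.MPd439b2.Rep

open Pool.Agent.MPd439b2

namespace MdlAux

variable {Z Z' W : Type} {t : ℕ}

theorem eq_un (S : Set (Z ⊕ W)) : S = un (Sum.inl ⁻¹' S) (Sum.inr ⁻¹' S) := by
  ext v
  rcases v with v | v <;> simp [un]

theorem labels {GZ : SimpleGraph Z} {GZ' : SimpleGraph Z'} {l : Z → Fin t} {l' : Z' → Fin t}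
    {C : Set Z} {C' : Set Z'} (h : sp GZ l C = sp GZ' l' C') : l '' C = l' '' C' := by
  have h1 : (l '' C, l '' (C \ C)) ∈ sp GZ' l' C' := by
    rw [← h]
    exact ⟨C, Set.Subset.refl _, fun u _ v hv => absurd hv.1 hv.2, rfl⟩
  obtain ⟨U', hU', -, hp⟩ := h1
  rw [Prod.mk.injEq, Set.sdiff_self, Set.image_empty] at hp
  have h2 : C' ⊆ U' := by
    have h3 : C' \ U' = ∅ := Set.image_eq_empty.mp hp.2.symm
    exact Set.sdiff_eq_empty.mp h3
  rw [hp.1, Set.Subset.antisymm hU' h2]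

theorem conn {GZ : SimpleGraph Z} {GZ' : SimpleGraph Z'} {GW : SimpleGraph W} {l : Z → Fin t}
    {l' : Z' → Fin t} {A : Fin t → Set W} {C : Set Z} {C' : Set Z'} {D : Set W}
    (h : sp GZ l C = sp GZ' l' C') (hc : Conn (glue GZ GW l A) (un C D)) :
    Conn (glue GZ' GW l' A) (un C' D) := by
  have hl := labels h
  refine ⟨?_, ?_⟩
  · obtain ⟨v, hv⟩ := hc.1
    rcases v with z | w
    · have hz : z ∈ C := by simpa [un] using hv
      obtain ⟨z', hz', -⟩ : l z ∈ l' '' C' := hl ▸ ⟨z, hz, rfl⟩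
      exact ⟨Sum.inl z', Or.inl ⟨z', hz', rfl⟩⟩
    · have hw : w ∈ D := by simpa [un] using hv
      exact ⟨Sum.inr w, Or.inr ⟨w, hw, rfl⟩⟩
  · intro E hE hne hne'
    by_contra hcon
    push Not at hcon
    -- the trace of `E`
    have hU'C' : Sum.inl ⁻¹' E ⊆ C' := by
      intro z hz
      have := hE hz
      simpa [un] using this
    have hD₀D : Sum.inr ⁻¹' E ⊆ D := by
      intro w hw
      have := hE hw
      simpa [un] using this
    have h1 : (l' '' (Sum.inl ⁻¹' E), l' '' (C' \ (Sum.inl ⁻¹' E))) ∈ sp GZ l C := by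
      rw [h]
      refine ⟨Sum.inl ⁻¹' E, hU'C', ?_, rfl⟩
      intro u hu v hv huv
      exact hcon (Sum.inl u) hu (Sum.inl v) ⟨Or.inl ⟨v, hv.1, rfl⟩, hv.2⟩ huv
    obtain ⟨U, hUC, hUno, hp⟩ := h1
    rw [Prod.mk.injEq] at hp
    have hno : ∀ b ∈ un U (Sum.inr ⁻¹' E), ∀ a ∈ un C D \ un U (Sum.inr ⁻¹' E),
        ¬ (glue GZ GW l A).Adj b a := by
      intro b hb a ha hba
      rcases b with z | w <;> rcases a with z₂ | w₂
      · have hz : z ∈ U := by simpa [un] using hb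
        have hz₂ : z₂ ∈ C ∧ z₂ ∉ U := by simpa [un] using ha
        exact hUno z hz z₂ hz₂ hba
      · have hz : z ∈ U := by simpa [un] using hb
        have hw₂ : w₂ ∈ D ∧ Sum.inr w₂ ∉ E := by simpa [un] using ha
        obtain ⟨z', hz', hzz⟩ : l z ∈ l' '' (Sum.inl ⁻¹' E) := hp.1 ▸ ⟨z, hz, rfl⟩
        refine hcon (Sum.inl z') hz' (Sum.inr w₂) ⟨Or.inr ⟨w₂, hw₂.1, rfl⟩, hw₂.2⟩ ?_
        show w₂ ∈ A (l' z')
        rw [hzz]
        exact hba
      · have hw : Sum.inr w ∈ E := by simpa [un] using hb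
        have hz₂ : z₂ ∈ C \ U := by simpa [un] using ha
        obtain ⟨z', hz', hzz⟩ : l z₂ ∈ l' '' (C' \ (Sum.inl ⁻¹' E)) := hp.2 ▸ ⟨z₂, hz₂, rfl⟩
        refine hcon (Sum.inr w) hw (Sum.inl z') ⟨Or.inl ⟨z', hz'.1, rfl⟩, hz'.2⟩ ?_
        show w ∈ A (l' z')
        rw [hzz]
        exact hba
      · have hw : Sum.inr w ∈ E := by simpa [un] using hb
        have hw₂ : w₂ ∈ D ∧ Sum.inr w₂ ∉ E := by simpa [un] using ha
        exact hcon (Sum.inr w) hw (Sum.inr w₂) ⟨Or.inr ⟨w₂, hw₂.1, rfl⟩, hw₂.2⟩ hba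
    have hsub : un U (Sum.inr ⁻¹' E) ⊆ un C D :=
      Set.union_subset_union (Set.image_mono hUC) (Set.image_mono hD₀D)
    by_cases hem : (un U (Sum.inr ⁻¹' E)).Nonempty
    · have hall : un U (Sum.inr ⁻¹' E) = un C D := by
        by_contra hne2
        obtain ⟨b, hb, a, ha, hba⟩ := hc.2 _ hsub hem hne2
        exact hno b hb a ha hba
      have hUeq : C ⊆ U := by
        intro z hz
        have h2 : (Sum.inl z : Z ⊕ W) ∈ un U (Sum.inr ⁻¹' E) := by
          rw [hall]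
          exact Or.inl ⟨z, hz, rfl⟩
        simpa [un] using h2
      have hDeq : D ⊆ Sum.inr ⁻¹' E := by
        intro w hw
        have h2 : (Sum.inr w : Z ⊕ W) ∈ un U (Sum.inr ⁻¹' E) := by
          rw [hall]
          exact Or.inr ⟨w, hw, rfl⟩
        simpa [un] using h2
      have h3 : C' \ (Sum.inl ⁻¹' E) = ∅ := by
        rw [← Set.image_eq_empty (f := l'), hp.2, Set.image_eq_empty, Set.sdiff_eq_empty]
        exact hUeq
      apply hne'
      refine Set.Subset.antisymm hE ?_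
      rw [eq_un E]
      exact Set.union_subset_union (Set.image_mono (Set.sdiff_eq_empty.mp h3)) (Set.image_mono hDeq)
    · rw [Set.not_nonempty_iff_eq_empty] at hem
      have hUe : U = ∅ := by
        rw [Set.eq_empty_iff_forall_notMem]
        intro z hz
        have h2 : (Sum.inl z : Z ⊕ W) ∈ un U (Sum.inr ⁻¹' E) := Or.inl ⟨z, hz, rfl⟩
        rw [hem] at h2
        exact h2
      have h3 : Sum.inl ⁻¹' E = (∅ : Set Z') := by
        rw [← Set.image_eq_empty (f := l'), hp.1, hUe, Set.image_empty]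
      obtain ⟨v, hv⟩ := hne
      rcases v with z | w
      · have : z ∈ (Sum.inl ⁻¹' E : Set Z') := hv
        rw [h3] at this
        exact this
      · have h2 : (Sum.inr w : Z ⊕ W) ∈ un U (Sum.inr ⁻¹' E) := Or.inr ⟨w, hv, rfl⟩
        rw [hem] at h2
        exact h2

theorem tch {GZ : SimpleGraph Z} {GZ' : SimpleGraph Z'} {GW : SimpleGraph W} {l : Z → Fin t}
    {l' : Z' → Fin t} {A : Fin t → Set W} {C₁ C₂ : Set Z} {C₁' C₂' : Set Z'} {D₁ D₂ : Set W}
    (h1 : l '' C₁ = l' '' C₁') (h2 : l '' C₂ = l' '' C₂') (h : Tch GZ C₁ C₂ → Tch GZ' C₁' C₂')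
    (ht : Tch (glue GZ GW l A) (un C₁ D₁) (un C₂ D₂)) :
    Tch (glue GZ' GW l' A) (un C₁' D₁) (un C₂' D₂) := by
  obtain ⟨a, ha, b, hb, hab⟩ := ht
  rcases a with z | w <;> rcases b with z₂ | w₂
  · have hz : z ∈ C₁ := by simpa [un] using ha
    have hz₂ : z₂ ∈ C₂ := by simpa [un] using hb
    obtain ⟨x, hx, y, hy, hxy⟩ := h ⟨z, hz, z₂, hz₂, hab⟩
    exact ⟨Sum.inl x, Or.inl ⟨x, hx, rfl⟩, Sum.inl y, Or.inl ⟨y, hy, rfl⟩, hxy⟩
  · have hz : z ∈ C₁ := by simpa [un] using ha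
    have hw₂ : w₂ ∈ D₂ := by simpa [un] using hb
    obtain ⟨z', hz', hzz⟩ : l z ∈ l' '' C₁' := h1 ▸ ⟨z, hz, rfl⟩
    refine ⟨Sum.inl z', Or.inl ⟨z', hz', rfl⟩, Sum.inr w₂, Or.inr ⟨w₂, hw₂, rfl⟩, ?_⟩
    show w₂ ∈ A (l' z')
    rw [hzz]
    exact hab
  · have hw : w ∈ D₁ := by simpa [un] using ha
    have hz₂ : z₂ ∈ C₂ := by simpa [un] using hb
    obtain ⟨z', hz', hzz⟩ : l z₂ ∈ l' '' C₂' := h2 ▸ ⟨z₂, hz₂, rfl⟩
    refine ⟨Sum.inr w, Or.inr ⟨w, hw, rfl⟩, Sum.inl z', Or.inl ⟨z', hz', rfl⟩, ?_⟩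
    show w ∈ A (l' z')
    rw [hzz]
    exact hab
  · have hw : w ∈ D₁ := by simpa [un] using ha
    have hw₂ : w₂ ∈ D₂ := by simpa [un] using hb
    exact ⟨Sum.inr w, Or.inr ⟨w, hw, rfl⟩, Sum.inr w₂, Or.inr ⟨w₂, hw₂, rfl⟩, hab⟩

end MdlAux

open MdlAux in
theorem mdl : S_Mdl := by
  intro I Z Z' W H t GZ GZ' GW l l' A hpro hM
  obtain ⟨B, -, hBc, hBd, hBa⟩ := hM
  have h1 : ((fun w => sp GZ l (Sum.inl ⁻¹' B w)), fun w w' =>
      Tch GZ (Sum.inl ⁻¹' B w) (Sum.inl ⁻¹' B w')) ∈ proM I GZ' l' := by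
    rw [← hpro]
    refine ⟨fun w => Sum.inl ⁻¹' B w, ?_, rfl⟩
    intro w w' hww
    rw [Set.disjoint_left]
    intro z hz hz'
    exact Set.disjoint_left.mp (hBd w w' hww) hz hz'
  obtain ⟨C', hd, hp⟩ := h1
  rw [Prod.mk.injEq] at hp
  have hsp : ∀ w, sp GZ l (Sum.inl ⁻¹' B w) = sp GZ' l' (C' w) := fun w => congrFun hp.1 w
  have htc : ∀ w w', Tch GZ (Sum.inl ⁻¹' B w) (Sum.inl ⁻¹' B w') ↔ Tch GZ' (C' w) (C' w') :=
    fun w w' => (congrFun (congrFun hp.2 w) w').to_iff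
  refine ⟨fun w => un (C' w) (Sum.inr ⁻¹' B w), fun w => Set.subset_univ _, ?_, ?_, ?_⟩
  · intro w
    refine conn (hsp w) ?_
    rw [← eq_un]
    exact hBc w
  · intro w w' hww
    rw [Set.disjoint_left]
    intro v hv hv'
    rcases v with z | x
    · have h2 : z ∈ C' w := by simpa [un] using hv
      have h3 : z ∈ C' w' := by simpa [un] using hv'
      exact Set.disjoint_left.mp (hd w w' hww) h2 h3
    · have h2 : Sum.inr x ∈ B w := by simpa [un] using hv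
      have h3 : Sum.inr x ∈ B w' := by simpa [un] using hv'
      exact Set.disjoint_left.mp (hBd w w' hww) h2 h3
  · intro w w' hww
    rw [hBa w w' hww]
    constructor
    · intro h
      rw [eq_un (B w), eq_un (B w')] at h
      exact tch (labels (hsp w)) (labels (hsp w')) (htc w w').mp h
    · intro h
      have h2 := tch (labels (hsp w)).symm (labels (hsp w')).symm (htc w w').mpr h
      rw [← eq_un, ← eq_un] at h2
      exact h2

end Pool.Agent.MPd439b2.Rep
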