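import Pool.Agent.Lib.MP_d439b2_co.Rep.SpecG

/-!
# MP_d439b2_co, Rep/RepG: the replacement theorem for general classes (helper10)
-/

set_option autoImplicit false

namespace Pool.Agent.MPd439b2.Rep

open Pool.Agent.MPd439b2

namespace RepGAux

/-- the type of the profiles of states -/
abbrev St (t : ℕ) : Type := Option (Submodule (ZMod 2) (Fin t → ZMod 2) ×
  Submodule (ZMod 2) ((Fin t → ZMod 2) × (Fin t → ZMod 2)) × Fin t)

theorem finSub (M : Type) [AddCommGroup M] [Module (ZMod 2) M] [Finite M] :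
    Finite (Submodule (ZMod 2) M) :=
  Finite.of_injective (fun S : Submodule (ZMod 2) M => (S : Set M)) SetLike.coe_injective

theorem finSt (t : ℕ) : Finite (St t) := by
  have := finSub (Fin t → ZMod 2)
  have := finSub ((Fin t → ZMod 2) × (Fin t → ZMod 2))
  infer_instance

theorem finProT (t : ℕ) : Finite (Set (St t × St t × St t)) := by
  have := finSt t
  infer_instance

/-- finitely many values, each with a representative of bounded size -/
theorem bdd {t : ℕ} {Q : Type} [Finite Q]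
    (pr : (n : ℕ) → SimpleGraph (Fin n) → (Fin n → Fin t) → Q) :
    ∃ B : ℕ, ∀ (n : ℕ) (GZ : SimpleGraph (Fin n)) (l : Fin n → Fin t), ∃ n' ≤ B,
      ∃ (GZ' : SimpleGraph (Fin n')) (l' : Fin n' → Fin t), pr n' GZ' l' = pr n GZ l := by
  classical
  let Ex : Q → ℕ → Prop := fun q n => ∃ (GZ : SimpleGraph (Fin n)) (l : Fin n → Fin t),
    pr n GZ l = q
  have h1 : ∀ q : Q, ∃ b : ℕ, ∀ n, Ex q n → ∃ n' ≤ b, Ex q n' := by
    intro q
    by_cases h : ∃ n, Ex q n
    · obtain ⟨n, hn⟩ := h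
      exact ⟨n, fun _ _ => ⟨n, le_rfl, hn⟩⟩
    · exact ⟨0, fun n hn => absurd ⟨n, hn⟩ h⟩
  choose b hb using h1
  obtain ⟨B, hB⟩ : ∃ B, ∀ q, b q ≤ B := by
    obtain ⟨B, hB⟩ := (Set.finite_range b).bddAbove
    exact ⟨B, fun q => hB ⟨q, rfl⟩⟩
  refine ⟨B, fun n GZ l => ?_⟩
  obtain ⟨n', hn', GZ', l', h⟩ := hb (pr n GZ l) n ⟨GZ, l, rfl⟩
  exact ⟨n', hn'.trans (hB _), GZ', l', h⟩

end RepGAux

open RepGAux in
theorem repG (tanG : S_TanG) (iso : S_Iso) (trans : S_Trans) (a2 : LK.S_A2) : S_RepG := by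
  intro P hInv hFS c
  obtain ⟨Q, hQ, pr, hpr⟩ := hFS (2 ^ c + 1)
  have := finProT (2 ^ c + 1)
  obtain ⟨B, hB⟩ := bdd (Q := Q × Set (St (2 ^ c + 1) × St (2 ^ c + 1) × St (2 ^ c + 1)))
    (fun n GZ l => (pr n GZ l, proT GZ l))
  refine ⟨B, fun φ hcφ hφ V _ G T hP hT hmin => ?_⟩
  -- the sets of the tangle are small
  have key : ∀ X : Set V, LK.cr G X ≤ c → X ∈ T → X.ncard ≤ B := by
    intro X hX hXT
    by_contra hlt
    push Not at hlt
    obtain ⟨m, GZ, GW, l, A, e, he, heX⟩ := iso V G X c hX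
    obtain ⟨-, t2, -⟩ := trans _ _ (glue GZ GW l A) G e he
    have hT1 := t2 φ T hT
    obtain ⟨n', hn', GZ', l', hp⟩ := hB X.ncard GZ l
    rw [Prod.mk.injEq] at hp
    obtain ⟨T', hT'⟩ := tanG (Fin X.ncard) (Fin n') (Fin m) (2 ^ c + 1) GZ GZ' GW l l' A φ
      {Y | e '' Y ∈ T} hφ hp.2.symm hT1 (by
        show e '' (Sum.inl '' Set.univ) ∈ T
        rw [heX]
        exact hXT)
    have hP1 : P _ (glue GZ GW l A) := by
      refine hInv V _ G (glue GZ GW l A) e.symm (fun u v => ?_) hP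
      rw [he, Equiv.apply_symm_apply, Equiv.apply_symm_apply]
    have hP2 : P _ (glue GZ' GW l' A) := hpr _ _ m GZ GZ' GW l l' A hp.1.symm hP1
    have h3 := hmin _ (glue GZ' GW l' A) T' hP2 hT'
    rw [← Nat.card_congr e, Nat.card_sum, Nat.card_sum] at h3
    simp only [Nat.card_eq_fintype_card, Fintype.card_fin] at h3
    omega
  intro X hX
  rcases hT.dec X (hX.trans hcφ) with h | h
  · exact Or.inl (key X hX h)
  · refine Or.inr (key Xᶜ ?_ h)
    obtain ⟨-, hc, -, -⟩ := a2 V G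
    have h4 := hc X (Set.subset_univ X)
    rw [← Set.compl_eq_univ_sdiff] at h4
    omega

end Pool.Agent.MPd439b2.Rep
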