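import Pool.Agent.Lib.MP_d439b2_co.Rep.Spec

/-!
# MP_d439b2_co, Rep/Rk: the cut-rank of the glued graph (helper10)
-/

set_option autoImplicit false

namespace Pool.Agent.MPd439b2.Rep

open Pool.Agent.MPd439b2

namespace RkAux

section lin

variable {F E M N : Type} [Field F] [AddCommGroup E] [Module F E] [AddCommGroup M] [Module F M]
  [AddCommGroup N] [Module F N]

/-- rank-nullity for a map restricted to a submodule -/
theorem rn [Module.Finite F M] (f : M →ₗ[F] N) (U : Submodule F M) :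
    Module.finrank F ↥(U.map f) + Module.finrank F ↥(U ⊓ LinearMap.ker f) =
      Module.finrank F ↥U := by
  have h1 := LinearMap.finrank_range_add_finrank_ker (f.domRestrict U)
  rw [LinearMap.range_domRestrict, LinearMap.ker_domRestrict] at h1
  rw [← h1]
  congr 1
  have h2 : (U ⊓ LinearMap.ker f) = Submodule.map U.subtype ((LinearMap.ker f).comap U.subtype) := by
    rw [Submodule.map_comap_subtype]
  rw [h2]
  exact (LinearEquiv.finrank_eq (Submodule.equivMapOfInjective U.subtype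
    (Submodule.injective_subtype U) _)).symm

variable (φ : E →ₗ[F] M) (R₀ : Submodule F (E × M)) (α : E →ₗ[F] N) (P₀ : Submodule F (E × N))

/-- the space of the pairs `(c, α e)` -/
def QQ : Submodule F (E × N) :=
  P₀ ⊔ (R₀.comap (LinearMap.prodMap LinearMap.id φ)).map
    (LinearMap.prod (LinearMap.snd F E E) (α.comp (LinearMap.fst F E E)))

/-- the total space -/
def TT : Submodule F (M × N) :=
  R₀.map (LinearMap.prod (LinearMap.snd F E M) (α.comp (LinearMap.fst F E M))) ⊔
    P₀.map (LinearMap.prodMap φ LinearMap.id)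

theorem TT_inf : TT φ R₀ α P₀ ⊓ (LinearMap.range φ).prod ⊤ =
    (QQ φ R₀ α P₀).map (LinearMap.prodMap φ LinearMap.id) := by
  apply le_antisymm
  · rintro x ⟨hx, hxN⟩
    obtain ⟨r', ⟨⟨e, r⟩, her, rfl⟩, p', ⟨⟨c', w⟩, hcw, rfl⟩, rfl⟩ := Submodule.mem_sup.mp hx
    obtain ⟨⟨d, hd⟩, -⟩ := hxN
    have hd' : φ d = r + φ c' := hd
    refine ⟨(d - c' + c', α e + w), ?_, ?_⟩
    · have h1 : ((d - c' + c', α e + w) : E × N) = (c', w) + (d - c', α e) := by
        ext <;> simp [add_comm]
      rw [h1]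
      refine Submodule.add_mem_sup hcw ⟨(e, d - c'), ?_, by simp⟩
      show ((LinearMap.id : E →ₗ[F] E) e, φ (d - c')) ∈ R₀
      have h2 : φ (d - c') = r := by rw [map_sub, hd']; abel
      rw [h2]
      exact her
    · ext
      · simp [hd']
      · simp [add_comm]
  · rintro x ⟨q, hq, rfl⟩
    obtain ⟨p, hp, s, ⟨⟨e, c⟩, hec, rfl⟩, rfl⟩ := Submodule.mem_sup.mp hq
    refine ⟨?_, ⟨p.1 + c, ?_⟩, trivial⟩
    · rw [map_add]
      have h1 : LinearMap.prodMap φ (LinearMap.id : N →ₗ[F] N)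
          ((LinearMap.prod (LinearMap.snd F E E) (α.comp (LinearMap.fst F E E))) (e, c)) =
          (LinearMap.prod (LinearMap.snd F E M) (α.comp (LinearMap.fst F E M))) (e, φ c) := by
        simp
      rw [h1, add_comm]
      exact Submodule.add_mem_sup ⟨(e, φ c), hec, rfl⟩ ⟨p, hp, rfl⟩
    · simp

theorem prod_ker (S : Submodule F M) [Module.Finite F M] [Module.Finite F N] :
    Module.finrank F ↥(S.prod (⊤ : Submodule F N)) = Module.finrank F ↥S + Module.finrank F N := by
  have h1 := rn (LinearMap.fst F M N) (S.prod (⊤ : Submodule F N))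
  have h2 : (S.prod (⊤ : Submodule F N)).map (LinearMap.fst F M N) = S := by
    ext x
    constructor
    · rintro ⟨y, hy, rfl⟩
      exact hy.1
    · intro hx
      exact ⟨(x, 0), ⟨hx, trivial⟩, rfl⟩
  have h3 : (S.prod (⊤ : Submodule F N)) ⊓ LinearMap.ker (LinearMap.fst F M N) =
      LinearMap.range (LinearMap.inr F M N) := by
    ext x
    constructor
    · rintro ⟨hx, hx'⟩
      refine ⟨x.2, ?_⟩
      have : x.1 = 0 := hx'
      ext
      · simp [this]
      · simp
    · rintro ⟨y, rfl⟩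
      exact ⟨⟨by simp, trivial⟩, by simp⟩
  rw [h2, h3, LinearMap.finrank_range_of_inj LinearMap.inr_injective] at h1
  exact h1.symm

theorem TT_sup : TT φ R₀ α P₀ ⊔ (LinearMap.range φ).prod ⊤ =
    (R₀.map (LinearMap.snd F E M) ⊔ LinearMap.range φ).prod ⊤ := by
  apply le_antisymm
  · refine sup_le (sup_le ?_ ?_) ?_
    · rintro x ⟨⟨e, r⟩, her, rfl⟩
      exact ⟨Submodule.mem_sup_left ⟨(e, r), her, rfl⟩, trivial⟩
    · rintro x ⟨⟨c, w⟩, -, rfl⟩
      exact ⟨Submodule.mem_sup_right ⟨c, rfl⟩, trivial⟩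
    · rintro x ⟨hx, -⟩
      exact ⟨Submodule.mem_sup_right hx, trivial⟩
  · rintro x ⟨hx, -⟩
    obtain ⟨r', ⟨⟨e, r⟩, her, rfl⟩, p', hp', hs⟩ := Submodule.mem_sup.mp hx
    have h1 : x = (LinearMap.prod (LinearMap.snd F E M) (α.comp (LinearMap.fst F E M))) (e, r) +
        (p', x.2 - α e) := by
      ext
      · rw [← hs]
        simp
      · simp
    rw [h1]
    exact Submodule.add_mem_sup (Submodule.mem_sup_left ⟨(e, r), her, rfl⟩) ⟨hp', trivial⟩

theorem finrank_TT [Module.Finite F E] [Module.Finite F M] [Module.Finite F N] :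
    Module.finrank F ↥(TT φ R₀ α P₀) =
      (Module.finrank F ↥(R₀.map (LinearMap.snd F E M) ⊔ LinearMap.range φ) -
        Module.finrank F ↥(LinearMap.range φ)) +
      (Module.finrank F ↥(QQ φ R₀ α P₀) -
        Module.finrank F ↥(QQ φ R₀ α P₀ ⊓ (LinearMap.ker φ).prod (⊥ : Submodule F N))) := by
  have h1 := Submodule.finrank_sup_add_finrank_inf_eq (TT φ R₀ α P₀) ((LinearMap.range φ).prod ⊤)
  rw [TT_sup, TT_inf, prod_ker, prod_ker] at h1
  have h2 := rn (LinearMap.prodMap φ (LinearMap.id : N →ₗ[F] N)) (QQ φ R₀ α P₀)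
  have h3 : LinearMap.ker (LinearMap.prodMap φ (LinearMap.id : N →ₗ[F] N)) =
      (LinearMap.ker φ).prod (⊥ : Submodule F N) := by
    ext x
    simp [Submodule.mem_prod]
  rw [h3] at h2
  have h4 : Module.finrank F ↥(LinearMap.range φ) ≤
      Module.finrank F ↥(R₀.map (LinearMap.snd F E M) ⊔ LinearMap.range φ) :=
    Submodule.finrank_mono le_sup_right
  omega

end lin

variable {Z W : Type} {t : ℕ}

theorem al_single (A : Fin t → Set W) (U : Set W) (i : Fin t) {w : W} (h : w ∉ U) :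
    al A U (Pi.single i 1) w = cv A w i := by
  have h1 : al A U (Pi.single i 1) w = ∑ j, (Pi.single i 1 : Fin t → ZMod 2) j * cv A w j := by
    exact if_neg h
  rw [h1, Finset.sum_eq_single i]
  · simp
  · intro j _ hj
    rw [Pi.single_eq_of_ne hj, zero_mul]
  · intro hi
    exact absurd (Finset.mem_univ i) hi

theorem row_inl (GZ : SimpleGraph Z) (GW : SimpleGraph W) (l : Z → Fin t) (A : Fin t → Set W)
    (Y : Set Z) (U : Set W) (z : Z) :
    (LinearEquiv.sumArrowLequivProdArrow Z W (ZMod 2) (ZMod 2))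
      (LK.row (glue GZ GW l A) (un Y U)ᶜ (Sum.inl z)) =
      (LK.row GZ Yᶜ z, al A U (Pi.single (l z) 1)) := by
  classical
  ext v
  · simp [LK.row, un, glue, LinearEquiv.sumArrowLequivProdArrow]
  · by_cases h : v ∈ U
    · simp [LK.row, un, al, h, LinearEquiv.sumArrowLequivProdArrow]
    · show _ = al A U (Pi.single (l z) 1) v
      rw [al_single A U (l z) h]
      simp [LK.row, un, h, glue, cv, LinearEquiv.sumArrowLequivProdArrow]

theorem row_inr (GZ : SimpleGraph Z) (GW : SimpleGraph W) (l : Z → Fin t) (A : Fin t → Set W)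
    (Y : Set Z) (U : Set W) (w : W) :
    (LinearEquiv.sumArrowLequivProdArrow Z W (ZMod 2) (ZMod 2))
      (LK.row (glue GZ GW l A) (un Y U)ᶜ (Sum.inr w)) =
      (Ph l Y (cv A w), LK.row GW Uᶜ w) := by
  classical
  ext v
  · by_cases h : v ∈ Y
    · simp [LK.row, un, Ph, h, LinearEquiv.sumArrowLequivProdArrow]
    · simp [LK.row, un, Ph, h, glue, cv, LinearEquiv.sumArrowLequivProdArrow]
  · simp [LK.row, un, glue, LinearEquiv.sumArrowLequivProdArrow]

/-- the span of the rows of the vertices in `U` -/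
noncomputable def PP (GW : SimpleGraph W) (A : Fin t → Set W) (U : Set W) :
    Submodule (ZMod 2) ((Fin t → ZMod 2) × (W → ZMod 2)) :=
  Submodule.span (ZMod 2) ((fun w => (cv A w, LK.row GW Uᶜ w)) '' U)

theorem map_rows (GZ : SimpleGraph Z) (GW : SimpleGraph W) (l : Z → Fin t) (A : Fin t → Set W)
    (Y : Set Z) (U : Set W) :
    (Submodule.span (ZMod 2) (LK.row (glue GZ GW l A) (un Y U)ᶜ '' (un Y U))).map
      (LinearEquiv.sumArrowLequivProdArrow Z W (ZMod 2) (ZMod 2)).toLinearMap =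
      TT (Ph l Y) (RZ GZ l Y) (al A U) (PP GW A U) := by
  rw [TT, RZ, PP, Submodule.map_span, Submodule.map_span, Submodule.map_span,
    ← Submodule.span_union]
  congr 1
  rw [Set.image_image, Set.image_image, Set.image_image, un, Set.image_union, Set.image_image,
    Set.image_image]
  congr 1
  · apply Set.image_congr
    intro z _
    rw [← un]
    exact row_inl GZ GW l A Y U z
  · apply Set.image_congr
    intro w _
    rw [← un]
    exact row_inr GZ GW l A Y U w

theorem map_snd (GZ : SimpleGraph Z) (l : Z → Fin t) (Y : Set Z) :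
    (RZ GZ l Y).map (LinearMap.snd (ZMod 2) (Fin t → ZMod 2) (Z → ZMod 2)) =
      Submodule.span (ZMod 2) (LK.row GZ Yᶜ '' Y) := by
  rw [RZ, Submodule.map_span, Set.image_image]
  rfl

end RkAux

open RkAux in
theorem rk : S_Rk := by
  intro Z W _ _ t GZ GW l A
  refine ⟨fun Y U => ?_, fun K S U => ?_⟩
  · have h1 := finrank_TT (Ph l Y) (RZ GZ l Y) (al A U) (PP GW A U)
    rw [← map_rows GZ GW l A Y U, map_snd] at h1
    have h2 := LinearEquiv.finrank_map_eq (LinearEquiv.sumArrowLequivProdArrow Z W (ZMod 2) (ZMod 2))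
      (Submodule.span (ZMod 2) (LK.row (glue GZ GW l A) (un Y U)ᶜ '' (un Y U)))
    rw [LK.cr, LK.rk, ← h2]
    exact h1
  · have key : ∀ Q : Submodule (ZMod 2) ((Fin t → ZMod 2) × (W → ZMod 2)), PP GW A U ≤ Q →
        LK.rk GW U Uᶜ ≤ Module.finrank (ZMod 2) ↥Q -
          Module.finrank (ZMod 2) ↥(Q ⊓ K.prod (⊥ : Submodule (ZMod 2) (W → ZMod 2))) := by
      intro Q hQ
      have h1 := rn (LinearMap.snd (ZMod 2) (Fin t → ZMod 2) (W → ZMod 2)) Q
      have h2 : Module.finrank (ZMod 2) ↥(Q ⊓ K.prod (⊥ : Submodule (ZMod 2) (W → ZMod 2))) ≤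
          Module.finrank (ZMod 2) ↥(Q ⊓ LinearMap.ker
            (LinearMap.snd (ZMod 2) (Fin t → ZMod 2) (W → ZMod 2))) := by
        apply Submodule.finrank_mono
        refine inf_le_inf_left _ ?_
        rintro x ⟨-, hx⟩
        exact hx
      have h3 : LK.rk GW U Uᶜ ≤ Module.finrank (ZMod 2)
          ↥(Q.map (LinearMap.snd (ZMod 2) (Fin t → ZMod 2) (W → ZMod 2))) := by
        apply Submodule.finrank_mono
        rw [Submodule.span_le]
        rintro x ⟨w, hw, rfl⟩
        exact ⟨(cv A w, LK.row GW Uᶜ w), hQ (Submodule.subset_span ⟨w, hw, rfl⟩), rfl⟩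
      omega
    exact key _ le_sup_left

end Pool.Agent.MPd439b2.Rep
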