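import Pool.Agent.Lib.MP_d439b2_co.Rep.Spec

/-!
# MP_d439b2_co, Rep: large width gives a tangle
-/

set_option autoImplicit false

namespace Pool.Agent.MPd439b2.Rep

open Pool.Agent.MPd439b2

theorem tanE (a2 : LK.S_A2) (a6 : LK.S_A6) : S_TanE := by
  intro V _ G c q hc hq hL
  have hex : ∃ B : Set V, B.ncard = q ∧ ∀ P : Set V, LK.cr G P ≤ c →
      (B ∩ P).ncard ≤ 2 * c ∨ (B \ P).ncard ≤ 2 * c := by
    by_contra hcon
    apply hL
    refine a6 V G q c (by omega) fun B hB => ?_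
    by_contra hno
    apply hcon
    refine ⟨B, hB, fun P hP => ?_⟩
    by_contra h
    rw [not_or, not_le, not_le] at h
    exact hno ⟨P, hP, h.1, h.2⟩
  obtain ⟨B, hB, hB'⟩ := hex
  have hcf := a2 V G
  have hcompl : ∀ X : Set V, LK.cr G Xᶜ = LK.cr G X := by
    intro X
    rw [Set.compl_eq_univ_sdiff]
    exact hcf.2.1 X (Set.subset_univ X)
  refine ⟨{P | LK.cr G P ≤ c ∧ (B ∩ P).ncard ≤ 2 * c}, fun X hX => hX.1, ?_, ?_, ?_⟩
  · intro X hX
    rcases hB' X hX with h | h
    · exact Or.inl ⟨hX, h⟩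
    · refine Or.inr ⟨?_, ?_⟩
      · rw [hcompl]
        exact hX
      · rw [← Set.sdiff_eq]
        exact h
  · intro X hX Y hY U hU h
    have h1 : B = B ∩ X ∪ B ∩ Y ∪ B ∩ U := by
      rw [← Set.inter_union_distrib_left, ← Set.inter_union_distrib_left, h, Set.inter_univ]
    have h2 : B.ncard ≤ (B ∩ X).ncard + (B ∩ Y).ncard + (B ∩ U).ncard := by
      conv_lhs => rw [h1]
      exact (Set.ncard_union_le _ _).trans (Nat.add_le_add_right (Set.ncard_union_le _ _) _)
    have h3 := hX.2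
    have h4 := hY.2
    have h5 := hU.2
    omega
  · intro v
    refine ⟨(hcf.2.2.2 v (Set.mem_univ v)).trans hc, ?_⟩
    have h1 : (B ∩ {v}).ncard ≤ ({v} : Set V).ncard := Set.ncard_le_ncard Set.inter_subset_right
    rw [Set.ncard_singleton] at h1
    omega

end Pool.Agent.MPd439b2.Rep
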