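import Pool.Agent.Lib.MP_d439b2_co.Rep.Spec

/-!
# MP_d439b2_co, Rep: the tangle of the new graph
-/

set_option autoImplicit false

namespace Pool.Agent.MPd439b2.Rep

open Pool.Agent.MPd439b2

namespace TanGAux

variable {Z Z' W : Type}

theorem mem_inl {Y : Set Z} {U : Set W} {z : Z} : Sum.inl z ∈ un Y U ↔ z ∈ Y := by
  constructor
  · rintro (⟨z', hz', h⟩ | ⟨w, _, h⟩)
    · exact Sum.inl_injective h ▸ hz'
    · exact absurd h (by simp)
  · intro h
    exact Or.inl ⟨z, h, rfl⟩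

theorem mem_inr {Y : Set Z} {U : Set W} {w : W} : Sum.inr w ∈ un Y U ↔ w ∈ U := by
  constructor
  · rintro (⟨z, _, h⟩ | ⟨w', hw', h⟩)
    · exact absurd h (by simp)
    · exact Sum.inr_injective h ▸ hw'
  · intro h
    exact Or.inr ⟨w, h, rfl⟩

theorem un_pre (X : Set (Z ⊕ W)) : un (Sum.inl ⁻¹' X) (Sum.inr ⁻¹' X) = X := by
  ext x
  rcases x with z | w
  · exact mem_inl
  · exact mem_inr

theorem un_compl (Y : Set Z) (U : Set W) : (un Y U)ᶜ = un Yᶜ Uᶜ := by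
  ext x
  rcases x with z | w
  · rw [Set.mem_compl_iff, mem_inl, mem_inl]
    rfl
  · rw [Set.mem_compl_iff, mem_inr, mem_inr]
    rfl

theorem un_univ_empty : un (Set.univ : Set Z) (∅ : Set W) = Sum.inl '' Set.univ := by
  unfold un
  rw [Set.image_empty, Set.union_empty]

/-- sets with the same state -/
theorem state [Finite Z] [Finite Z'] [Finite W] (rk : S_Rk) (cap : S_Cap) {t : ℕ}
    {GZ : SimpleGraph Z} {GZ' : SimpleGraph Z'} (GW : SimpleGraph W) {l : Z → Fin t}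
    {l' : Z' → Fin t} (A : Fin t → Set W) {C : Set Z} {C' : Set Z'}
    (h : cst GZ l C = cst GZ' l' C') :
    ∃ D : Set Z, C ⊆ D ∧ ∀ U : Set W, LK.cr (glue GZ GW l A) (un D U) ≤
      LK.cr (glue GZ' GW l' A) (un C' U) := by
  by_cases h1 : stR GZ l C < t
  · have e1 : cst GZ l C = some (stK l C, stS GZ l C, ⟨stR GZ l C, h1⟩) := dif_pos h1
    by_cases h2 : stR GZ' l' C' < t
    · have e2 : cst GZ' l' C' = some (stK l' C', stS GZ' l' C', ⟨stR GZ' l' C', h2⟩) := dif_pos h2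
      rw [e1, e2, Option.some.injEq, Prod.mk.injEq, Prod.mk.injEq, Fin.mk.injEq] at h
      refine ⟨C, subset_rfl, fun U => ?_⟩
      rw [(rk Z W t GZ GW l A).1 C U, (rk Z' W t GZ' GW l' A).1 C' U, h.1, h.2.1, h.2.2]
    · have e2 : cst GZ' l' C' = none := dif_neg h2
      rw [e1, e2] at h
      exact absurd h (by simp)
  · have e1 : cst GZ l C = none := dif_neg h1
    have h2 : ¬ stR GZ' l' C' < t := by
      intro h2
      have e2 : cst GZ' l' C' = some (stK l' C', stS GZ' l' C', ⟨stR GZ' l' C', h2⟩) := dif_pos h2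
      rw [e1, e2] at h
      exact absurd h (by simp)
    exact ⟨Set.univ, Set.subset_univ C, fun U => cap Z' Z W t GZ' GZ GW l' l A C' U (not_lt.1 h2)⟩

end TanGAux

open TanGAux in
theorem tanG (rk : S_Rk) (cap : S_Cap) (_a1 : LK.S_A1) (a2 : LK.S_A2) : S_TanG := by
  intro Z Z' W _ _ _ t GZ GZ' GW l l' A c T hc hpro hT hZT
  have hcons : ∀ (Y Y' : Set Z) (U : Set W), un Y U ∈ T →
      LK.cr (glue GZ GW l A) (un Y' U) ≤ c → un Y' U ∈ T := by
    intro Y Y' U hY hY'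
    rcases hT.dec _ hY' with h | h
    · exact h
    · refine absurd ?_ (hT.cov _ hY _ h _ hZT)
      rw [Set.eq_univ_iff_forall]
      rintro (z | w)
      · exact Or.inr ⟨z, trivial, rfl⟩
      · by_cases hw : w ∈ U
        · exact Or.inl (Or.inl (mem_inr.2 hw))
        · exact Or.inl (Or.inr fun h' => hw (mem_inr.1 h'))
  have hcompl : ∀ X : Set (Z' ⊕ W), LK.cr (glue GZ' GW l' A) Xᶜ = LK.cr (glue GZ' GW l' A) X := by
    intro X
    rw [Set.compl_eq_univ_sdiff]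
    exact (a2 _ (glue GZ' GW l' A)).2.1 X (Set.subset_univ X)
  have hsing : ∀ v : Z' ⊕ W, LK.cr (glue GZ' GW l' A) {v} ≤ c := fun v =>
    ((a2 _ (glue GZ' GW l' A)).2.2.2 v (Set.mem_univ v)).trans hc
  refine ⟨{X | LK.cr (glue GZ' GW l' A) X ≤ c ∧ ∃ Y : Set Z, un Y (Sum.inr ⁻¹' X) ∈ T},
    fun X hX => hX.1, ?_, ?_, ?_⟩
  · intro X hX
    have h1 : (cst GZ' l' (Sum.inl ⁻¹' X), cst GZ' l' Set.univ, cst GZ' l' Set.univ) ∈
        proT GZ' l' := ⟨_, _, _, by simp, rfl⟩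
    rw [← hpro] at h1
    obtain ⟨C₁, C₂, C₃, -, h2⟩ := h1
    rw [Prod.mk.injEq] at h2
    obtain ⟨D, -, hD⟩ := state rk cap GW A h2.1.symm
    have h3 : LK.cr (glue GZ GW l A) (un D (Sum.inr ⁻¹' X)) ≤ c := by
      refine (hD _).trans ?_
      rw [un_pre]
      exact hX
    rcases hT.dec _ h3 with h | h
    · exact Or.inl ⟨hX, D, h⟩
    · refine Or.inr ⟨?_, Dᶜ, ?_⟩
      · rw [hcompl]
        exact hX
      · rw [Set.preimage_compl, ← un_compl]
        exact h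
  · rintro X₁ ⟨hX₁, Y₁, hY₁⟩ X₂ ⟨hX₂, Y₂, hY₂⟩ X₃ ⟨hX₃, Y₃, hY₃⟩ hcov
    have h1 : (cst GZ' l' (Sum.inl ⁻¹' X₁), cst GZ' l' (Sum.inl ⁻¹' X₂),
        cst GZ' l' (Sum.inl ⁻¹' X₃)) ∈ proT GZ' l' := by
      refine ⟨_, _, _, ?_, rfl⟩
      rw [← Set.preimage_union, ← Set.preimage_union, hcov, Set.preimage_univ]
    rw [← hpro] at h1
    obtain ⟨C₁, C₂, C₃, hC, h2⟩ := h1
    rw [Prod.mk.injEq, Prod.mk.injEq] at h2
    obtain ⟨D₁, hCD₁, hD₁⟩ := state rk cap GW A h2.1.symm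
    obtain ⟨D₂, hCD₂, hD₂⟩ := state rk cap GW A h2.2.1.symm
    obtain ⟨D₃, hCD₃, hD₃⟩ := state rk cap GW A h2.2.2.symm
    have m₁ : un D₁ (Sum.inr ⁻¹' X₁) ∈ T :=
      hcons Y₁ D₁ _ hY₁ ((hD₁ _).trans (by rw [un_pre]; exact hX₁))
    have m₂ : un D₂ (Sum.inr ⁻¹' X₂) ∈ T :=
      hcons Y₂ D₂ _ hY₂ ((hD₂ _).trans (by rw [un_pre]; exact hX₂))
    have m₃ : un D₃ (Sum.inr ⁻¹' X₃) ∈ T :=
      hcons Y₃ D₃ _ hY₃ ((hD₃ _).trans (by rw [un_pre]; exact hX₃))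
    apply hT.cov _ m₁ _ m₂ _ m₃
    rw [Set.eq_univ_iff_forall]
    rintro (z | w)
    · have hz : z ∈ C₁ ∪ C₂ ∪ C₃ := by
        rw [hC]
        trivial
      rcases hz with (hz | hz) | hz
      · exact Or.inl (Or.inl (mem_inl.2 (hCD₁ hz)))
      · exact Or.inl (Or.inr (mem_inl.2 (hCD₂ hz)))
      · exact Or.inr (mem_inl.2 (hCD₃ hz))
    · have hw : Sum.inr w ∈ X₁ ∪ X₂ ∪ X₃ := by
        rw [hcov]
        trivial
      rcases hw with (hw | hw) | hw
      · exact Or.inl (Or.inl (mem_inr.2 hw))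
      · exact Or.inl (Or.inr (mem_inr.2 hw))
      · exact Or.inr (mem_inr.2 hw)
  · rintro (z | w)
    · refine ⟨hsing _, Set.univ, ?_⟩
      have e : (Sum.inr ⁻¹' ({Sum.inl z} : Set (Z' ⊕ W)) : Set W) = ∅ := by
        ext w
        simp
      rw [e, un_univ_empty]
      exact hZT
    · refine ⟨hsing _, ∅, ?_⟩
      have e : un (∅ : Set Z) (Sum.inr ⁻¹' ({Sum.inr w} : Set (Z' ⊕ W))) = {Sum.inr w} := by
        ext x
        rcases x with z | w'
        · rw [mem_inl]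
          simp
        · rw [mem_inr]
          simp
      rw [e]
      exact hT.sing _

end Pool.Agent.MPd439b2.Rep
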