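import Pool.Agent.Lib.MP_d439b2_co.Rep.Spec

/-!
# MP_d439b2_co, Rep: a layout excludes a tangle
-/

set_option autoImplicit false

namespace Pool.Agent.MPd439b2.Rep

open Pool.Agent.MPd439b2

private theorem cr_le_of_types {V : Type} [Finite V] (a1 : LK.S_A1) (G : SimpleGraph V) (X : Set V)
    (k : ℕ) (h : (Types G X).encard ≤ k) : LK.cr G X ≤ k := by
  have h1 : LK.cr G X ≤ (Types G X).ncard := by
    refine (a1 V G).2.2.2.2.2 X Xᶜ (Types G X) fun a ha => ?_
    have h2 : {b | b ∈ Xᶜ ∧ G.Adj a b} = G.neighborSet a \ X := by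
      ext b
      exact ⟨fun hb => ⟨hb.2, hb.1⟩, fun hb => ⟨hb.2, hb.1⟩⟩
    rw [h2]
    by_cases hne : (G.neighborSet a \ X).Nonempty
    · exact Or.inl ⟨hne, a, ha, rfl⟩
    · exact Or.inr fun b hb hab => hne ⟨b, hab, hb⟩
  refine h1.trans ?_
  rw [← (Set.toFinite (Types G X)).cast_ncard_eq] at h
  exact_mod_cast h

theorem tanL (a1 : LK.S_A1) : S_TanL := by
  intro V _ G c k T hkc hL hT
  have huniv : (Set.univ : Set V) ∉ T := fun h => hT.cov _ h _ h _ h (by simp)
  have key : ∀ X : Set V, Lay G k X → X ∈ T := by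
    intro X hX
    induction hX with
    | empty =>
      have h0 : LK.cr G (∅ : Set V) ≤ c := by
        refine ((a1 V G).2.2.2.1 ∅ (∅ᶜ)).trans ?_
        rw [Set.ncard_empty]
        exact Nat.zero_le c
      rcases hT.dec ∅ h0 with h | h
      · exact h
      · rw [Set.compl_empty] at h
        exact absurd h huniv
    | single v _ => exact hT.sing v
    | @union A B _ _ _ hty ihA ihB =>
      rcases hT.dec (A ∪ B) ((cr_le_of_types a1 G _ k hty).trans hkc) with h | h
      · exact h
      · exact absurd (Set.union_compl_self (A ∪ B)) (hT.cov A ihA B ihB _ h)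
  exact huniv (key _ hL)

end Pool.Agent.MPd439b2.Rep
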