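import Pool.Agent.Lib.MP_d439b2_co.Rep.Spec

/-!
# MP_d439b2_co, Rep: transport along an isomorphism
-/

set_option autoImplicit false

namespace Pool.Agent.MPd439b2.Rep

open Pool.Agent.MPd439b2

private theorem tr_conn {V V' : Type} {G : SimpleGraph V} {G' : SimpleGraph V'} (e : V ≃ V')
    (he : ∀ u v, G.Adj u v ↔ G'.Adj (e u) (e v)) {A : Set V} (h : Conn G A) :
    Conn G' (e '' A) := by
  refine ⟨h.1.image e, fun B hB hne hBA => ?_⟩
  have h1 : e ⁻¹' B ⊆ A := by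
    intro x hx
    obtain ⟨a, ha, hax⟩ := hB hx
    rwa [← e.injective hax]
  have h2 : (e ⁻¹' B).Nonempty := by
    obtain ⟨b, hb⟩ := hne
    exact ⟨e.symm b, by simpa using hb⟩
  have h3 : e ⁻¹' B ≠ A := by
    intro h3
    apply hBA
    rw [← h3, Set.image_preimage_eq B e.surjective]
  obtain ⟨b, hb, a, ha, hab⟩ := h.2 (e ⁻¹' B) h1 h2 h3
  exact ⟨e b, hb, e a, ⟨⟨a, ha.1, rfl⟩, ha.2⟩, (he b a).1 hab⟩

private theorem tr_tch {V V' : Type} {G : SimpleGraph V} {G' : SimpleGraph V'} (e : V ≃ V')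
    (he : ∀ u v, G.Adj u v ↔ G'.Adj (e u) (e v)) (A B : Set V) :
    Tch G' (e '' A) (e '' B) ↔ Tch G A B := by
  constructor
  · rintro ⟨_, ⟨a, ha, rfl⟩, _, ⟨b, hb, rfl⟩, hab⟩
    exact ⟨a, ha, b, hb, (he a b).2 hab⟩
  · rintro ⟨a, ha, b, hb, hab⟩
    exact ⟨e a, ⟨a, ha, rfl⟩, e b, ⟨b, hb, rfl⟩, (he a b).1 hab⟩

private theorem tr_ims {V V' : Type} {G : SimpleGraph V} {G' : SimpleGraph V'} (e : V ≃ V')
    (he : ∀ u v, G.Adj u v ↔ G'.Adj (e u) (e v)) {I : Type} (H : SimpleGraph I)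
    (h : IMS H G Set.univ) : IMS H G' Set.univ := by
  obtain ⟨B, -, h2, h3, h4⟩ := h
  refine ⟨fun w => e '' B w, fun w => Set.subset_univ _, fun w => tr_conn e he (h2 w), ?_, ?_⟩
  · intro w w' hw
    exact (Set.disjoint_image_iff e.injective).2 (h3 w w' hw)
  · intro w w' hw
    rw [tr_tch e he, h4 w w' hw]

private theorem tr_cr {V V' : Type} {G : SimpleGraph V} {G' : SimpleGraph V'}
    (e : V ≃ V') (he : ∀ u v, G.Adj u v ↔ G'.Adj (e u) (e v)) (X : Set V) :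
    LK.cr G' (e '' X) = LK.cr G X := by
  unfold LK.cr LK.rk
  set L := LinearEquiv.funCongrLeft (ZMod 2) (ZMod 2) e with hL
  have h1 : LK.row G Xᶜ '' X = L '' (LK.row G' (e '' X)ᶜ '' (e '' X)) := by
    have hrow : ∀ x, LK.row G Xᶜ x = L (LK.row G' (e '' X)ᶜ (e x)) := by
      intro x
      funext y
      have : L (LK.row G' (e '' X)ᶜ (e x)) y = LK.row G' (e '' X)ᶜ (e x) (e y) := rfl
      rw [this]
      have hy : (e y ∈ (e '' X)ᶜ) ↔ y ∈ Xᶜ := by
        rw [Set.mem_compl_iff, Set.mem_compl_iff, e.injective.mem_set_image]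
      unfold LK.row
      by_cases h : y ∈ Xᶜ ∧ G.Adj x y
      · rw [if_pos h, if_pos ⟨hy.2 h.1, (he x y).1 h.2⟩]
      · rw [if_neg h, if_neg (fun h' => h ⟨hy.1 h'.1, (he x y).2 h'.2⟩)]
    ext r
    constructor
    · rintro ⟨x, hx, rfl⟩
      exact ⟨_, ⟨e x, ⟨x, hx, rfl⟩, rfl⟩, (hrow x).symm⟩
    · rintro ⟨_, ⟨_, ⟨x, hx, rfl⟩, rfl⟩, rfl⟩
      exact ⟨x, hx, hrow x⟩
  rw [h1]
  have h2 : Submodule.span (ZMod 2) (L '' (LK.row G' (e '' X)ᶜ '' (e '' X))) =
      (Submodule.span (ZMod 2) (LK.row G' (e '' X)ᶜ '' (e '' X))).map (L : (V' → ZMod 2) →ₗ[ZMod 2] (V → ZMod 2)) :=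
    (Submodule.map_span (L : (V' → ZMod 2) →ₗ[ZMod 2] (V → ZMod 2)) _).symm
  rw [h2]
  exact (LinearEquiv.finrank_map_eq L _).symm

/-- **Trans** -/
theorem trans : S_Trans := by
  intro V V' _ _ G G' e he
  refine ⟨tr_cr e he, ?_, ?_⟩
  · intro c T hT
    refine ⟨?_, ?_, ?_, ?_⟩
    · intro X hX
      rw [← tr_cr e he]
      exact hT.ord _ hX
    · intro X hX
      rw [← tr_cr e he] at hX
      rcases hT.dec _ hX with h | h
      · exact Or.inl h
      · right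
        rw [← Set.image_compl_eq e.bijective] at h
        exact h
    · intro X hX Y hY U hU h
      apply hT.cov _ hX _ hY _ hU
      rw [← Set.image_union, ← Set.image_union, h, Set.image_univ, e.surjective.range_eq]
    · intro v
      have : e '' {v} ∈ T := by
        rw [Set.image_singleton]
        exact hT.sing _
      exact this
  · intro I H
    refine ⟨tr_ims e he H, tr_ims e.symm (fun u v => ?_) H⟩
    rw [he]
    simp

end Pool.Agent.MPd439b2.Rep
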