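import Pool.Agent.Lib.MP_d439b2_co.L4.A1
import Pool.Agent.Lib.MP_d439b2_co.L4.A2
import Pool.Agent.Lib.MP_d439b2_co.L4.A3
import Pool.Agent.Lib.MP_d439b2_co.L4.A4
import Pool.Agent.Lib.MP_d439b2_co.L4.A5
import Pool.Agent.Lib.MP_d439b2_co.L4.A6
import Pool.Agent.Lib.MP_d439b2_co.Rep.Rk
import Pool.Agent.Lib.MP_d439b2_co.Rep.Cap
import Pool.Agent.Lib.MP_d439b2_co.Rep.Mdl
import Pool.Agent.Lib.MP_d439b2_co.Rep.TanG
import Pool.Agent.Lib.MP_d439b2_co.Rep.Iso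
import Pool.Agent.Lib.MP_d439b2_co.Rep.Trans
import Pool.Agent.Lib.MP_d439b2_co.Rep.TanE
import Pool.Agent.Lib.MP_d439b2_co.Rep.TanL
import Pool.Agent.Lib.MP_d439b2_co.Rep.RepG
import Pool.Agent.Lib.MP_d439b2_co.Rep.HLG
import Pool.Agent.Lib.MP_d439b2_co.Rep.FSLoc
import Pool.Agent.Lib.MP_d439b2_co.Rep.FSFor

/-!
# MP_d439b2_co, Rep: assembly of the replacement theorem (helper10)

For the users: `hlG_holds`, `fsFr_holds`, `fsFor_holds`, `fsLoc_holds`, `fsAnd_holds`,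
`repG_holds`, and the special case `hl_holds` (`S_HL`).
-/

set_option autoImplicit false

namespace Pool.Agent.MPd439b2.Rep

open Pool.Agent.MPd439b2

theorem a2_holds : LK.S_A2 := LK.a2 LK.a1

theorem a6_holds : LK.S_A6 := LK.a6 a2_holds LK.a3 (LK.a5 LK.a4)

theorem tanG_holds : S_TanG := tanG rk (cap rk LK.a1) LK.a1 a2_holds

theorem repG_holds : S_RepG := repG tanG_holds (iso LK.a3) trans a2_holds

theorem hlG_holds : S_HLG := hlG repG_holds (tanE a2_holds a6_holds) (tanL LK.a1)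

theorem fsFr_holds : S_FSFr := fsFr mdl trans

theorem fsLoc_holds : S_FSLoc := fsLoc

theorem fsFor_holds : S_FSFor := fsFor fsLoc

theorem fsAnd_holds : S_FSAnd := fsAnd

theorem hl_holds : S_HL := fun I₁ I₂ _ _ H₁ H₂ h =>
  hlG_holds (fun _ G => Fr H₁ H₂ G) (fsFr_holds I₁ I₂ H₁ H₂).1 (fsFr_holds I₁ I₂ H₁ H₂).2 h

/-- the class `Fr H₁ H₂` together with finitely many forbidden induced subgraphs -/
theorem hlFrFor (I₁ I₂ : Type) [Finite I₁] [Finite I₂] (H₁ : SimpleGraph I₁) (H₂ : SimpleGraph I₂)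
    (ι : Type) [Finite ι] (s : ι → ℕ) (F : (i : ι) → SimpleGraph (Fin (s i)))
    (h : ∀ β : ℕ → ℕ, ∃ c₀ k : ℕ, ∀ (V : Type) [Finite V] (G : SimpleGraph V),
      (Fr H₁ H₂ G ∧ NoInd s F V G) → Link β c₀ G → Lay G k Set.univ) :
    ∃ k : ℕ, ∀ (V : Type) [Finite V] (G : SimpleGraph V), (Fr H₁ H₂ G ∧ NoInd s F V G) →
      Lay G k Set.univ :=
  hlG_holds _ ((fsAnd _ _).1 (fsFr_holds I₁ I₂ H₁ H₂).1 (fsFor_holds ι s F).1)
    ((fsAnd _ _).2 (fsFr_holds I₁ I₂ H₁ H₂).2 (fsFor_holds ι s F).2) h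

end Pool.Agent.MPd439b2.Rep
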