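import Pool.Agent.Lib.MP_d439b2_co.L4.Spec1

/-!
# MP_d439b2_co, Rep: the replacement theorem, definitions (helper10)

A side `Z` of a cut of bounded rank is replaced by a smaller labelled graph with the same profile.
`LK.rk`, `LK.cr` are the rank of the adjacency matrix and the cut-rank over the field with two elements.
-/

set_option autoImplicit false

namespace Pool.Agent.MPd439b2.Rep

open Pool.Agent.MPd439b2

variable {V Z W : Type} {t : ℕ}

/-- a tangle of order `c + 1` for the cut-rank: `T` = the small sets -/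
structure Tan (G : SimpleGraph V) (c : ℕ) (T : Set (Set V)) : Prop where
  ord : ∀ X ∈ T, LK.cr G X ≤ c
  dec : ∀ X : Set V, LK.cr G X ≤ c → X ∈ T ∨ Xᶜ ∈ T
  cov : ∀ X ∈ T, ∀ Y ∈ T, ∀ U ∈ T, X ∪ Y ∪ U ≠ Set.univ
  sing : ∀ v : V, {v} ∈ T

/-- the graph on `Z ⊕ W`: the vertex `z` is joined to all vertices of `A (l z)` -/
def glue (GZ : SimpleGraph Z) (GW : SimpleGraph W) (l : Z → Fin t) (A : Fin t → Set W) :
    SimpleGraph (Z ⊕ W) where
  Adj
    | Sum.inl z, Sum.inl z' => GZ.Adj z z'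
    | Sum.inl z, Sum.inr w => w ∈ A (l z)
    | Sum.inr w, Sum.inl z => w ∈ A (l z)
    | Sum.inr w, Sum.inr w' => GW.Adj w w'
  symm := ⟨fun u v h => by
    rcases u with u | u <;> rcases v with v | v
    · exact SimpleGraph.Adj.symm h
    · exact h
    · exact h
    · exact SimpleGraph.Adj.symm h⟩
  loopless := ⟨fun u h => by
    rcases u with u | u
    · exact GZ.loopless.irrefl u h
    · exact GW.loopless.irrefl u h⟩

/-- the union of `Y ⊆ Z` and `U ⊆ W` -/
def un (Y : Set Z) (U : Set W) : Set (Z ⊕ W) := Sum.inl '' Y ∪ Sum.inr '' U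

/-! ### states of a subset `Y` of `Z` -/

open Classical in
/-- `e_i ↦` the indicator of the vertices of label `i` outside `Y` -/
noncomputable def Ph (l : Z → Fin t) (Y : Set Z) : (Fin t → ZMod 2) →ₗ[ZMod 2] (Z → ZMod 2) where
  toFun c z := if z ∈ Y then 0 else c (l z)
  map_add' c d := by
    funext z
    by_cases h : z ∈ Y <;> simp [h]
  map_smul' a c := by
    funext z
    by_cases h : z ∈ Y <;> simp [h]

/-- the span of the pairs (label, inner row) of the vertices of `Y` -/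
noncomputable def RZ (GZ : SimpleGraph Z) (l : Z → Fin t) (Y : Set Z) :
    Submodule (ZMod 2) ((Fin t → ZMod 2) × (Z → ZMod 2)) :=
  Submodule.span (ZMod 2) ((fun z => (Pi.single (l z) 1, LK.row GZ Yᶜ z)) '' Y)

/-- the pairs `(e, c)` with `(e, Ph c)` in `RZ` -/
noncomputable def stS (GZ : SimpleGraph Z) (l : Z → Fin t) (Y : Set Z) :
    Submodule (ZMod 2) ((Fin t → ZMod 2) × (Fin t → ZMod 2)) :=
  (RZ GZ l Y).comap (LinearMap.prodMap LinearMap.id (Ph l Y))

noncomputable def stK (l : Z → Fin t) (Y : Set Z) : Submodule (ZMod 2) (Fin t → ZMod 2) :=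
  LinearMap.ker (Ph l Y)

/-- the rank of the inner rows modulo the range of `Ph` -/
noncomputable def stR (GZ : SimpleGraph Z) (l : Z → Fin t) (Y : Set Z) : ℕ :=
  Module.finrank (ZMod 2)
      ↥(Submodule.span (ZMod 2) (LK.row GZ Yᶜ '' Y) ⊔ LinearMap.range (Ph l Y)) -
    Module.finrank (ZMod 2) ↥(LinearMap.range (Ph l Y))

open Classical in
/-- the labels seen by the vertex `w` -/
noncomputable def cv (A : Fin t → Set W) (w : W) : Fin t → ZMod 2 := fun i => if w ∈ A i then 1 else 0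

open Classical in
/-- `e_i ↦` the indicator of `A i \ U` -/
noncomputable def al (A : Fin t → Set W) (U : Set W) : (Fin t → ZMod 2) →ₗ[ZMod 2] (W → ZMod 2) where
  toFun e w := if w ∈ U then 0 else ∑ i, e i * cv A w i
  map_add' e d := by
    funext w
    by_cases h : w ∈ U <;> simp [h, add_mul, Finset.sum_add_distrib]
  map_smul' a e := by
    funext w
    by_cases h : w ∈ U <;> simp [h, Finset.mul_sum, mul_assoc]

/-- the part of the cut-rank which depends on the context -/
noncomputable def gg (K : Submodule (ZMod 2) (Fin t → ZMod 2))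
    (S : Submodule (ZMod 2) ((Fin t → ZMod 2) × (Fin t → ZMod 2))) (GW : SimpleGraph W)
    (A : Fin t → Set W) (U : Set W) : ℕ :=
  let Q : Submodule (ZMod 2) ((Fin t → ZMod 2) × (W → ZMod 2)) :=
    Submodule.span (ZMod 2) ((fun w => (cv A w, LK.row GW Uᶜ w)) '' U) ⊔
      S.map (LinearMap.prod (LinearMap.snd (ZMod 2) (Fin t → ZMod 2) (Fin t → ZMod 2))
        ((al A U).comp (LinearMap.fst (ZMod 2) (Fin t → ZMod 2) (Fin t → ZMod 2))))
  Module.finrank (ZMod 2) ↥Q -
    Module.finrank (ZMod 2) ↥(Q ⊓ K.prod (⊥ : Submodule (ZMod 2) (W → ZMod 2)))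

open Classical in
/-- the state of `Y`, `none` if `stR` is at least `t` -/
noncomputable def cst (GZ : SimpleGraph Z) (l : Z → Fin t) (Y : Set Z) :
    Option (Submodule (ZMod 2) (Fin t → ZMod 2) ×
      Submodule (ZMod 2) ((Fin t → ZMod 2) × (Fin t → ZMod 2)) × Fin t) :=
  if h : stR GZ l Y < t then some (stK l Y, stS GZ l Y, ⟨stR GZ l Y, h⟩) else none

/-! ### profiles -/

/-- the label sets of the two parts of the splits of `C` without edges -/
def sp (GZ : SimpleGraph Z) (l : Z → Fin t) (C : Set Z) : Set (Set (Fin t) × Set (Fin t)) :=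
  {p | ∃ U ⊆ C, (∀ u ∈ U, ∀ v ∈ C \ U, ¬ GZ.Adj u v) ∧ p = (l '' U, l '' (C \ U))}

/-- the traces of the families of disjoint sets indexed by `I` -/
def proM (I : Type) (GZ : SimpleGraph Z) (l : Z → Fin t) :
    Set ((I → Set (Set (Fin t) × Set (Fin t))) × (I → I → Prop)) :=
  {τ | ∃ C : I → Set Z, (∀ w w', w ≠ w' → Disjoint (C w) (C w')) ∧
    τ = (fun w => sp GZ l (C w), fun w w' => Tch GZ (C w) (C w'))}

/-- the triples of states of the coverings of `Z` by three sets -/
def proT (GZ : SimpleGraph Z) (l : Z → Fin t) :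
    Set (Option (Submodule (ZMod 2) (Fin t → ZMod 2) ×
      Submodule (ZMod 2) ((Fin t → ZMod 2) × (Fin t → ZMod 2)) × Fin t) ×
    Option (Submodule (ZMod 2) (Fin t → ZMod 2) ×
      Submodule (ZMod 2) ((Fin t → ZMod 2) × (Fin t → ZMod 2)) × Fin t) ×
    Option (Submodule (ZMod 2) (Fin t → ZMod 2) ×
      Submodule (ZMod 2) ((Fin t → ZMod 2) × (Fin t → ZMod 2)) × Fin t)) :=
  {q | ∃ C₁ C₂ C₃ : Set Z, C₁ ∪ C₂ ∪ C₃ = Set.univ ∧ q = (cst GZ l C₁, cst GZ l C₂, cst GZ l C₃)}

/-- `G` has neither `H₁` nor `H₂` as an induced minor -/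
def Fr {I₁ I₂ : Type} (H₁ : SimpleGraph I₁) (H₂ : SimpleGraph I₂) (G : SimpleGraph V) : Prop :=
  ¬ IMS H₁ G Set.univ ∧ ¬ IMS H₂ G Set.univ

/-- every cut of rank `c ≤ c₀` has a side with at most `β c` vertices -/
def Link (β : ℕ → ℕ) (c₀ : ℕ) (G : SimpleGraph V) : Prop :=
  ∀ c ≤ c₀, ∀ X : Set V, LK.cr G X ≤ c → X.ncard ≤ β c ∨ Xᶜ.ncard ≤ β c

end Pool.Agent.MPd439b2.Rep
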