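import Pool.Agent.Lib.MP_d439b2_co.L4.A1
import Pool.Agent.Lib.MP_d439b2_co.W.RamC

/-!
# MP_d439b2_co, Rep/Pat3: many traces give a matching, a co-matching or a half graph (helper10)

`pat3`: for every `m` there is `N` such that if the vertices of `A` have more than `N` different traces on
`B` then there are `a i ∈ A`, `b i ∈ B` (`i < m`) with `a i ~ b j` iff `i = j`, or iff `i ≠ j`, or iff `i ≤ j`.
`rk3`: otherwise `rk D A B ≤ N`.
-/

set_option autoImplicit false

namespace Pool.Agent.MPd439b2.Rep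

open Pool.Agent.MPd439b2

variable {V : Type}

/-- `a i ∈ A`, `b i ∈ B`, and `a i ~ b j` iff `R i j` (`i, j < m`) -/
def BP (D : SimpleGraph V) (A B : Set V) (m : ℕ) (a b : ℕ → V) (R : ℕ → ℕ → Prop) : Prop :=
  (∀ i < m, a i ∈ A) ∧ (∀ i < m, b i ∈ B) ∧ ∀ i < m, ∀ j < m, (D.Adj (a i) (b j) ↔ R i j)

/-- one of the three patterns of size `m` -/
def Has3 (D : SimpleGraph V) (A B : Set V) (m : ℕ) : Prop :=
  ∃ a b, BP D A B m a b (fun i j => i = j) ∨ BP D A B m a b (fun i j => i ≠ j) ∨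
    BP D A B m a b (fun i j => i ≤ j)

/-- the traces on `B` of the vertices of `A` -/
def Tr (D : SimpleGraph V) (A B : Set V) : Set (Set V) :=
  {T | ∃ a ∈ A, T = {b | b ∈ B ∧ D.Adj a b}}

namespace Pat3Aux

/-- the trace of one vertex -/
def tr (D : SimpleGraph V) (B : Set V) (a : V) : Set V := {b | b ∈ B ∧ D.Adj a b}

/-- `k` steps of splitting a set with `2 ^ k` vertices with different traces -/
theorem split (D : SimpleGraph V) (B : Set V) : ∀ (k : ℕ) (S : Finset V),
    (∀ x ∈ S, ∀ y ∈ S, tr D B x = tr D B y → x = y) → 2 ^ k ≤ S.card →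
    ∃ (a b : ℕ → V) (ε : ℕ → Prop), (∀ i < k, a i ∈ S) ∧ (∀ i < k, b i ∈ B) ∧
      (∀ i < k, (D.Adj (a i) (b i) ↔ ¬ ε i)) ∧
      ∀ i j, i < j → j < k → (D.Adj (a j) (b i) ↔ ε i) := by
  classical
  intro k
  induction k with
  | zero =>
    intro S _ hS
    obtain ⟨x, -⟩ : S.Nonempty := by
      rw [← Finset.card_pos]
      exact hS
    exact ⟨fun _ => x, fun _ => x, fun _ => True, fun i hi => absurd hi (Nat.not_lt_zero i),
      fun i hi => absurd hi (Nat.not_lt_zero i), fun i hi => absurd hi (Nat.not_lt_zero i),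
      fun i j _ hj => absurd hj (Nat.not_lt_zero j)⟩
  | succ k ih =>
    intro S hS hcard
    have h2 : 1 < S.card := by
      have : 2 ≤ 2 ^ (k + 1) := by
        have h1 : 1 ≤ 2 ^ k := Nat.one_le_two_pow
        rw [pow_succ]
        omega
      omega
    obtain ⟨x, hx, y, hy, hxy⟩ := Finset.one_lt_card.mp h2
    have hne : tr D B x ≠ tr D B y := fun h => hxy (hS x hx y hy h)
    obtain ⟨b, hb⟩ : ∃ b, ¬ (b ∈ tr D B x ↔ b ∈ tr D B y) := by
      by_contra hcon
      push Not at hcon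
      exact hne (Set.ext hcon)
    have hbB : b ∈ B := by
      by_contra hbB
      exact hb (iff_of_false (fun h => hbB h.1) (fun h => hbB h.1))
    have hb' : ¬ (D.Adj x b ↔ D.Adj y b) := fun h => hb
      ⟨fun g => ⟨hbB, h.mp g.2⟩, fun g => ⟨hbB, h.mpr g.2⟩⟩
    -- the two parts
    let P : Finset V := S.filter fun v => D.Adj v b
    let Q : Finset V := S.filter fun v => ¬ D.Adj v b
    have hPQ : P.card + Q.card = S.card := Finset.card_filter_add_card_filter_not _
    have hPne : P.Nonempty := by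
      by_cases h : D.Adj x b
      · exact ⟨x, Finset.mem_filter.mpr ⟨hx, h⟩⟩
      · exact ⟨y, Finset.mem_filter.mpr ⟨hy, by
          by_contra h3
          exact hb' (iff_of_false h h3)⟩⟩
    have hQne : Q.Nonempty := by
      by_cases h : D.Adj x b
      · exact ⟨y, Finset.mem_filter.mpr ⟨hy, fun h3 => hb' (iff_of_true h h3)⟩⟩
      · exact ⟨x, Finset.mem_filter.mpr ⟨hx, h⟩⟩
    -- one step
    have step : ∀ (e : Prop) (S' : Finset V), S' ⊆ S → 2 ^ k ≤ S'.card →
        (∀ v ∈ S', (D.Adj v b ↔ e)) → (∃ w ∈ S, ¬ (D.Adj w b ↔ e)) →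
        ∃ (a b : ℕ → V) (ε : ℕ → Prop), (∀ i < k + 1, a i ∈ S) ∧ (∀ i < k + 1, b i ∈ B) ∧
          (∀ i < k + 1, (D.Adj (a i) (b i) ↔ ¬ ε i)) ∧
          ∀ i j, i < j → j < k + 1 → (D.Adj (a j) (b i) ↔ ε i) := by
      rintro e S' hS' hc hv ⟨w, hw, hwe⟩
      obtain ⟨a', b', ε', h1, h3, h4, h5⟩ := ih S' (fun x hx y hy h => hS x (hS' hx) y (hS' hy) h) hc
      refine ⟨fun i => Nat.casesOn i w a', fun i => Nat.casesOn i b b',
        fun i => Nat.casesOn i e ε', ?_, ?_, ?_, ?_⟩
      · rintro (_ | i) hi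
        · exact hw
        · exact hS' (h1 i (by omega))
      · rintro (_ | i) hi
        · exact hbB
        · exact h3 i (by omega)
      · rintro (_ | i) hi
        · show D.Adj w b ↔ ¬ e
          by_cases he : e
          · exact iff_of_false (fun h => hwe (iff_of_true h he)) (fun h => h he)
          · refine iff_of_true ?_ he
            by_contra h
            exact hwe (iff_of_false h he)
        · exact h4 i (by omega)
      · rintro (_ | i) (_ | j) hij hj
        · exact absurd hij (lt_irrefl _)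
        · exact hv _ (h1 j (by omega))
        · exact absurd hij (Nat.not_lt_zero _)
        · exact h5 i j (by omega) (by omega)
    have hpow : 2 ^ (k + 1) = 2 ^ k + 2 ^ k := by rw [pow_succ]; omega
    rcases Nat.lt_or_ge P.card (2 ^ k) with hP | hP
    · refine step False Q (Finset.filter_subset _ _) (by omega) ?_ ?_
      · intro v hv
        exact iff_of_false (Finset.mem_filter.mp hv).2 (fun h => h)
      · obtain ⟨w, hw⟩ := hPne
        exact ⟨w, (Finset.mem_filter.mp hw).1, fun h => h.mp (Finset.mem_filter.mp hw).2⟩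
    · refine step True P (Finset.filter_subset _ _) hP ?_ ?_
      · intro v hv
        exact iff_of_true (Finset.mem_filter.mp hv).2 trivial
      · obtain ⟨w, hw⟩ := hQne
        exact ⟨w, (Finset.mem_filter.mp hw).1, fun h => (Finset.mem_filter.mp hw).2 (h.mpr trivial)⟩

end Pat3Aux

open Pat3Aux in
theorem pat3 (m : ℕ) : ∃ N : ℕ, ∀ (V : Type) (D : SimpleGraph V) (A B : Set V),
    ¬ Has3 D A B m → (Tr D A B).encard ≤ N := by
  classical
  obtain ⟨k, hk⟩ := W.ramC (Prop × Prop) (m + 2)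
  refine ⟨2 ^ k, fun V D A B hno => ?_⟩
  by_contra hcard
  push Not at hcard
  -- choose representatives
  have hrep : ∀ T ∈ Tr D A B, ∃ a ∈ A, tr D B a = T := by
    rintro T ⟨a, ha, rfl⟩
    exact ⟨a, ha, rfl⟩
  obtain ⟨𝒯, h𝒯, hcard𝒯⟩ : ∃ 𝒯 : Finset (Set V), (𝒯 : Set (Set V)) ⊆ Tr D A B ∧ 𝒯.card = 2 ^ k := by
    obtain ⟨t, ht1, ht2⟩ := Set.exists_subset_encard_eq (le_of_lt hcard)
    have hfin : t.Finite := Set.finite_of_encard_eq_coe ht2
    refine ⟨hfin.toFinset, by simpa using ht1, ?_⟩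
    have h1 := hfin.encard_eq_coe_toFinset_card
    rw [ht2] at h1
    exact_mod_cast h1.symm
  have hVne : Nonempty V := by
    have h1 : 0 < 𝒯.card := by
      rw [hcard𝒯]
      exact Nat.two_pow_pos k
    obtain ⟨T, hT⟩ := Finset.card_pos.mp h1
    obtain ⟨a, -, -⟩ := h𝒯 hT
    exact ⟨a⟩
  choose! f hfA hf using hrep
  let S : Finset V := 𝒯.image f
  have hfinj : Set.InjOn f (𝒯 : Set (Set V)) := by
    intro T hT T' hT' h
    rw [← hf T (h𝒯 hT), ← hf T' (h𝒯 hT'), h]
  have hScard : S.card = 2 ^ k := by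
    rw [Finset.card_image_of_injOn hfinj, hcard𝒯]
  have hSA : ∀ x ∈ S, x ∈ A := by
    intro x hx
    obtain ⟨T, hT, rfl⟩ := Finset.mem_image.mp hx
    exact hfA T (h𝒯 hT)
  have hStr : ∀ x ∈ S, ∀ y ∈ S, tr D B x = tr D B y → x = y := by
    intro x hx y hy h
    obtain ⟨T, hT, rfl⟩ := Finset.mem_image.mp hx
    obtain ⟨T', hT', rfl⟩ := Finset.mem_image.mp hy
    rw [hf T (h𝒯 hT), hf T' (h𝒯 hT')] at h
    rw [h]
  obtain ⟨a, b, ε, h1, h2, h3, h4⟩ := split D B k S hStr (le_of_eq hScard.symm)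
  obtain ⟨σ, c, hσ1, hσ2, hσ3⟩ := hk (fun i j => (ε i, D.Adj (a i) (b j)))
  have hlt : ∀ i < m + 2, σ i < k := hσ2
  have hε : ∀ i, i + 1 < m + 2 → (ε (σ i) ↔ c.1) := by
    intro i hi
    have := hσ3 i (i + 1) (by omega) hi
    exact (congrArg Prod.fst this).to_iff
  have hδ : ∀ i j, i < j → j < m + 2 → (D.Adj (a (σ i)) (b (σ j)) ↔ c.2) := by
    intro i j hij hj
    exact (congrArg Prod.snd (hσ3 i j hij hj)).to_iff
  have hd : ∀ i, i + 1 < m + 2 → (D.Adj (a (σ i)) (b (σ i)) ↔ ¬ c.1) := by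
    intro i hi
    rw [h3 _ (hlt i (by omega)), hε i hi]
  have hlow : ∀ i j, i < j → j < m + 2 → (D.Adj (a (σ j)) (b (σ i)) ↔ c.1) := by
    intro i j hij hj
    rw [h4 _ _ (hσ1 i j hij hj) (hlt j hj), hε i (by omega)]
  apply hno
  by_cases c1 : c.1 <;> by_cases c2 : c.2
  · -- co-matching
    refine ⟨fun i => a (σ i), fun i => b (σ i), Or.inr (Or.inl ⟨fun i hi => hSA _ (h1 _ (hlt i
      (by omega))), fun i hi => h2 _ (hlt i (by omega)), fun i hi j hj => ?_⟩)⟩
    rcases lt_trichotomy i j with h | h | h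
    · exact (hδ i j h (by omega)).trans (iff_of_true c2 (by omega))
    · subst h
      exact (hd i (by omega)).trans (iff_of_false (fun h => h c1) (fun h => h rfl))
    · exact (hlow j i h (by omega)).trans (iff_of_true c1 (by omega))
  · -- `a j ~ b i` iff `i < j`
    refine ⟨fun i => a (σ (m - i)), fun i => b (σ (m - 1 - i)), Or.inr (Or.inr ⟨fun i hi => hSA _
      (h1 _ (hlt _ (by omega))), fun i hi => h2 _ (hlt _ (by omega)), fun i hi j hj => ?_⟩)⟩
    rcases lt_trichotomy (m - i) (m - 1 - j) with h | h | h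
    · exact (hδ _ _ h (by omega)).trans (iff_of_false c2 (by omega))
    · show D.Adj (a (σ (m - i))) (b (σ (m - 1 - j))) ↔ i ≤ j
      rw [h]
      exact (hd _ (by omega)).trans (iff_of_false (fun h => h c1) (by omega))
    · exact (hlow _ _ h (by omega)).trans (iff_of_true c1 (by omega))
  · -- `a j ~ b i` iff `j ≤ i`
    refine ⟨fun i => a (σ i), fun i => b (σ i), Or.inr (Or.inr ⟨fun i hi => hSA _ (h1 _ (hlt i
      (by omega))), fun i hi => h2 _ (hlt i (by omega)), fun i hi j hj => ?_⟩)⟩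
    rcases lt_trichotomy i j with h | h | h
    · exact (hδ i j h (by omega)).trans (iff_of_true c2 (by omega))
    · subst h
      exact (hd i (by omega)).trans (iff_of_true c1 (by omega))
    · exact (hlow j i h (by omega)).trans (iff_of_false c1 (by omega))
  · -- matching
    refine ⟨fun i => a (σ i), fun i => b (σ i), Or.inl ⟨fun i hi => hSA _ (h1 _ (hlt i
      (by omega))), fun i hi => h2 _ (hlt i (by omega)), fun i hi j hj => ?_⟩⟩
    rcases lt_trichotomy i j with h | h | h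
    · exact (hδ i j h (by omega)).trans (iff_of_false c2 (by omega))
    · subst h
      exact (hd i (by omega)).trans (iff_of_true c1 rfl)
    · exact (hlow j i h (by omega)).trans (iff_of_false c1 (by omega))

/-- no pattern of size `m` between `A` and `B`: bounded rank -/
theorem rk3 (m : ℕ) : ∃ N : ℕ, ∀ (V : Type) [Finite V] (D : SimpleGraph V) (A B : Set V),
    ¬ Has3 D A B m → LK.rk D A B ≤ N := by
  obtain ⟨N, hN⟩ := pat3 m
  refine ⟨N, fun V _ D A B h => ?_⟩
  obtain ⟨-, -, -, -, -, b6⟩ := LK.a1 V D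
  have h1 := b6 A B (Tr D A B) (fun a ha => Or.inl ⟨a, ha, rfl⟩)
  refine h1.trans ?_
  have h2 := hN V D A B h
  have hfin : (Tr D A B).Finite := Set.finite_of_encard_le_coe h2
  rw [← hfin.cast_ncard_eq] at h2
  exact_mod_cast h2

end Pool.Agent.MPd439b2.Rep
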