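import Pool.Agent.Lib.MP_d439b2_co.Rep.FinalG
import Pool.Agent.Lib.MP_d439b2_co.Rep.Pat3

/-!
# MP_d439b2_co, Rep/Cut: calculus of the rank between two sets (helper10)

Lemmas for the computation of explicit cuts: `rk_blocks`, `rk_anti`, `rk_row`, `rk_col`, `rk_comp`,
`rk_del`, `cr_types`, and `link_false`.
-/

set_option autoImplicit false

namespace Pool.Agent.MPd439b2.Rep

open Pool.Agent.MPd439b2

variable {V : Type} [Finite V]

theorem rk_symm (G : SimpleGraph V) (A B : Set V) : LK.rk G A B = LK.rk G B A :=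
  (LK.a1 V G).1 A B

theorem rk_mono (G : SimpleGraph V) {A A' B B' : Set V} (hA : A ⊆ A') (hB : B ⊆ B') :
    LK.rk G A B ≤ LK.rk G A' B' :=
  (LK.a1 V G).2.1 A A' B B' hA hB

theorem rk_union (G : SimpleGraph V) (A A' B : Set V) :
    LK.rk G (A ∪ A') B ≤ LK.rk G A B + LK.rk G A' B :=
  (LK.a1 V G).2.2.1 A A' B

theorem rk_union_right (G : SimpleGraph V) (A B B' : Set V) :
    LK.rk G A (B ∪ B') ≤ LK.rk G A B + LK.rk G A B' := by
  rw [rk_symm G A, rk_symm G A B, rk_symm G A B']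
  exact rk_union G B B' A

theorem rk_card (G : SimpleGraph V) (A B : Set V) : LK.rk G A B ≤ A.ncard :=
  (LK.a1 V G).2.2.2.1 A B

theorem rk_card_right (G : SimpleGraph V) (A B : Set V) : LK.rk G A B ≤ B.ncard := by
  rw [rk_symm]
  exact rk_card G B A

/-- no edges -/
theorem rk_anti (G : SimpleGraph V) {A B : Set V} (h : ∀ a ∈ A, ∀ b ∈ B, ¬ G.Adj a b) :
    LK.rk G A B = 0 := by
  have h1 := (LK.a1 V G).2.2.2.2.2 A B ∅ (fun a ha => Or.inr (h a ha))
  rw [Set.ncard_empty] at h1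
  omega

/-- every row is constant -/
theorem rk_row (G : SimpleGraph V) {A B : Set V}
    (h : ∀ a ∈ A, (∀ b ∈ B, G.Adj a b) ∨ ∀ b ∈ B, ¬ G.Adj a b) : LK.rk G A B ≤ 1 :=
  (LK.a1 V G).2.2.2.2.1 A B Set.univ (fun a ha => (h a ha).imp_left
    fun h1 b hb => iff_of_true (h1 b hb) trivial)

/-- every column is constant -/
theorem rk_col (G : SimpleGraph V) {A B : Set V}
    (h : ∀ b ∈ B, (∀ a ∈ A, G.Adj a b) ∨ ∀ a ∈ A, ¬ G.Adj a b) : LK.rk G A B ≤ 1 := by
  rw [rk_symm]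
  exact rk_row G fun b hb => (h b hb).imp (fun h1 a ha => (h1 a ha).symm)
    fun h1 a ha hab => h1 a ha hab.symm

/-- complete -/
theorem rk_comp (G : SimpleGraph V) {A B : Set V} (h : ∀ a ∈ A, ∀ b ∈ B, G.Adj a b) :
    LK.rk G A B ≤ 1 :=
  rk_row G fun a ha => Or.inl (h a ha)

/-- every row is zero or the trace of `T` -/
theorem rk_one (G : SimpleGraph V) {A B : Set V} (T : Set V)
    (h : ∀ a ∈ A, (∀ b ∈ B, (G.Adj a b ↔ b ∈ T)) ∨ ∀ b ∈ B, ¬ G.Adj a b) : LK.rk G A B ≤ 1 :=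
  (LK.a1 V G).2.2.2.2.1 A B T h

/-- the rank is at most the number of the traces -/
theorem rk_tr (G : SimpleGraph V) {A B : Set V} {n : ℕ} (h : (Tr G A B).encard ≤ n) :
    LK.rk G A B ≤ n := by
  have h1 := (LK.a1 V G).2.2.2.2.2 A B (Tr G A B) (fun a ha => Or.inl ⟨a, ha, rfl⟩)
  refine h1.trans ?_
  have hfin : (Tr G A B).Finite := Set.finite_of_encard_le_coe h
  rw [← hfin.cast_ncard_eq] at h
  exact_mod_cast h

theorem rk_iUnion (G : SimpleGraph V) (B : Set V) :
    ∀ (p : ℕ) (P : Fin p → Set V), LK.rk G (⋃ i, P i) B ≤ ∑ i, LK.rk G (P i) B := by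
  intro p
  induction p with
  | zero =>
    intro P
    rw [Set.iUnion_of_empty]
    have h1 := rk_card G ∅ B
    rw [Set.ncard_empty] at h1
    omega
  | succ p ih =>
    intro P
    have h1 : (⋃ i, P i) = P 0 ∪ ⋃ i : Fin p, P i.succ := by
      ext x
      simp only [Set.mem_iUnion, Set.mem_union]
      exact Fin.exists_fin_succ
    rw [h1, Fin.sum_univ_succ]
    exact (rk_union G _ _ B).trans (Nat.add_le_add_left (ih _) _)

/-- **Blocks.** -/
theorem rk_blocks (G : SimpleGraph V) {A B : Set V} {p q : ℕ} (P : Fin p → Set V)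
    (Q : Fin q → Set V) (r : Fin p → Fin q → ℕ) (hA : A ⊆ ⋃ i, P i) (hB : B ⊆ ⋃ j, Q j)
    (h : ∀ i j, LK.rk G (P i) (Q j) ≤ r i j) : LK.rk G A B ≤ ∑ i, ∑ j, r i j := by
  refine (rk_mono G hA hB).trans ((rk_iUnion G _ p P).trans ?_)
  refine Finset.sum_le_sum fun i _ => ?_
  rw [rk_symm]
  refine (rk_iUnion G _ q Q).trans (Finset.sum_le_sum fun j _ => ?_)
  rw [rk_symm]
  exact h i j

/-- deleting vertices -/
theorem rk_del (G : SimpleGraph V) (A B S : Set V) :
    LK.rk G A B ≤ LK.rk G (A \ S) (B \ S) + 2 * S.ncard := by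
  have h1 : LK.rk G A B ≤ LK.rk G (A \ S) B + S.ncard := by
    refine le_trans (rk_mono G (A' := (A \ S) ∪ S) (fun x hx => ?_) (Set.Subset.refl B)) ?_
    · by_cases h : x ∈ S
      · exact Or.inr h
      · exact Or.inl ⟨hx, h⟩
    · exact (rk_union G _ _ B).trans (Nat.add_le_add_left (rk_card G S B) _)
  have h2 : LK.rk G (A \ S) B ≤ LK.rk G (A \ S) (B \ S) + S.ncard := by
    refine le_trans (rk_mono G (B' := (B \ S) ∪ S) (Set.Subset.refl _) (fun x hx => ?_)) ?_
    · by_cases h : x ∈ S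
      · exact Or.inr h
      · exact Or.inl ⟨hx, h⟩
    · exact (rk_union_right G _ _ _).trans (Nat.add_le_add_left (rk_card_right G _ S) _)
  omega

theorem cr_compl (G : SimpleGraph V) (X : Set V) : LK.cr G Xᶜ = LK.cr G X := by
  unfold LK.cr
  rw [compl_compl]
  exact rk_symm G Xᶜ X

/-- few types -/
theorem cr_types (G : SimpleGraph V) {X : Set V} {n : ℕ} (h : (Types G X).encard ≤ n) :
    LK.cr G X ≤ n := by
  have h1 := (LK.a1 V G).2.2.2.2.2 X Xᶜ (Types G X) (fun a ha => by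
    by_cases h2 : ∃ b ∈ Xᶜ, G.Adj a b
    · obtain ⟨b, hb, hab⟩ := h2
      left
      refine ⟨⟨b, hb, hab⟩, a, ha, ?_⟩
      ext v
      exact and_comm
    · right
      push Not at h2
      exact h2)
  refine h1.trans ?_
  have hfin : (Types G X).Finite := Set.finite_of_encard_le_coe h
  rw [← hfin.cast_ncard_eq] at h
  exact_mod_cast h

omit [Finite V] in
/-- the way in which `Link` is used -/
theorem link_false {β : ℕ → ℕ} {c₀ : ℕ} {G : SimpleGraph V} (h : Link β c₀ G) {c : ℕ} (hc : c ≤ c₀)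
    {X : Set V} (hX : LK.cr G X ≤ c) (h1 : β c < X.ncard) (h2 : β c < Xᶜ.ncard) : False := by
  rcases h c hc X hX with h3 | h3 <;> omega

/-- a set with a balanced cut of bounded rank: only boundedly many vertices of `S` are outside or inside -/
theorem link_side {β : ℕ → ℕ} {c₀ : ℕ} {G : SimpleGraph V} (h : Link β c₀ G) {c : ℕ} (hc : c ≤ c₀)
    {X : Set V} (hX : LK.cr G X ≤ c) (S : Set V) : (S ∩ X).ncard ≤ β c ∨ (S \ X).ncard ≤ β c := by
  rcases h c hc X hX with h3 | h3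
  · exact Or.inl ((Set.ncard_le_ncard Set.inter_subset_right (Set.toFinite _)).trans h3)
  · exact Or.inr ((Set.ncard_le_ncard (fun x hx => hx.2) (Set.toFinite _)).trans h3)

end Pool.Agent.MPd439b2.Rep
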