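import Pool.Agent.Lib.MP_d439b2_co.Rep.FinalG
import Pool.Agent.Lib.MP_d439b2_co.Rep.Cut
import Pool.Agent.Lib.MP_d439b2_co.X2.SpecA
import Pool.Agent.Lib.MP_d439b2_co.HC.SpecD
import Pool.Agent.Lib.MP_d439b2_co.W.RamC
import Pool.Agent.Lib.MP_d439b2_co.W.CoM
import Pool.Agent.Lib.MP_d439b2_co.F9.SpecI
import Pool.Agent.Lib.MP_d439b2_co.B.FD

/-!
# MP_d439b2_co, Rep/RowX: the interface for the pairs `(H, co(P_3 + t P_2))` (helper10)

`H` and `J` are arbitrary finite graphs in the general statements.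

* `rowX`: it is enough to bound the layouts of the linked graphs (`Link β c₀ G`).
* `TC H J` (Theorem C): no large matching and no large co-matching patterns, so bounded layouts.
* `SOne H J` (S1): linked graphs have no large matching and no large co-matching patterns.
* `rowXS : TC H J → SOne H J → HC.BL H J`.
* `TP`: typed patterns; `Kill H J s t e`: there are no large patterns of the type `(s, t, e)` in the linked graphs;
  `KillMod H J s' t' e' s t e`: the same if there are no large patterns of the type `(s', t', e')`;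
  `sOne_of`: `SOne` from `Kill` for all types.
* `killJ`, `killR`: for `J = co(P_3 + 4 P_2)` there are no patterns of the types `(true, true, false)` and
  `(false, false, true)`.
-/

set_option autoImplicit false

namespace Pool.Agent.MPd439b2.Rep

open Pool.Agent.MPd439b2 Pool.Agent.MPd439b2.W

/-- the condition becomes stronger if `c₀` grows -/
theorem link_mono {V : Type} {G : SimpleGraph V} {β : ℕ → ℕ} {c₀ c₁ : ℕ} (hc : c₀ ≤ c₁)
    (h : Link β c₁ G) : Link β c₀ G := fun c h1 X hX => h c (h1.trans hc) X hX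

section general

variable {I I' : Type} (H : SimpleGraph I) (J : SimpleGraph I')

/-- **Theorem C**: without large matching and co-matching patterns the layouts are bounded -/
def TC : Prop := ∀ m : ℕ, ∃ k : ℕ, ∀ (V : Type) [Finite V] (G : SimpleGraph V), Fr H J G →
  ¬ X2.MatP G m → ¬ X2.ComP G m → Lay G k Set.univ

/-- **(S1)**: the linked graphs have no large matching and co-matching patterns -/
def SOne : Prop := ∀ β : ℕ → ℕ, ∃ c₀ m : ℕ, ∀ (V : Type) [Finite V] (G : SimpleGraph V), Fr H J G →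
  Link β c₀ G → ¬ X2.MatP G m ∧ ¬ X2.ComP G m

/-- It is enough to bound the layouts of the linked graphs. -/
theorem rowX [Finite I] [Finite I'] (h : ∀ β : ℕ → ℕ, ∃ c₀ k : ℕ, ∀ (V : Type) [Finite V]
      (G : SimpleGraph V), Fr H J G → Link β c₀ G → Lay G k Set.univ) : HC.BL H J := by
  obtain ⟨k, hk⟩ := hl_holds I I' H J h
  exact ⟨k, fun V _ G h1 h2 => hk V G ⟨h1, h2⟩⟩

/-- the assembly of Theorem C and (S1) -/
theorem rowXS [Finite I] [Finite I'] (tc : TC H J) (s1 : SOne H J) : HC.BL H J := by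
  refine rowX H J fun β => ?_
  obtain ⟨c₀, m, hm⟩ := s1 β
  obtain ⟨k, hk⟩ := tc m
  exact ⟨c₀, k, fun V _ G hF hL => hk V G hF (hm V G hF hL).1 (hm V G hF hL).2⟩

/-- **Typed patterns**: `a` is a clique (`s = true`) or stable, `b` is a clique (`t = true`) or stable; `a i` and
`b j` are adjacent iff `i = j` (`e = false`) resp. iff `i ≠ j` (`e = true`) -/
structure TP {V : Type} (G : SimpleGraph V) (m : ℕ) (s t e : Bool) (a b : ℕ → V) : Prop where
  dis : ∀ i < m, ∀ j < m, a i ≠ b j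
  ia : ∀ i < m, ∀ j < m, i ≠ j → a i ≠ a j
  ib : ∀ i < m, ∀ j < m, i ≠ j → b i ≠ b j
  aa : ∀ i < m, ∀ j < m, i ≠ j → (G.Adj (a i) (a j) ↔ s = true)
  bb : ∀ i < m, ∀ j < m, i ≠ j → (G.Adj (b i) (b j) ↔ t = true)
  ab : ∀ i < m, ∀ j < m, (G.Adj (a i) (b j) ↔ (i = j ↔ e = false))

variable {H J}

namespace TP

variable {V : Type} {G : SimpleGraph V} {m : ℕ} {s t e : Bool} {a b : ℕ → V}

theorem mono {m' : ℕ} (hm : m' ≤ m) (h : TP G m s t e a b) : TP G m' s t e a b where
  dis i hi j hj := h.dis i (hi.trans_le hm) j (hj.trans_le hm)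
  ia i hi j hj := h.ia i (hi.trans_le hm) j (hj.trans_le hm)
  ib i hi j hj := h.ib i (hi.trans_le hm) j (hj.trans_le hm)
  aa i hi j hj := h.aa i (hi.trans_le hm) j (hj.trans_le hm)
  bb i hi j hj := h.bb i (hi.trans_le hm) j (hj.trans_le hm)
  ab i hi j hj := h.ab i (hi.trans_le hm) j (hj.trans_le hm)

theorem swap (h : TP G m s t e a b) : TP G m t s e b a where
  dis i hi j hj := (h.dis j hj i hi).symm
  ia := h.ib
  ib := h.ia
  aa := h.bb
  bb := h.aa
  ab i hi j hj := by
    rw [SimpleGraph.adj_comm, h.ab j hj i hi, eq_comm (a := j)]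

/-- a pattern on a subsequence -/
theorem comp {m' : ℕ} (σ : ℕ → ℕ) (hσ : ∀ k < m', σ k < m) (hi : ∀ k < m', ∀ l < m', σ k = σ l → k = l)
    (h : TP G m s t e a b) : TP G m' s t e (fun k => a (σ k)) (fun k => b (σ k)) where
  dis i hi' j hj := h.dis _ (hσ i hi') _ (hσ j hj)
  ia i hi' j hj hij := h.ia _ (hσ i hi') _ (hσ j hj) fun h' => hij (hi i hi' j hj h')
  ib i hi' j hj hij := h.ib _ (hσ i hi') _ (hσ j hj) fun h' => hij (hi i hi' j hj h')
  aa i hi' j hj hij := h.aa _ (hσ i hi') _ (hσ j hj) fun h' => hij (hi i hi' j hj h')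
  bb i hi' j hj hij := h.bb _ (hσ i hi') _ (hσ j hj) fun h' => hij (hi i hi' j hj h')
  ab i hi' j hj := by
    rw [h.ab _ (hσ i hi') _ (hσ j hj)]
    constructor
    · intro h'
      rw [← h']
      exact ⟨fun hij => by rw [hij], hi i hi' j hj⟩
    · intro h'
      rw [← h']
      exact ⟨hi i hi' j hj, fun hij => by rw [hij]⟩

end TP

/-- no pattern of the type `(s, t, e)` of size `n` -/
def NoTP {V : Type} (G : SimpleGraph V) (n : ℕ) (s t e : Bool) : Prop := ∀ a b, ¬ TP G n s t e a b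

theorem NoTP.mono {V : Type} {G : SimpleGraph V} {n n' : ℕ} {s t e : Bool} (hn : n ≤ n')
    (h : NoTP G n s t e) : NoTP G n' s t e := fun a b h' => h a b (h'.mono hn)

theorem NoTP.swap {V : Type} {G : SimpleGraph V} {n : ℕ} {s t e : Bool}
    (h : NoTP G n s t e) : NoTP G n t s e := fun a b h' => h b a h'.swap

/-- Ramsey: a large pattern contains a typed one -/
theorem typed (m : ℕ) : ∃ N : ℕ, ∀ (V : Type) (G : SimpleGraph V) (e : Bool) (a b : ℕ → V),
    (∀ i < N, ∀ j < N, a i ≠ b j ∧ (i ≠ j → a i ≠ a j ∧ b i ≠ b j) ∧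
      (G.Adj (a i) (b j) ↔ (i = j ↔ e = false))) →
    ∃ (s t : Bool) (a' b' : ℕ → V), TP G m s t e a' b' := by
  classical
  obtain ⟨N, hN⟩ := ramC (Bool × Bool) m
  refine ⟨N, fun V G e a b h => ?_⟩
  obtain ⟨σ, c, h1, h2, h3⟩ := hN fun i j => (decide (G.Adj (a i) (a j)), decide (G.Adj (b i) (b j)))
  have hinj : ∀ k < m, ∀ l < m, k ≠ l → σ k ≠ σ l := by
    intro k hk l hl hkl
    rcases lt_or_gt_of_ne hkl with h' | h'
    · exact (h1 k l h' hl).ne
    · exact (h1 l k h' hk).ne'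
  have haa : ∀ k l, k < l → l < m → (G.Adj (a (σ k)) (a (σ l)) ↔ c.1 = true) := by
    intro k l hkl hl
    rw [← h3 k l hkl hl]
    exact (decide_eq_true_iff).symm
  have hbb : ∀ k l, k < l → l < m → (G.Adj (b (σ k)) (b (σ l)) ↔ c.2 = true) := by
    intro k l hkl hl
    rw [← h3 k l hkl hl]
    exact (decide_eq_true_iff).symm
  refine ⟨c.1, c.2, fun k => a (σ k), fun k => b (σ k), ?_, ?_, ?_, ?_, ?_, ?_⟩
  · exact fun i hi j hj => (h _ (h2 i hi) _ (h2 j hj)).1
  · exact fun i hi j hj hij => ((h _ (h2 i hi) _ (h2 j hj)).2.1 (hinj i hi j hj hij)).1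
  · exact fun i hi j hj hij => ((h _ (h2 i hi) _ (h2 j hj)).2.1 (hinj i hi j hj hij)).2
  · intro i hi j hj hij
    rcases lt_or_gt_of_ne hij with h' | h'
    · exact haa i j h' hj
    · rw [SimpleGraph.adj_comm]
      exact haa j i h' hi
  · intro i hi j hj hij
    rcases lt_or_gt_of_ne hij with h' | h'
    · exact hbb i j h' hj
    · rw [SimpleGraph.adj_comm]
      exact hbb j i h' hi
  · intro i hi j hj
    show G.Adj (a (σ i)) (b (σ j)) ↔ _
    rw [(h _ (h2 i hi) _ (h2 j hj)).2.2]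
    by_cases hij : i = j
    · subst hij
      simp
    · have := hinj i hi j hj hij
      simp [hij, this]

variable (H J)

/-- no large patterns of the type `(s, t, e)` in the linked graphs -/
def Kill (s t e : Bool) : Prop := ∀ β : ℕ → ℕ, ∃ c₀ n : ℕ, ∀ (V : Type) [Finite V]
  (G : SimpleGraph V), Fr H J G → Link β c₀ G → NoTP G n s t e

/-- no large patterns of the type `(s, t, e)` in the linked graphs without large patterns of the type
`(s', t', e')` -/
def KillMod (s' t' e' s t e : Bool) : Prop := ∀ (m : ℕ) (β : ℕ → ℕ), ∃ c₀ n : ℕ,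
  ∀ (V : Type) [Finite V] (G : SimpleGraph V), Fr H J G → Link β c₀ G → NoTP G m s' t' e' →
    NoTP G n s t e

variable {H J}

theorem Kill.swap {s t e : Bool} (h : Kill H J s t e) : Kill H J t s e := fun β => by
  obtain ⟨c₀, n, hn⟩ := h β
  exact ⟨c₀, n, fun V _ G hF hL => (hn V G hF hL).swap⟩

theorem KillMod.kill {s' t' e' s t e : Bool} (h : KillMod H J s' t' e' s t e)
    (h' : Kill H J s' t' e') : Kill H J s t e := fun β => by
  obtain ⟨c₁, m, hm⟩ := h' β
  obtain ⟨c₂, n, hn⟩ := h m β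
  exact ⟨max c₁ c₂, n, fun V _ G hF hL => hn V G hF (link_mono (le_max_right _ _) hL)
    (hm V G hF (link_mono (le_max_left _ _) hL))⟩

/-- a type which contains `H` or `J` -/
theorem kill_of_model {s t e : Bool} (n : ℕ) (h : ∀ (V : Type) (G : SimpleGraph V) (a b : ℕ → V),
    TP G n s t e a b → IsIndMinor H G ∨ IsIndMinor J G) : Kill H J s t e := fun _ =>
  ⟨0, n, fun V _ G hF _ a b hab => (h V G a b hab).elim (fun h' => hF.1 (ims_univ_iff.mpr h'))
    fun h' => hF.2 (ims_univ_iff.mpr h')⟩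

/-- **(S1) from the types** -/
theorem sOne_of (h : ∀ s t e : Bool, Kill H J s t e) : SOne H J := by
  intro β
  choose c n hn using fun (q : Bool × Bool × Bool) => h q.1 q.2.1 q.2.2 β
  obtain ⟨c₀, hc₀⟩ : ∃ c₀, ∀ q, c q ≤ c₀ := by
    obtain ⟨B, hB⟩ := (Set.finite_range c).bddAbove
    exact ⟨B, fun q => hB ⟨q, rfl⟩⟩
  obtain ⟨m, hm⟩ : ∃ m, ∀ q, n q ≤ m := by
    obtain ⟨B, hB⟩ := (Set.finite_range n).bddAbove
    exact ⟨B, fun q => hB ⟨q, rfl⟩⟩
  obtain ⟨N, hN⟩ := typed m
  have key : ∀ (V : Type) [Finite V] (G : SimpleGraph V), Fr H J G → Link β c₀ G →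
      ∀ s t e, NoTP G m s t e := fun V _ G hF hL s t e =>
    (hn (s, t, e) V G hF (link_mono (hc₀ _) hL)).mono (hm _)
  refine ⟨c₀, N, fun V _ G hF hL => ⟨?_, ?_⟩⟩
  · rintro ⟨a, b, hab⟩
    obtain ⟨s, t, a', b', h'⟩ := hN V G false a b fun i hi j hj =>
      ⟨(hab i hi j hj).1, (hab i hi j hj).2.1, by simpa using (hab i hi j hj).2.2⟩
    exact key V G hF hL s t false a' b' h'
  · rintro ⟨a, b, hab⟩
    obtain ⟨s, t, a', b', h'⟩ := hN V G true a b fun i hi j hj =>
      ⟨(hab i hi j hj).1, (hab i hi j hj).2.1, by simpa using (hab i hi j hj).2.2⟩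
    exact key V G hF hL s t true a' b' h'

end general

/-! ### the finite pattern graphs -/

/-- the pattern graph of the type `(s, t, e)` with `n` indices: `(false, i)` is `a i`, `(true, i)` is `b i` -/
def PGr (n : ℕ) (s t e : Bool) : SimpleGraph (Bool × Fin n) where
  Adj u v := match u.1, v.1 with
    | false, false => u.2 ≠ v.2 ∧ s = true
    | true, true => u.2 ≠ v.2 ∧ t = true
    | false, true => (u.2 = v.2 ↔ e = false)
    | true, false => (u.2 = v.2 ↔ e = false)
  symm := ⟨fun u v h => by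
    rcases u with ⟨_ | _, i⟩ <;> rcases v with ⟨_ | _, j⟩
    · exact ⟨h.1.symm, h.2⟩
    · exact (eq_comm.trans h : j = i ↔ e = false)
    · exact (eq_comm.trans h : j = i ↔ e = false)
    · exact ⟨h.1.symm, h.2⟩⟩
  loopless := ⟨fun u h => by
    rcases u with ⟨_ | _, i⟩
    · exact h.1 rfl
    · exact h.1 rfl⟩

/-- a typed pattern is an induced subgraph `PGr` -/
theorem TP.sub {V : Type} {G : SimpleGraph V} {n : ℕ} {s t e : Bool} {a b : ℕ → V}
    (h : TP G n s t e a b) : IsIndSub (PGr n s t e) G := by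
  refine ⟨fun u => if u.1 then b u.2.val else a u.2.val, ?_, ?_⟩
  · rintro ⟨_ | _, i⟩ ⟨_ | _, j⟩ hij
    · by_contra hne
      exact h.ia i i.2 j j.2 (fun h' => hne (by rw [Fin.ext h'])) hij
    · exact absurd hij (h.dis i i.2 j j.2)
    · exact absurd hij (h.dis j j.2 i i.2).symm
    · by_contra hne
      exact h.ib i i.2 j j.2 (fun h' => hne (by rw [Fin.ext h'])) hij
  · rintro ⟨_ | _, i⟩ ⟨_ | _, j⟩
    · by_cases hij : i = j
      · subst hij
        exact iff_of_false (fun h' => h'.1 rfl) (fun h' => h'.ne rfl)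
      · show (i ≠ j ∧ s = true) ↔ G.Adj (a i.val) (a j.val)
        rw [h.aa i i.2 j j.2 (fun h' => hij (Fin.ext h'))]
        exact ⟨fun h' => h'.2, fun h' => ⟨hij, h'⟩⟩
    · show (i = j ↔ e = false) ↔ G.Adj (a i.val) (b j.val)
      rw [h.ab i i.2 j j.2, Fin.ext_iff]
    · show (i = j ↔ e = false) ↔ G.Adj (b i.val) (a j.val)
      rw [SimpleGraph.adj_comm, h.ab j j.2 i i.2, Fin.ext_iff, eq_comm]
    · by_cases hij : i = j
      · subst hij
        exact iff_of_false (fun h' => h'.1 rfl) (fun h' => h'.ne rfl)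
      · show (i ≠ j ∧ t = true) ↔ G.Adj (b i.val) (b j.val)
        rw [h.bb i i.2 j j.2 (fun h' => hij (Fin.ext h'))]
        exact ⟨fun h' => h'.2, fun h' => ⟨hij, h'⟩⟩

/-- a type is killed by a finite check -/
theorem kill_of_PGr {I I' : Type} {H : SimpleGraph I} {J : SimpleGraph I'} {s t e : Bool} (n : ℕ)
    (h : IsIndMinor H (PGr n s t e) ∨ IsIndMinor J (PGr n s t e)) : Kill H J s t e :=
  kill_of_model n fun _ _ _ _ hab => h.imp
    (fun h' => FDAux.indMinor_trans h' (FDAux.indMinor_of_indSub hab.sub))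
    (fun h' => FDAux.indMinor_trans h' (FDAux.indMinor_of_indSub hab.sub))

end Pool.Agent.MPd439b2.Rep
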