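import Pool.Agent.Lib.MP_d439b2_co.Rep.RowX2

/-!
# MP_d439b2_co, Rep/RowX3: removing the types of patterns one after the other (helper10)

`Ty = Bool × Bool × Bool`: the types `(s, t, e)` of `TP`.  `NoT T m G`: `G` has no pattern of size `m` whose type is in
`T`.  `BLT H J T`: for every `m` the graphs without `H`, `J` and `NoT T m` have bounded layouts.

* `blt_all : TC H J → BLT H J Set.univ`, `blt_empty : BLT H J ∅ → HC.BL H J`.
* `blt_link`: `BLT H J T` from the linked graphs in the class (`hlG_holds`).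
* `blt_drop`: the type `τ` does not occur in the linked graphs of the class `T`: from `insert τ T` to `T`.
* `blt4`: from Theorem C to the four types `nK_2`, thin spider, thick spider, complement of `nK_2` (for
  `J = co(P_3 + 4 P_2)`); `blt3`: without the thin spider for `H = KF 4 2 ![{0}, {1}]`.
-/

set_option autoImplicit false

namespace Pool.Agent.MPd439b2.Rep

open Pool.Agent.MPd439b2 Pool.Agent.MPd439b2.W

/-- the types of patterns -/
abbrev Ty : Type := Bool × Bool × Bool

/-- no pattern of size `m` with a type in `T` -/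
def NoT (T : Set Ty) (m : ℕ) {V : Type} (G : SimpleGraph V) : Prop :=
  ∀ τ ∈ T, NoTP G m τ.1 τ.2.1 τ.2.2

theorem NoT.mono {T T' : Set Ty} {m m' : ℕ} {V : Type} {G : SimpleGraph V} (hT : T' ⊆ T)
    (hm : m ≤ m') (h : NoT T m G) : NoT T' m' G := fun τ hτ => (h τ (hT hτ)).mono hm

theorem tp_of_sub {V : Type} {G : SimpleGraph V} {m : ℕ} {s t e : Bool} (hm : 1 ≤ m)
    (h : IsIndSub (PGr m s t e) G) : ∃ a b, TP G m s t e a b := by
  obtain ⟨f, hf, ha⟩ := h
  have hlt : ∀ i, i < m → i % m < m := fun i _ => Nat.mod_lt _ (by omega)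
  refine ⟨fun i => f (false, ⟨i % m, Nat.mod_lt _ (by omega)⟩),
    fun i => f (true, ⟨i % m, Nat.mod_lt _ (by omega)⟩), ?_, ?_, ?_, ?_, ?_, ?_⟩
  · intro i _ j _ h'
    exact Bool.false_ne_true (congrArg Prod.fst (hf h'))
  · intro i hi j hj hij h'
    have := congrArg (fun q : Bool × Fin m => q.2.val) (hf h')
    simp only [Nat.mod_eq_of_lt hi, Nat.mod_eq_of_lt hj] at this
    exact hij this
  · intro i hi j hj hij h'
    have := congrArg (fun q : Bool × Fin m => q.2.val) (hf h')
    simp only [Nat.mod_eq_of_lt hi, Nat.mod_eq_of_lt hj] at this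
    exact hij this
  · intro i hi j hj hij
    rw [← ha]
    simp only [Nat.mod_eq_of_lt hi, Nat.mod_eq_of_lt hj]
    exact ⟨fun h' => h'.2, fun h' => ⟨fun h2 => hij (Fin.ext_iff.mp h2), h'⟩⟩
  · intro i hi j hj hij
    rw [← ha]
    simp only [Nat.mod_eq_of_lt hi, Nat.mod_eq_of_lt hj]
    exact ⟨fun h' => h'.2, fun h' => ⟨fun h2 => hij (Fin.ext_iff.mp h2), h'⟩⟩
  · intro i hi j hj
    rw [← ha]
    simp only [Nat.mod_eq_of_lt hi, Nat.mod_eq_of_lt hj]
    show ((⟨i, hi⟩ : Fin m) = ⟨j, hj⟩ ↔ e = false) ↔ _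
    rw [Fin.ext_iff]

/-- the class `NoT T m` is finite-state -/
theorem fsNoT (T : Set Ty) (m : ℕ) (hm : 1 ≤ m) :
    Inv (fun _ G => NoT T m G) ∧ FS (fun _ G => NoT T m G) := by
  let ε : Bool × Fin m ≃ Fin (2 * m) :=
    (finTwoEquiv.symm.prodCongr (Equiv.refl (Fin m))).trans finProdFinEquiv
  have h := fsFor_holds T (fun _ => 2 * m)
    (fun τ => (PGr m τ.1.1 τ.1.2.1 τ.1.2.2).comap ε.symm)
  have h1 : NoInd (fun _ : T => 2 * m) (fun τ => (PGr m τ.1.1 τ.1.2.1 τ.1.2.2).comap ε.symm) =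
      (fun (V : Type) (G : SimpleGraph V) => NoT T m G) := by
    funext V G
    apply propext
    constructor
    · intro hno τ hτ a b hab
      obtain ⟨f, hf, ha⟩ := hab.sub
      refine hno ⟨τ, hτ⟩ ⟨f ∘ ε.symm, hf.comp ε.symm.injective, fun u v => ?_⟩
      rw [Function.comp_apply, Function.comp_apply, ← ha]
      exact Iff.rfl
    · intro hno τ
      rintro ⟨f, hf, ha⟩
      obtain ⟨a, b, hab⟩ := tp_of_sub (G := G) (s := τ.1.1) (t := τ.1.2.1) (e := τ.1.2.2) hm
        ⟨f ∘ ε, hf.comp ε.injective, fun u v => by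
          rw [Function.comp_apply, Function.comp_apply, ha]
          show _ ↔ (PGr m τ.1.1 τ.1.2.1 τ.1.2.2).Adj (ε.symm (ε u)) (ε.symm (ε v))
          rw [Equiv.symm_apply_apply, Equiv.symm_apply_apply]⟩
      exact hno τ.1 τ.2 a b hab
  rw [h1] at h
  exact h

section blt

variable {I I' : Type} (H : SimpleGraph I) (J : SimpleGraph I')

/-- bounded layouts for the graphs without large patterns whose types are in `T` -/
def BLT (T : Set Ty) : Prop := ∀ m : ℕ, ∃ k : ℕ, ∀ (V : Type) [Finite V] (G : SimpleGraph V),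
  Fr H J G → NoT T m G → Lay G k Set.univ

variable {H J}

/-- Theorem C in terms of the types -/
theorem blt_all (tc : TC H J) : BLT H J Set.univ := by
  intro m
  obtain ⟨N, hN⟩ := typed m
  obtain ⟨k, hk⟩ := tc N
  refine ⟨k, fun V _ G hF hT => hk V G hF ?_ ?_⟩
  · rintro ⟨a, b, hab⟩
    obtain ⟨s, t, a', b', h'⟩ := hN V G false a b fun i hi j hj =>
      ⟨(hab i hi j hj).1, (hab i hi j hj).2.1, by simpa using (hab i hi j hj).2.2⟩
    exact hT (s, t, false) (Set.mem_univ _) a' b' h'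
  · rintro ⟨a, b, hab⟩
    obtain ⟨s, t, a', b', h'⟩ := hN V G true a b fun i hi j hj =>
      ⟨(hab i hi j hj).1, (hab i hi j hj).2.1, by simpa using (hab i hi j hj).2.2⟩
    exact hT (s, t, true) (Set.mem_univ _) a' b' h'

theorem blt_empty (h : BLT H J ∅) : HC.BL H J := by
  obtain ⟨k, hk⟩ := h 0
  exact ⟨k, fun V _ G h1 h2 => hk V G ⟨h1, h2⟩ fun τ hτ => hτ.elim⟩

theorem BLT.mono {T T' : Set Ty} (hT : T ⊆ T') (h : BLT H J T) : BLT H J T' := fun m => by
  obtain ⟨k, hk⟩ := h m
  exact ⟨k, fun V _ G hF hN => hk V G hF (hN.mono hT le_rfl)⟩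

/-- **The black box for the class `T`**: it is enough to consider the linked graphs of the class (`1 ≤ m`). -/
theorem blt_link [Finite I] [Finite I'] (T : Set Ty) (h : ∀ m : ℕ, 1 ≤ m → ∀ β : ℕ → ℕ, ∃ c₀ k : ℕ,
      ∀ (V : Type) [Finite V] (G : SimpleGraph V), Fr H J G → NoT T m G → Link β c₀ G →
        Lay G k Set.univ) : BLT H J T := by
  intro m
  obtain ⟨k, hk⟩ := hlG_holds (fun _ G => Fr H J G ∧ NoT T (m + 1) G)
    ((fsAnd _ _).1 (fsFr_holds I I' H J).1 (fsNoT T (m + 1) (by omega)).1)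
    ((fsAnd _ _).2 (fsFr_holds I I' H J).2 (fsNoT T (m + 1) (by omega)).2) (fun β => by
      obtain ⟨c₀, k, hk⟩ := h (m + 1) (by omega) β
      exact ⟨c₀, k, fun V _ G hG hL => hk V G hG.1 hG.2 hL⟩)
  exact ⟨k, fun V _ G hF hN => hk V G ⟨hF, hN.mono subset_rfl (by omega)⟩⟩

/-- **Dropping a type** which does not occur in the linked graphs of the class -/
theorem blt_drop [Finite I] [Finite I'] {T : Set Ty} (τ : Ty) (h : ∀ m : ℕ, 1 ≤ m → ∀ β : ℕ → ℕ,
      ∃ c₀ n : ℕ, ∀ (V : Type) [Finite V] (G : SimpleGraph V), Fr H J G → NoT T m G → Link β c₀ G →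
        NoTP G n τ.1 τ.2.1 τ.2.2) (hB : BLT H J (insert τ T)) : BLT H J T := by
  refine blt_link T fun m hm β => ?_
  obtain ⟨c₀, n, hn⟩ := h m hm β
  obtain ⟨k, hk⟩ := hB (max m n)
  refine ⟨c₀, k, fun V _ G hF hT hL => hk V G hF ?_⟩
  rintro τ' (rfl | hτ)
  · exact (hn V G hF hT hL).mono (le_max_right _ _)
  · exact (hT τ' hτ).mono (le_max_left _ _)

/-- dropping a type which does not occur in the linked graphs -/
theorem blt_kill [Finite I] [Finite I'] {T : Set Ty} {s t e : Bool} (h : Kill H J s t e)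
    (hB : BLT H J (insert (s, t, e) T)) : BLT H J T :=
  blt_drop (s, t, e) (fun _ _ β => by
    obtain ⟨c₀, n, hn⟩ := h β
    exact ⟨c₀, n, fun V _ G hF _ hL => hn V G hF hL⟩) hB

/-- dropping a type if the type with exchanged rails is in `T` -/
theorem blt_swap {T : Set Ty} {s t e : Bool} (h : (t, s, e) ∈ T)
    (hB : BLT H J (insert (s, t, e) T)) : BLT H J T := fun m => by
  obtain ⟨k, hk⟩ := hB m
  refine ⟨k, fun V _ G hF hT => hk V G hF ?_⟩
  rintro τ' (rfl | hτ)
  · exact (hT _ h).swap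
  · exact hT τ' hτ

end blt

/-- **The four types** for `J4 = co(P_3 + 4 P_2)`: induced matching, thin spider, thick spider, complement of an
induced matching -/
def T4 : Set Ty := {(false, false, false), (true, false, false), (true, false, true),
  (true, true, true)}

/-- the three types for `H = KF 4 2 ![{0}, {1}]` -/
def T3 : Set Ty := {(false, false, false), (true, false, true), (true, true, true)}

theorem blt4 {I : Type} [Finite I] {H : SimpleGraph I} (tc : TC H J4) : BLT H J4 T4 := by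
  have h1 : BLT H J4 (insert (true, true, false) (insert (false, false, true)
      (insert (false, true, false) (insert (false, true, true) T4)))) := by
    refine (blt_all tc).mono ?_
    rintro ⟨s, t, e⟩ -
    simp only [T4, Set.mem_insert_iff, Set.mem_singleton_iff]
    revert s t e
    decide
  have h2 := blt_kill (killR H) (blt_kill (killJ H) h1)
  refine blt_swap ?_ (blt_swap ?_ h2)
  · simp [T4]
  · simp [T4]

theorem blt3 (tc : TC (F9.KF 4 2 ![{0}, {1}]) J4) : BLT (F9.KF 4 2 ![{0}, {1}]) J4 T3 := by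
  refine blt_kill (killT J4) ((blt4 tc).mono ?_)
  rintro ⟨s, t, e⟩ h
  simp only [T4, T3, Set.mem_insert_iff, Set.mem_singleton_iff] at h ⊢
  revert s t e
  decide

end Pool.Agent.MPd439b2.Rep
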