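import Pool.Agent.Lib.MP_d439b2_co.Rep.Spec

/-!
# MP_d439b2_co, Rep: the replacement theorem for general classes (helper10)

A class is a predicate on graphs which is invariant under isomorphisms (`Inv`) and finite-state (`FS`):
for every `t` there are finitely many kinds of labelled graphs `(Z, l)`, and whether the glued graph is in
the class only depends on the kind and on the context.  Examples: `Fr H₁ H₂` (S_FSFr), local classes
(S_FSLoc), classes defined by finitely many forbidden induced subgraphs (S_FSFor), intersections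
(S_FSAnd).  `S_HLG` is the black box.
-/

set_option autoImplicit false

namespace Pool.Agent.MPd439b2.Rep

open Pool.Agent.MPd439b2

/-- classes of graphs -/
abbrev Cls : Type 1 := (V : Type) → SimpleGraph V → Prop

/-- invariant under isomorphisms (of finite graphs) -/
def Inv (P : Cls) : Prop := ∀ (V V' : Type) [Finite V] [Finite V'] (G : SimpleGraph V)
  (G' : SimpleGraph V') (e : V ≃ V'), (∀ u v, G.Adj u v ↔ G'.Adj (e u) (e v)) → P V G → P V' G'

/-- finite-state -/
def FS (P : Cls) : Prop := ∀ t : ℕ, ∃ (Q : Type) (_ : Finite Q)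
  (pr : (n : ℕ) → SimpleGraph (Fin n) → (Fin n → Fin t) → Q),
  ∀ (n n' m : ℕ) (GZ : SimpleGraph (Fin n)) (GZ' : SimpleGraph (Fin n')) (GW : SimpleGraph (Fin m))
    (l : Fin n → Fin t) (l' : Fin n' → Fin t) (A : Fin t → Set (Fin m)),
    pr n GZ l = pr n' GZ' l' → P _ (glue GZ GW l A) → P _ (glue GZ' GW l' A)

/-- membership is determined by the induced subgraphs with at most `s` vertices -/
def Loc (s : ℕ) (P : Cls) : Prop := ∀ (V : Type) [Finite V] (G : SimpleGraph V),
  P V G ↔ ∀ S : Set V, S.ncard ≤ s → P S (G.induce S)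

/-- `G` has no induced subgraph isomorphic to one of the graphs `F i` -/
def NoInd {ι : Type} (s : ι → ℕ) (F : (i : ι) → SimpleGraph (Fin (s i))) : Cls :=
  fun V G => ∀ i, ¬ ∃ f : Fin (s i) → V, Function.Injective f ∧
    ∀ a b, G.Adj (f a) (f b) ↔ (F i).Adj a b

/-- **FSFr.** (Uses `S_Mdl`, `S_Trans`.)

Proof. `Inv`: `S_Trans`, third part.  `FS`: `Q` = the product of the (finite) types of `proM I₁` and `proM I₂`, `pr` = the
pair of the profiles (`Q` is finite: see `S_Fin`); `S_Mdl` for `H₁` and `H₂`. -/
def S_FSFr : Prop := ∀ (I₁ I₂ : Type) [Finite I₁] [Finite I₂] (H₁ : SimpleGraph I₁)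
  (H₂ : SimpleGraph I₂), Inv (fun _ G => Fr H₁ H₂ G) ∧ FS (fun _ G => Fr H₁ H₂ G)

/-- **FSLoc.** Local classes.

Proof. `FS`: `Q = Set ((k : Fin (s + 1)) × SimpleGraph (Fin k) × (Fin k → Fin t))`, `pr n GZ l` is the set of the triples
`(k, H, f)` such that there is an injective `e : Fin k → Fin n` with `H.Adj i j ↔ GZ.Adj (e i) (e j)` and
`f i = l (e i)`.  Let `(GZ, l)`, `(GZ', l')` have the same profile, `P (glue GZ GW l A)` and let `S` be a subset of
`Fin n' ⊕ Fin m` with at most `s` elements.  `S_Z = inl ⁻¹' S` has `k ≤ s` elements, enumerate it by an injective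
`e' : Fin k → Fin n'`; the triple `(k, comap, l' ∘ e')` is in the profile of `(GZ', l')`, so there is
`e : Fin k → Fin n` which is injective with the same graph and the same labels.  The set
`S₁ = inl '' range e ∪ inr '' (inr ⁻¹' S)` has the same number of elements as `S` and the induced graphs are
isomorphic (`inl (e' i) ↦ inl (e i)`, `inr w ↦ inr w`).  So `P` holds for the graph induced on `S` (`Inv`). -/
def S_FSLoc : Prop := ∀ (s : ℕ) (P : Cls), Inv P → Loc s P → FS P

/-- **FSFor.** Finitely many forbidden induced subgraphs.  (Uses `S_FSLoc`.)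

Proof. `Inv`: compose the embedding with `e`.  Local with `s` the maximum of the `s i` (`ι` is finite): an
embedding of `F i` into `G` has an image `S` with `s i` elements and is an embedding into `G.induce S`;
conversely an embedding into `G.induce S` is one into `G`. -/
def S_FSFor : Prop := ∀ (ι : Type) [Finite ι] (s : ι → ℕ) (F : (i : ι) → SimpleGraph (Fin (s i))),
  Inv (NoInd s F) ∧ FS (NoInd s F)

/-- **FSAnd.** Intersections.

Proof. The product of the two finite types. -/
def S_FSAnd : Prop := ∀ P P' : Cls, (Inv P → Inv P' → Inv (fun V G => P V G ∧ P' V G)) ∧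
  (FS P → FS P' → FS (fun V G => P V G ∧ P' V G))

/-- **RepG.** The replacement theorem.  (Uses `S_TanG`, `S_Iso`, `S_Trans`, `LK.S_A2`.)

Proof. `t = 2 ^ c + 1`; `Q`, `pr` from `FS P`.  The pair `(pr, proT)` belongs to a finite type (see `S_Fin` for `proT`); so
there is `B` such that every labelled graph on some `Fin n` has one on some `Fin n'`, `n' ≤ B`, with the same pair
(for every element of the finite type which is a value choose one labelled graph with this value; maximum of
the numbers of vertices).  The rest as for `S_Rep`. -/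
def S_RepG : Prop := ∀ P : Cls, Inv P → FS P → ∀ c : ℕ, ∃ B : ℕ, ∀ φ : ℕ, c ≤ φ → 1 ≤ φ →
  ∀ (V : Type) [Finite V] (G : SimpleGraph V) (T : Set (Set V)), P V G → Tan G φ T →
    (∀ (V' : Type) [Finite V'] (G' : SimpleGraph V') (T' : Set (Set V')), P V' G' →
      Tan G' φ T' → Nat.card V ≤ Nat.card V') →
    ∀ X : Set V, LK.cr G X ≤ c → X.ncard ≤ B ∨ Xᶜ.ncard ≤ B

/-- **HLG.** The black box for general classes.  (Uses `S_RepG`, `S_TanE`, `S_TanL`.)

Proof. As for `S_HL`. -/
def S_HLG : Prop := ∀ P : Cls, Inv P → FS P → (∀ β : ℕ → ℕ, ∃ c₀ k : ℕ, ∀ (V : Type) [Finite V]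
    (G : SimpleGraph V), P V G → Link β c₀ G → Lay G k Set.univ) →
  ∃ k : ℕ, ∀ (V : Type) [Finite V] (G : SimpleGraph V), P V G → Lay G k Set.univ

end Pool.Agent.MPd439b2.Rep
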