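import Pool.Agent.Lib.MP_d439b2_co.Rep.RowX3
import Pool.Agent.Lib.MP_d439b2_co.X3.H3T.Spec
import Pool.Agent.Lib.MP_d439b2_co.W.DefsM

/-!
# MP_d439b2_co, Rep/RowX4: removal of vertices; graphs without splits and without universal vertices (helper10)

* `blt_remove`: in the linked graphs of the class `T` one can remove a set `F` of vertices such that the rest has no
  large pattern of the type `τ` and a layout of the rest extends: from `insert τ T` to `T`.
* `blt_linkS`, `blt_dropS`: `blt_link`, `blt_drop` for graphs without splits (`H3T.S_HLS`).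
* `blt_linkU`, `blt_dropU`: the same for graphs without splits and without universal vertex (`H3T.S_HLU`, only for
  classes without the induced minor `K3:0,01,12`); `blt_thin`: dropping the thin spider.
-/

set_option autoImplicit false

namespace Pool.Agent.MPd439b2.Rep

open Pool.Agent.MPd439b2 Pool.Agent.MPd439b2.W

section her

variable {I I' : Type} {H : SimpleGraph I} {J : SimpleGraph I'} {V : Type} {G : SimpleGraph V}

theorem sub_induce (S : Set V) : IsIndSub (G.induce S) G :=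
  ⟨Subtype.val, Subtype.val_injective, fun _ _ => Iff.rfl⟩

theorem fr_induce (S : Set V) (h : Fr H J G) : Fr H J (G.induce S) := by
  have key : ∀ {I : Type} (K : SimpleGraph I), IMS K (G.induce S) Set.univ → IMS K G Set.univ :=
    fun K h' => ims_univ_iff.mpr (FDAux.indMinor_trans (ims_univ_iff.mp h')
      (FDAux.indMinor_of_indSub (sub_induce S)))
  exact ⟨fun h' => h.1 (key H h'), fun h' => h.2 (key J h')⟩

theorem tp_induce {S : Set V} {m : ℕ} {s t e : Bool} {a b : ℕ → S}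
    (h : TP (G.induce S) m s t e a b) :
    TP G m s t e (fun i => (a i).val) (fun i => (b i).val) where
  dis i hi j hj h' := h.dis i hi j hj (Subtype.ext h')
  ia i hi j hj hij h' := h.ia i hi j hj hij (Subtype.ext h')
  ib i hi j hj hij h' := h.ib i hi j hj hij (Subtype.ext h')
  aa i hi j hj hij := h.aa i hi j hj hij
  bb i hi j hj hij := h.bb i hi j hj hij
  ab i hi j hj := h.ab i hi j hj

theorem noT_induce {T : Set Ty} {m : ℕ} (S : Set V) (h : NoT T m G) : NoT T m (G.induce S) :=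
  fun τ hτ _ _ h' => h τ hτ _ _ (tp_induce h')

end her

section rem

variable {I I' : Type} {H : SimpleGraph I} {J : SimpleGraph I'}

/-- **Removing a type by removing vertices.**  In a linked graph of the class `T` there is a set `F` such that the
graph without `F` has no pattern of the type `τ` and of size `n`, and a layout of the graph without `F` extends to
a layout of the graph. -/
theorem blt_remove [Finite I] [Finite I'] {T : Set Ty} (τ : Ty) (h : ∀ m : ℕ, 1 ≤ m →
      ∀ β : ℕ → ℕ, ∃ n : ℕ, ∀ k : ℕ, ∃ c₀ k' : ℕ, ∀ (V : Type) [Finite V] (G : SimpleGraph V),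
        Fr H J G → NoT T m G → Link β c₀ G →
        ∃ F : Set V, NoTP (G.induce Fᶜ) n τ.1 τ.2.1 τ.2.2 ∧
          (Lay (G.induce Fᶜ) k Set.univ → Lay G k' Set.univ))
    (hB : BLT H J (insert τ T)) : BLT H J T := by
  refine blt_link T fun m hm β => ?_
  obtain ⟨n, hn⟩ := h m hm β
  obtain ⟨k, hk⟩ := hB (max m n)
  obtain ⟨c₀, k', hk'⟩ := hn k
  refine ⟨c₀, k', fun V _ G hF hT hL => ?_⟩
  obtain ⟨F, h1, h2⟩ := hk' V G hF hT hL
  refine h2 (hk _ _ (fr_induce _ hF) ?_)
  rintro τ' (rfl | hτ)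
  · exact h1.mono (le_max_right _ _)
  · exact (noT_induce _ hT τ' hτ).mono (le_max_left _ _)

/-- **Removing a type by replacing the graph.**  For a linked graph of the class `T` there is another graph of the
class without large patterns of the type `τ` whose layouts give layouts of the graph. -/
theorem blt_replace [Finite I] [Finite I'] {T : Set Ty} (τ : Ty) (h : ∀ m : ℕ, 1 ≤ m →
      ∀ β : ℕ → ℕ, ∃ n : ℕ, ∀ k : ℕ, ∃ c₀ k' : ℕ, ∀ (V : Type) [Finite V] (G : SimpleGraph V),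
        Fr H J G → NoT T m G → Link β c₀ G → ∃ (W : Type) (_ : Finite W) (G' : SimpleGraph W),
          Fr H J G' ∧ NoT (insert τ T) n G' ∧ (Lay G' k Set.univ → Lay G k' Set.univ))
    (hB : BLT H J (insert τ T)) : BLT H J T := by
  refine blt_link T fun m hm β => ?_
  obtain ⟨n, hn⟩ := h m hm β
  obtain ⟨k, hk⟩ := hB n
  obtain ⟨c₀, k', hk'⟩ := hn k
  refine ⟨c₀, k', fun V _ G hF hT hL => ?_⟩
  obtain ⟨W, _, G', h1, h2, h3⟩ := hk' V G hF hT hL
  exact h3 (hk W G' h1 h2)

/-- the class `T` as a class of graphs -/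
def clsT (H : SimpleGraph I) (J : SimpleGraph I') (T : Set Ty) (m : ℕ) : Cls :=
  fun _ G => Fr H J G ∧ NoT T m G

theorem clsT_fs [Finite I] [Finite I'] (T : Set Ty) {m : ℕ} (hm : 1 ≤ m) :
    Inv (clsT H J T m) ∧ FS (clsT H J T m) ∧ H3T.Her (clsT H J T m) :=
  ⟨(fsAnd _ _).1 (fsFr_holds I I' H J).1 (fsNoT T m hm).1,
    (fsAnd _ _).2 (fsFr_holds I I' H J).2 (fsNoT T m hm).2,
    fun _ _ _ C h => ⟨fr_induce C h.1, noT_induce C h.2⟩⟩

/-- the black box for graphs without splits -/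
theorem blt_linkS (hS : H3T.S_HLS) [Finite I] [Finite I'] (T : Set Ty) (h : ∀ m : ℕ, 1 ≤ m →
      ∀ β : ℕ → ℕ, ∃ c₀ k : ℕ, ∀ (V : Type) [Finite V] (G : SimpleGraph V), Fr H J G →
        NoT T m G → Link β c₀ G → H3.SPo G Set.univ → Lay G k Set.univ) : BLT H J T := by
  intro m
  obtain ⟨h1, h2, h3⟩ := clsT_fs (H := H) (J := J) T (m := m + 1) (by omega)
  obtain ⟨k, hk⟩ := hS (clsT H J T (m + 1)) h1 h2 h3 (fun β => by
    obtain ⟨c₀, k, hk⟩ := h (m + 1) (by omega) β
    exact ⟨c₀, k, fun V _ G hG hL hSp => hk V G hG.1 hG.2 hL hSp⟩)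
  exact ⟨k, fun V _ G hF hN => hk V G ⟨hF, hN.mono subset_rfl (by omega)⟩⟩

theorem blt_dropS (hS : H3T.S_HLS) [Finite I] [Finite I'] {T : Set Ty} (τ : Ty) (h : ∀ m : ℕ,
      1 ≤ m → ∀ β : ℕ → ℕ, ∃ c₀ n : ℕ, ∀ (V : Type) [Finite V] (G : SimpleGraph V), Fr H J G →
        NoT T m G → Link β c₀ G → H3.SPo G Set.univ → NoTP G n τ.1 τ.2.1 τ.2.2)
    (hB : BLT H J (insert τ T)) : BLT H J T := by
  refine blt_linkS hS T fun m hm β => ?_
  obtain ⟨c₀, n, hn⟩ := h m hm β
  obtain ⟨k, hk⟩ := hB (max m n)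
  refine ⟨c₀, k, fun V _ G hF hT hL hSp => hk V G hF ?_⟩
  rintro τ' (rfl | hτ)
  · exact (hn V G hF hT hL hSp).mono (le_max_right _ _)
  · exact (hT τ' hτ).mono (le_max_left _ _)

/-- removing vertices in graphs without splits -/
theorem blt_removeS (hS : H3T.S_HLS) [Finite I] [Finite I'] {T : Set Ty} (τ : Ty) (h : ∀ m : ℕ,
      1 ≤ m → ∀ β : ℕ → ℕ, ∃ n : ℕ, ∀ k : ℕ, ∃ c₀ k' : ℕ, ∀ (V : Type) [Finite V]
        (G : SimpleGraph V), Fr H J G → NoT T m G → Link β c₀ G → H3.SPo G Set.univ →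
        ∃ F : Set V, NoTP (G.induce Fᶜ) n τ.1 τ.2.1 τ.2.2 ∧
          (Lay (G.induce Fᶜ) k Set.univ → Lay G k' Set.univ))
    (hB : BLT H J (insert τ T)) : BLT H J T := by
  refine blt_linkS hS T fun m hm β => ?_
  obtain ⟨n, hn⟩ := h m hm β
  obtain ⟨k, hk⟩ := hB (max m n)
  obtain ⟨c₀, k', hk'⟩ := hn k
  refine ⟨c₀, k', fun V _ G hF hT hL hSp => ?_⟩
  obtain ⟨F, h1, h2⟩ := hk' V G hF hT hL hSp
  refine h2 (hk _ _ (fr_induce _ hF) ?_)
  rintro τ' (rfl | hτ)
  · exact h1.mono (le_max_right _ _)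
  · exact (noT_induce _ hT τ' hτ).mono (le_max_left _ _)

/-- the black box for graphs without splits and without universal vertex -/
theorem blt_linkU (hU : H3T.S_HLU) [Finite I] [Finite I'] (hH : ∀ (V : Type) [Finite V]
      (G : SimpleGraph V), Fr H J G → H3T.Fr3 G) (T : Set Ty) (h : ∀ m : ℕ, 1 ≤ m →
      ∀ β : ℕ → ℕ, ∃ c₀ k : ℕ, ∀ (V : Type) [Finite V] (G : SimpleGraph V), Fr H J G →
        NoT T m G → Link β c₀ G → H3.SPo G Set.univ → H3.NoU G → Lay G k Set.univ) :
    BLT H J T := by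
  intro m
  obtain ⟨h1, h2, h3⟩ := clsT_fs (H := H) (J := J) T (m := m + 1) (by omega)
  obtain ⟨k, hk⟩ := hU (clsT H J T (m + 1)) h1 h2 h3 (fun V _ G hG => hH V G hG.1) (fun β => by
    obtain ⟨c₀, k, hk⟩ := h (m + 1) (by omega) β
    exact ⟨c₀, k, fun V _ G hG hL hSp hNo => hk V G hG.1 hG.2 hL hSp hNo⟩)
  exact ⟨k, fun V _ G hF hN => hk V G ⟨hF, hN.mono subset_rfl (by omega)⟩⟩

theorem blt_dropU (hU : H3T.S_HLU) [Finite I] [Finite I'] (hH : ∀ (V : Type) [Finite V]
      (G : SimpleGraph V), Fr H J G → H3T.Fr3 G) {T : Set Ty} (τ : Ty) (h : ∀ m : ℕ, 1 ≤ m →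
      ∀ β : ℕ → ℕ, ∃ c₀ n : ℕ, ∀ (V : Type) [Finite V] (G : SimpleGraph V), Fr H J G →
        NoT T m G → Link β c₀ G → H3.SPo G Set.univ → H3.NoU G → NoTP G n τ.1 τ.2.1 τ.2.2)
    (hB : BLT H J (insert τ T)) : BLT H J T := by
  refine blt_linkU hU hH T fun m hm β => ?_
  obtain ⟨c₀, n, hn⟩ := h m hm β
  obtain ⟨k, hk⟩ := hB (max m n)
  refine ⟨c₀, k, fun V _ G hF hT hL hSp hNo => hk V G hF ?_⟩
  rintro τ' (rfl | hτ)
  · exact (hn V G hF hT hL hSp hNo).mono (le_max_right _ _)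
  · exact (hT τ' hτ).mono (le_max_left _ _)

/-- **The thin spider** for classes without `K3:0,01,12` -/
theorem blt_thin (hU : H3T.S_HLU) (hT : H3T.S_T) [Finite I] [Finite I'] (hH : ∀ (V : Type)
      [Finite V] (G : SimpleGraph V), Fr H J G → H3T.Fr3 G) {T : Set Ty}
    (hB : BLT H J (insert (true, false, false) T)) : BLT H J T := by
  refine blt_dropU hU hH (true, false, false) (fun m _ β => ⟨0, 9, ?_⟩) hB
  intro V _ G hF _ _ hSp hNo a b hab
  refine hT V G 9 (fun i => a i.val) (fun i => b i.val) le_rfl (hH V G hF) hSp hNo ⟨?_, ?_, ?_⟩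
  · intro i j hij
    exact (hab.aa i i.2 j j.2 fun h' => hij (Fin.ext h')).mpr rfl
  · intro i j hadj
    by_cases hij : i = j
    · subst hij
      exact hadj.ne rfl
    · exact absurd ((hab.bb i i.2 j j.2 fun h' => hij (Fin.ext h')).mp hadj) Bool.false_ne_true
  · intro i j
    rw [hab.ab i i.2 j j.2, Fin.ext_iff]
    simp

end rem

/-- large homogeneous sets are splits; so a graph without splits has no homogeneous set `M` with `2 ≤ |M|` and
`2 ≤ |Mᶜ|` -/
theorem spo_hmg {V : Type} [Finite V] {G : SimpleGraph V} (h : H3.SPo G Set.univ) {M : Set V}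
    (hM : H3.Hmg G Set.univ M) (h2 : 2 ≤ M.ncard) : Mᶜ.ncard ≤ 1 := by
  by_contra hcon
  push Not at hcon
  have hne : M.Nonempty := by
    rw [← Set.ncard_pos]
    omega
  obtain ⟨m₀, hm₀⟩ := hne
  refine h M (Set.subset_univ _) h2 (by rw [← Set.compl_eq_univ_sdiff]; omega) ⟨M, subset_rfl,
    {v | v ∉ M ∧ G.Adj v m₀}, ?_, ?_⟩
  · rintro v ⟨hv, -⟩
    exact ⟨trivial, hv⟩
  · rintro a ha b ⟨-, hb⟩
    rcases hM b trivial hb with h1 | h1
    · exact iff_of_true (h1 a ha).symm ⟨ha, hb, h1 m₀ hm₀⟩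
    · exact iff_of_false (fun h' => h1 a ha h'.symm) fun h' => h1 m₀ hm₀ h'.2.2

/-- no twins in graphs without splits -/
theorem spo_twin {V : Type} [Finite V] {G : SimpleGraph V} (h : H3.SPo G Set.univ)
    (hV : 4 ≤ Nat.card V) {x y : V} (hxy : x ≠ y) :
    ¬ ∀ z, z ≠ x → z ≠ y → (G.Adj x z ↔ G.Adj y z) := by
  intro htw
  have h1 : ({x, y} : Set V).ncard = 2 := Set.ncard_pair hxy
  have h2 := spo_hmg h (M := {x, y}) (fun v _ hv => by
    have hvx : v ≠ x := fun h' => hv (Or.inl h')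
    have hvy : v ≠ y := fun h' => hv (Or.inr h')
    by_cases h3 : G.Adj v x
    · refine Or.inl ?_
      rintro m (rfl | rfl)
      · exact h3
      · exact ((htw v hvx hvy).mp h3.symm).symm
    · refine Or.inr ?_
      rintro m (rfl | rfl)
      · exact h3
      · exact fun h4 => h3 ((htw v hvx hvy).mpr h4.symm).symm) h1.ge
  have h3 := Set.ncard_add_ncard_compl ({x, y} : Set V)
  omega

/-- patterns of the type `O_n` are induced matchings of the complement -/
theorem TP.im {V : Type} {G : SimpleGraph V} {n : ℕ} {a b : ℕ → V}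
    (h : TP G n true true true a b) : IM Gᶜ n a b := by
  intro i hi j hj
  refine ⟨?_, ?_, ?_⟩
  · rw [SimpleGraph.compl_adj, h.ab i hi j hj]
    constructor
    · rintro ⟨-, h2⟩
      by_contra hij
      exact h2 ⟨fun h3 => absurd h3 hij, fun h3 => absurd h3.symm Bool.false_ne_true⟩
    · intro hij
      exact ⟨h.dis i hi j hj, fun h2 => Bool.false_ne_true (h2.mp hij).symm⟩
  · intro h1
    by_cases hij : i = j
    · subst hij
      exact h1.ne rfl
    · exact h1.2 ((h.aa i hi j hj hij).mpr rfl)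
  · intro h1
    by_cases hij : i = j
    · subst hij
      exact h1.ne rfl
    · exact h1.2 ((h.bb i hi j hj hij).mpr rfl)

end Pool.Agent.MPd439b2.Rep
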