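import Pool.Agent.Lib.MP_d439b2_co.Rep.Defs

/-!
# MP_d439b2_co, Rep: the replacement theorem, statements (helper10)

MATHEMATICS: note 2691 (refereed, note 2701).  In a minimum counterexample with a tangle of order `φ`
every cut of rank at most `c ≤ φ` has a side with at most `B c` vertices, `B` independent of `φ`.
`S_HL` is the black box for the users: it is enough to bound the width of the graphs which satisfy
`Link β c₀ G`.

Every `S_...` is a statement to be proved in its own file; the docstring contains the complete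
proof.  All types are finite.
-/

set_option autoImplicit false

namespace Pool.Agent.MPd439b2.Rep

open Pool.Agent.MPd439b2

/-- **Rk.** The cut-rank of `un Y U` in the glued graph.

Proof. `F = ZMod 2`.  `cr (glue ..) (un Y U)` is the dimension of the span `T` of the rows.  Use the linear
equivalence `(Z ⊕ W → F) ≃ (Z → F) × (W → F)` (`LinearEquiv.sumArrowLequivProdArrow`; it maps the span of the
rows to the span of the images).  The row of `inl z`, `z ∈ Y`, becomes `(row GZ Yᶜ z, al A U (Pi.single (l z) 1))`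
and the row of `inr w`, `w ∈ U`, becomes `(Ph l Y (cv A w), row GW Uᶜ w)`.  So `T = R ⊔ P`, where `R` is the image of
`RZ GZ l Y` under `(e, r) ↦ (r, al A U e)` and `P` is the image of `P₀ = span {(cv A w, row GW Uᶜ w) | w ∈ U}` under
`Ph × id`.  Let `π : (Z → F) × (W → F) → (Z → F) ⧸ range (Ph l Y)`, `(r, s) ↦ [r]` (or work with `M = range (Ph l Y)`
and the submodule `M × ⊤`): `finrank T = finrank (T.map π) + finrank (T ⊓ ker π)`, `ker π = (range (Ph l Y)).prod ⊤`.
`T.map π = R.map π` (as `P ≤ ker π`) is the image of `span (row GZ Yᶜ '' Y)`, of dimension `stR GZ l Y` (`finrank` of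
`(S ⊔ M).map mkQ` plus `finrank M` is `finrank (S ⊔ M)`, `M.map mkQ = ⊥`).
`T ⊓ ker π = P ⊔ (R ⊓ ker π)` (modular law, `P ≤ ker π`), and `R ⊓ ker π` is the image of `stS GZ l Y` under
`(e, c) ↦ (Ph c, al e)`: an element of `R` is `(r, al e)` with `(e, r) ∈ RZ`, it is in `ker π` iff `r = Ph c` for some
`c`.  So `T ⊓ ker π` is the image of `Q` (the submodule in the definition of `gg`) under `Ph × id`, and
`finrank (Q.map (Ph × id)) = finrank Q - finrank (Q ⊓ ker (Ph × id))`, `ker (Ph × id) = (stK l Y).prod ⊥`.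
Second part: `Q.map snd` contains `span (row GW Uᶜ '' U)`;
`finrank Q = finrank (Q.map snd) + finrank (Q ⊓ ker snd)` and `Q ⊓ K.prod ⊥ ≤ Q ⊓ ker snd`; so
`rk GW U Uᶜ ≤ finrank (Q.map snd) ≤ finrank Q - finrank (Q ⊓ K.prod ⊥)`. -/
def S_Rk : Prop := ∀ (Z W : Type) [Finite Z] [Finite W] (t : ℕ) (GZ : SimpleGraph Z)
  (GW : SimpleGraph W) (l : Z → Fin t) (A : Fin t → Set W),
  (∀ (Y : Set Z) (U : Set W),
    LK.cr (glue GZ GW l A) (un Y U) = stR GZ l Y + gg (stK l Y) (stS GZ l Y) GW A U) ∧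
  ∀ (K : Submodule (ZMod 2) (Fin t → ZMod 2))
    (S : Submodule (ZMod 2) ((Fin t → ZMod 2) × (Fin t → ZMod 2))) (U : Set W),
    LK.rk GW U Uᶜ ≤ gg K S GW A U

/-- **Cap.** Sets with large `stR`.  (Uses `S_Rk`, `LK.S_A1`.)

Proof. Let `G' = glue GZ' GW l' A`.  `cr G' (un univ U) ≤ t + rk GW U Uᶜ`: `(un univ U)ᶜ = inr '' Uᶜ`; by A1 (3) the rank is at
most `rk G' (inl '' univ) (inr '' Uᶜ) + rk G' (inr '' U) (inr '' Uᶜ)`; the first is at most `t` by A1 (6) with
`𝒯 = range (fun i => inr '' (A i \ U))`; the second is at most `rk GW U Uᶜ` (the rows are the extensions by zero of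
the rows of `GW`: the linear map which extends by zero maps the span onto the span).
Also `rk GW U Uᶜ ≤ gg ..` and `cr (glue GZ GW l A) (un Y U) = stR + gg ≥ t + rk GW U Uᶜ` by `S_Rk`. -/
def S_Cap : Prop := ∀ (Z Z' W : Type) [Finite Z] [Finite Z'] [Finite W] (t : ℕ) (GZ : SimpleGraph Z)
  (GZ' : SimpleGraph Z') (GW : SimpleGraph W) (l : Z → Fin t) (l' : Z' → Fin t) (A : Fin t → Set W)
  (Y : Set Z) (U : Set W), t ≤ stR GZ l Y →
    LK.cr (glue GZ' GW l' A) (un Set.univ U) ≤ LK.cr (glue GZ GW l A) (un Y U)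

/-- **Mdl.** Models only depend on the traces.

Proof. Let `B` be a model in `G = glue GZ GW l A`, `C h = inl ⁻¹' B h`, `D h = inr ⁻¹' B h`.  The trace of `C` is in
`proM I GZ l = proM I GZ' l'`: there is a family `C'` of disjoint sets of `Z'` with
`sp GZ l (C h) = sp GZ' l' (C' h)` and `Tch GZ (C h) (C k) = Tch GZ' (C' h) (C' k)`.  Let `B' h = un (C' h) (D h)`,
`G' = glue GZ' GW l' A`.
(0) `l '' C h = l' '' C' h`: `(l '' C h, ∅) ∈ sp GZ l (C h)` (`U = C h`), so there is `U' ⊆ C' h` with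
`l' '' U' = l '' C h` and `l' '' (C' h \ U') = ∅`, that is `U' = C' h`.
(1) `B' h` is connected.  It is nonempty by (0).  Let `E ⊆ B' h` without an edge to `B' h \ E`,
`U' = inl ⁻¹' E`, `D₀ = inr ⁻¹' E`.  `(l' '' U', l' '' (C' h \ U')) ∈ sp GZ' l' (C' h) = sp GZ l (C h)`: there is
`U ⊆ C h` without edges to `C h \ U`, `l '' U = l' '' U'` and `l '' (C h \ U) = l' '' (C' h \ U')`.  There is no edge of `G`
between `un U D₀` and `B h \ un U D₀`: `Z`-`Z` by the choice of `U`; `W`-`W`: it would be an edge of `G'` between `E` and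
`B' h \ E`; `z ∈ U`, `w ∈ D h \ D₀`, `w ∈ A (l z)`: take `z' ∈ U'` with `l' z' = l z`, an edge of `G'` between `E` and
`B' h \ E`; `z ∈ C h \ U`, `w ∈ D₀`: the same.  As `B h` is connected `un U D₀` is empty or `B h`; then `U' = ∅`,
`D₀ = ∅` or `C' h \ U' = ∅`, `D₀ = D h` (images are empty).
(2) disjoint: clear.  (3) `Tch G' (B' h) (B' k) ↔ Tch G (B h) (B k)`: `Z`-`Z` by the choice of `C'`, `W`-`W` the same
edges, `Z`-`W` by (0). -/
def S_Mdl : Prop := ∀ (I Z Z' W : Type) (H : SimpleGraph I) (t : ℕ) (GZ : SimpleGraph Z)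
  (GZ' : SimpleGraph Z') (GW : SimpleGraph W) (l : Z → Fin t) (l' : Z' → Fin t) (A : Fin t → Set W),
  proM I GZ l = proM I GZ' l' → IMS H (glue GZ GW l A) Set.univ → IMS H (glue GZ' GW l' A) Set.univ

/-- **TanG.** The tangle of the new graph.  (Uses `S_Rk`, `S_Cap`, `LK.S_A1`, `LK.S_A2`.)

Proof. `G = glue GZ GW l A`, `G' = glue GZ' GW l' A`.  (a) Consistency: if `un Y U ∈ T` and
`cr G (un Y' U) ≤ c` then `un Y' U ∈ T`; otherwise `(un Y' U)ᶜ ∈ T` (`dec`) and
`un Y U ∪ (un Y' U)ᶜ ∪ inl '' univ = univ`, against `cov`.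
(b) Let `C'` be a set of `Z'`, `C` a set of `Z` with `cst GZ l C = cst GZ' l' C'`; put `D = C` if this is not `none`,
`D = univ` otherwise.  Then `cr G (un D U) ≤ cr G' (un C' U)` for all `U`: if it is `some (K, S, r)` both sides are
`r + gg K S GW A U` (`S_Rk`), if it is `none` then `t ≤ stR GZ' l' C'` and `S_Cap`.
(c) `T' = {Y' | cr G' Y' ≤ c ∧ ∃ Y, un Y (inr ⁻¹' Y') ∈ T}`.
`ord`: clear.  `dec`: let `cr G' Y' ≤ c`, `C' = inl ⁻¹' Y'`, `U = inr ⁻¹' Y'`, `Y' = un C' U`.  The triple of states of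
`(C', univ, univ)` is in `proT GZ' l' = proT GZ l`, so there is `C` with the same state as `C'`; `D` as in (b):
`cr G (un D U) ≤ c`, so `un D U ∈ T` and `Y' ∈ T'`, or `(un D U)ᶜ = un Dᶜ Uᶜ ∈ T` and `Y'ᶜ ∈ T'`
(`cr G' Y'ᶜ = cr G' Y'` by A2).
`cov`: let `Y'₁, Y'₂, Y'₃ ∈ T'` cover everything, `Y'_i = un C'_i U_i`.  The triple of states of the `C'_i` is in
`proT GZ' l' = proT GZ l`: there are `C_i` with `C₁ ∪ C₂ ∪ C₃ = univ` and the same states; `D_i ⊇ C_i` as in (b);
`un D_i U_i ∈ T` by (a) and (b); they cover everything: contradiction.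
`sing`: `{inl z} = un {z} ∅`, `un univ ∅ = inl '' univ ∈ T`; `{inr w} = un ∅ {w} ∈ T`; the cut-rank of one vertex is at
most one (A2). -/
def S_TanG : Prop := ∀ (Z Z' W : Type) [Finite Z] [Finite Z'] [Finite W] (t : ℕ)
  (GZ : SimpleGraph Z) (GZ' : SimpleGraph Z') (GW : SimpleGraph W) (l : Z → Fin t) (l' : Z' → Fin t)
  (A : Fin t → Set W) (c : ℕ) (T : Set (Set (Z ⊕ W))), 1 ≤ c → proT GZ l = proT GZ' l' →
    Tan (glue GZ GW l A) c T → Sum.inl '' (Set.univ : Set Z) ∈ T →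
    ∃ T', Tan (glue GZ' GW l' A) c T'

/-- **Fin.** There are finitely many profiles.

Proof. The profile `(proM I₁ GZ l, proM I₂ GZ l, proT GZ l)` belongs to a finite type `P` (a product of types
`Set X`, `X` finite: `Set (Fin t)`, functions from a finite type, `Prop`, `Submodule` of a finite module (injective
into `Set`), `Option`, `Fin t`).  For every element of `P` which is a profile choose a labelled graph on some
`Fin n'` with this profile; `B` is the maximum of the numbers `n'`. -/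
def S_Fin : Prop := ∀ (I₁ I₂ : Type) [Finite I₁] [Finite I₂] (t : ℕ), ∃ B : ℕ,
  ∀ (n : ℕ) (GZ : SimpleGraph (Fin n)) (l : Fin n → Fin t), ∃ n' ≤ B,
    ∃ (GZ' : SimpleGraph (Fin n')) (l' : Fin n' → Fin t), proM I₁ GZ' l' = proM I₁ GZ l ∧
      proM I₂ GZ' l' = proM I₂ GZ l ∧ proT GZ' l' = proT GZ l

/-- **Iso.** A cut of bounded rank.  (Uses `LK.S_A3`.)

Proof. The set `𝒯 = insert ∅ (Types G X)` has at most `2 ^ c + 1` elements (A3), so there is an injective map
`ι` from `𝒯` to `Fin (2 ^ c + 1)`.  Identify `X` with `Fin X.ncard` and `Xᶜ` with `Fin Xᶜ.ncard`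
(`Equiv.Set.sumCompl`).  Label of `z`: `ι (G.neighborSet z \ X)`; `A i = ι⁻¹ i` (empty if `i` is not in the
range). -/
def S_Iso : Prop := ∀ (V : Type) [Finite V] (G : SimpleGraph V) (X : Set V) (c : ℕ), LK.cr G X ≤ c →
  ∃ (m : ℕ) (GZ : SimpleGraph (Fin X.ncard)) (GW : SimpleGraph (Fin m))
    (l : Fin X.ncard → Fin (2 ^ c + 1)) (A : Fin (2 ^ c + 1) → Set (Fin m))
    (e : Fin X.ncard ⊕ Fin m ≃ V), (∀ u v, (glue GZ GW l A).Adj u v ↔ G.Adj (e u) (e v)) ∧
      e '' (Sum.inl '' Set.univ) = X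

/-- **Trans.** Transport along an isomorphism.

Proof. `cr`: the linear equivalence `LinearEquiv.funCongrLeft` maps the rows of one graph to the rows of the other
graph.  `Tan`: the image of `T`, `T' = {X | e ⁻¹' X ∈ T}`.  `IMS`: the images of the branch sets. -/
def S_Trans : Prop := ∀ (V V' : Type) [Finite V] [Finite V'] (G : SimpleGraph V)
  (G' : SimpleGraph V') (e : V ≃ V'), (∀ u v, G.Adj u v ↔ G'.Adj (e u) (e v)) →
    (∀ X : Set V, LK.cr G' (e '' X) = LK.cr G X) ∧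
    (∀ (c : ℕ) (T : Set (Set V')), Tan G' c T → Tan G c {X | e '' X ∈ T}) ∧
    ∀ (I : Type) (H : SimpleGraph I), IMS H G Set.univ ↔ IMS H G' Set.univ

/-- **Rep.** The replacement theorem.  (Uses `S_Mdl`, `S_TanG`, `S_Fin`, `S_Iso`, `S_Trans`, `LK.S_A2`.)

Proof. `B` from `S_Fin` for `I₁, I₂` and `t = 2 ^ c + 1`.  Let `X` be a set with `cr G X ≤ c ≤ φ`; `X ∈ T` or
`Xᶜ ∈ T`, and `cr G Xᶜ = cr G X`; so it is enough to show `X.ncard ≤ B` for `X ∈ T`.  Suppose not.  `S_Iso` for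
`X`; `S_Trans` gives a tangle `T₁` of `glue GZ GW l A` with `inl '' univ ∈ T₁`.  `S_Fin` gives `n' ≤ B` and `GZ', l'` with
the same profile; `S_TanG`: `glue GZ' GW l' A` has a tangle; it is free by `S_Mdl` and `S_Trans`.  It has
`n' + m < X.ncard + m = |V|` vertices: contradiction. -/
def S_Rep : Prop := ∀ (I₁ I₂ : Type) [Finite I₁] [Finite I₂] (H₁ : SimpleGraph I₁)
  (H₂ : SimpleGraph I₂) (c : ℕ), ∃ B : ℕ, ∀ φ : ℕ, c ≤ φ → 1 ≤ φ →
    ∀ (V : Type) [Finite V] (G : SimpleGraph V) (T : Set (Set V)), Fr H₁ H₂ G → Tan G φ T →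
      (∀ (V' : Type) [Finite V'] (G' : SimpleGraph V') (T' : Set (Set V')), Fr H₁ H₂ G' →
        Tan G' φ T' → Nat.card V ≤ Nat.card V') →
      ∀ X : Set V, LK.cr G X ≤ c → X.ncard ≤ B ∨ Xᶜ.ncard ≤ B

/-- **TanE.** Large width gives a tangle.  (Uses `LK.S_A2`, `LK.S_A6`.)

Proof. Otherwise, by A6 (contraposition), there is `B` with `|B| = q` such that every `P` with `cr G P ≤ c`
satisfies `|B ∩ P| ≤ 2 c` or `|B \ P| ≤ 2 c`.  `T = {P | cr G P ≤ c ∧ |B ∩ P| ≤ 2 c}`.  Three members cover at most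
`6 c < q` elements of `B`. -/
def S_TanE : Prop := ∀ (V : Type) [Finite V] (G : SimpleGraph V) (c q : ℕ), 1 ≤ c → 6 * c + 1 ≤ q →
  ¬ Lay G (2 ^ q) Set.univ → ∃ T, Tan G c T

/-- **TanL.** A layout excludes a tangle.  (Uses `LK.S_A1`.)

Proof. Every node of the layout has at most `k` nonempty types, hence cut-rank at most `k ≤ c` (A1 (6) with the
set of the types, which is finite).  By induction on the layout every node is in `T`: `∅` (otherwise
`univ ∈ T`, against `cov`), `{v}` by `sing`, `A ∪ B`: otherwise `A`, `B`, `(A ∪ B)ᶜ` cover everything.  So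
`univ ∈ T`, against `cov`. -/
def S_TanL : Prop := ∀ (V : Type) [Finite V] (G : SimpleGraph V) (c k : ℕ) (T : Set (Set V)), k ≤ c →
  Lay G k Set.univ → ¬ Tan G c T

/-- **HL.** The black box.  (Uses `S_Rep`, `S_TanE`, `S_TanL`.)

Proof. `β c` = the bound of `S_Rep` for `c`.  Take `c₀, k` for `β` and let `φ` be the maximum of `c₀`, `k`, `1`.
Suppose that some free graph has a tangle `Tan G φ T`; take one with the minimum number of vertices.  By
`S_Rep` (`c ≤ c₀ ≤ φ`) it satisfies `Link β c₀ G`, so it has a layout of width `k ≤ φ`, against `S_TanL`.  So no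
free graph has a tangle, and by `S_TanE` all have a layout of width `2 ^ (6 φ + 1)`. -/
def S_HL : Prop := ∀ (I₁ I₂ : Type) [Finite I₁] [Finite I₂] (H₁ : SimpleGraph I₁)
  (H₂ : SimpleGraph I₂), (∀ β : ℕ → ℕ, ∃ c₀ k : ℕ, ∀ (V : Type) [Finite V] (G : SimpleGraph V),
    Fr H₁ H₂ G → Link β c₀ G → Lay G k Set.univ) →
  ∃ k : ℕ, ∀ (V : Type) [Finite V] (G : SimpleGraph V), Fr H₁ H₂ G → Lay G k Set.univ

end Pool.Agent.MPd439b2.Rep
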