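import Pool.Agent.Lib.MP_d439b2_co.Rep.RowX4
import Pool.Agent.Lib.MP_d439b2_co.X3.H3T.Final
import Pool.Agent.Lib.MP_d439b2_co.X3.H3S.Kill
import Pool.Agent.Lib.MP_d439b2_co.X3.H3O.Kill
import Pool.Agent.Lib.MP_d439b2_co.R3.Final
import Pool.Agent.Lib.MP_d439b2_co.F9.RowB
import Pool.Agent.Lib.MP_d439b2_co.F9.BaseP
import Pool.Agent.Lib.MP_d439b2_co.ON.Asm

/-!
# MP_d439b2_co, Rep/X3Asm: assembly for the pairs with `co(P_3 + 4 P_2)`

`x3H1`: the pair of `K3:0,01,12` from the statement that there are no large induced matchings.  `x3K4`: the pair of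
`K4:0,1` from Theorem O (`ON.S_O`), Theorem C' and the statement that there are no large induced matchings.
-/

set_option autoImplicit false

namespace Pool.Agent.MPd439b2.Rep

open Pool.Agent.MPd439b2

/-! ### Theorem C -/

theorem tcK4 : TC (F9.KF 4 2 ![{0}, {1}]) J4 := fun m => by
  obtain ⟨N, hN⟩ := R3.thmC0F m
  exact ⟨N, fun V _ G hF h1 h2 => hN V G (F9.kf1 ▸ hF.1) hF.2 h1 h2⟩

theorem tcH1 : TC (F9.KF 3 3 ![{0}, {0, 1}, {1, 2}]) J4 := fun m => by
  obtain ⟨N, hN⟩ := R3.thmC1F m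
  exact ⟨N, fun V _ G hF h1 h2 => hN V G (F9.kf2 ▸ hF.1) hF.2 h1 h2⟩

theorem tcH2 : TC (F9.KF 3 3 ![{0}, {1}, {0, 2}]) J4 := fun m => by
  obtain ⟨N, hN⟩ := R3.thmC2F m
  exact ⟨N, fun V _ G hF h1 h2 => hN V G (F9.kf3 ▸ hF.1) hF.2 h1 h2⟩

/-! ### `K3:0,01,12` -/

theorem fr3H1 (V : Type) [Finite V] (G : SimpleGraph V)
    (h : Fr (F9.KF 3 3 ![{0}, {0, 1}, {1, 2}]) J4 G) : H3T.Fr3 G := by
  unfold H3T.Fr3
  rw [← F9.kf2]
  exact h.1

/-- The pair `(K3:0,01,12, co(P_3 + 4 P_2))`, if large induced matchings do not occur in the linked graphs without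
splits and without universal vertex. -/
theorem x3H1 (h : ∀ m : ℕ, 1 ≤ m → ∀ β : ℕ → ℕ, ∃ c₀ n : ℕ, ∀ (V : Type) [Finite V]
      (G : SimpleGraph V), Fr (F9.KF 3 3 ![{0}, {0, 1}, {1, 2}]) J4 G →
        NoT {(true, false, false)} m G → Link β c₀ G → H3.SPo G Set.univ → H3.NoU G →
          NoTP G n false false false) :
    BoundedCW (F9.KF 3 3 ![{0}, {0, 1}, {1, 2}]) (F9.JS ![0, 1, 1] 4) := by
  refine F9.bcw_of_bl (blt_empty (blt_thin H3T.hluF H3T.thinF fr3H1 ?_))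
  refine (blt_dropU H3T.hluF fr3H1 (false, false, false) (T := {(true, false, false)}) h ?_).mono
    (by simp)
  refine blt_drop (true, true, true) (fun m _ β => ?_) (blt_kill H3S.killThick ?_)
  · obtain ⟨c₀, n, hn⟩ := X3.killModO m β
    exact ⟨c₀, n, fun V _ G hF hT hL => hn V G hF hL (hT (true, false, false) (by simp))⟩
  · refine (blt4 tcH1).mono ?_
    rintro ⟨s, t, e⟩ h
    simp only [T4, Set.mem_insert_iff, Set.mem_singleton_iff] at h ⊢
    revert s t e
    decide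

/-! ### `K4:0,1` -/

/-- The pair `(K4:0,1, co(P_3 + 4 P_2))`, from Theorem O, Theorem C' (the conclusion of `CR.S_ThCp`) and the statement
that large induced matchings do not occur in the linked graphs. -/
theorem x3K4 (hO : ON.S_O) (hC : ∀ m : ℕ, ∃ N : ℕ, ∀ (V : Type) [Finite V] (G : SimpleGraph V),
      Fr A0.K401 (A0.JP 4) G → NoTP G m false false false → NoTP G m true true true →
        Lay G N Set.univ)
    (hK : ∀ m : ℕ, 1 ≤ m → ∀ β : ℕ → ℕ, ∃ c₀ n : ℕ, ∀ (V : Type) [Finite V] (G : SimpleGraph V),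
      Fr A0.K401 (A0.JP 4) G → NoT {(true, true, true)} m G → Link β c₀ G →
        NoTP G n false false false) :
    BoundedCW (F9.KF 4 2 ![{0}, {1}]) (F9.JS ![0, 1, 1] 4) := by
  rw [F9.kf1]
  have h1 : BLT A0.K401 (A0.JP 4) {(false, false, false), (true, true, true)} := fun m => by
    obtain ⟨N, hN⟩ := hC m
    exact ⟨N, fun V _ G hF hT => hN V G hF (hT (false, false, false) (by simp))
      (hT (true, true, true) (by simp))⟩
  have h2 : BLT A0.K401 (A0.JP 4) {(true, true, true)} :=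
    blt_drop (false, false, false) (T := {(true, true, true)}) hK h1
  obtain ⟨k, hk⟩ := ON.asmRed hO 4 (by omega) fun n => by
    obtain ⟨k, hk⟩ := h2 n
    refine ⟨k, fun V _ G hF hI => hk V G hF ?_⟩
    rintro τ rfl
    exact fun a b hab => hI a b hab.im
  exact F9.bcw_of_bl ⟨k, fun V _ G h1 h2 => hk V G ⟨h1, h2⟩⟩

end Pool.Agent.MPd439b2.Rep
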