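import Pool.Agent.Lib.MP_d439b2_co.Rep.RowX
import Pool.Agent.Lib.MP_d439b2_co.HC.EngC

/-!
# MP_d439b2_co, Rep/RowX2: typed patterns which contain `co(P_3 + 4 P_2)` or `K_4` with two pendant vertices (helper10)

`killR`: two stable rails with a co-matching; `killJ`: two cliques with a matching (both contain
`J4 = co(P_3 + 4 P_2)`); `killT`: a clique with pendant vertices contains `KF 4 2 ![{0}, {1}]`.
`sp_of_tp` and `HC.chkG_sp`, `ims_of_sp` allow other certificates.
-/

set_option autoImplicit false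

namespace Pool.Agent.MPd439b2.Rep

open Pool.Agent.MPd439b2 Pool.Agent.MPd439b2.W Pool.Agent.MPd439b2.BU

/-- `co(P_3 + 4 P_2)` -/
abbrev J4 : SimpleGraph (Option (Σ i : Fin 3, Fin ((![0, 1, 1] : Fin 3 → ℕ) i)) ⊕ (Fin 4 × Bool)) :=
  F9.JS ![0, 1, 1] 4

/-- a pattern of sets gives an induced minor -/
theorem ims_of_sp {V W' : Type} {G : SimpleGraph V} {X : Set V} {m : ℕ} {S : ℕ → Set V}
    {r : ℕ → ℕ → Bool} (H : SimpleGraph W') (f : W' → ℕ) (hf : ∀ w, f w < m)
    (hi : Function.Injective f) (ha : ∀ w w', f w' < f w → (H.Adj w w' ↔ r (f w) (f w') = true))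
    (h : SP G X m S r) : IMS H G X := by
  refine ⟨fun w => S (f w), fun w => h.sub _ (hf w), fun w => h.conn _ (hf w), ?_, ?_⟩
  · intro w w' hne
    rcases lt_or_gt_of_ne (fun h' => hne (hi h') : f w ≠ f w') with h1 | h1
    · exact (h.dis _ (hf w') _ h1).symm
    · exact h.dis _ (hf w) _ h1
  · intro w w' hne
    rcases lt_or_gt_of_ne (fun h' => hne (hi h') : f w ≠ f w') with h1 | h1
    · rw [SimpleGraph.adj_comm, ha w' w h1, ← h.tch _ (hf w') _ h1]
      exact ⟨Tch.symm, Tch.symm⟩
    · rw [ha w w' h1, ← h.tch _ (hf w) _ h1]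

/-- the table of the typed pattern of size `n`; the numbers `i < n` are the `a i`, `n + i` is `b i` -/
def rTP (n : ℕ) (s t e : Bool) (i j : ℕ) : Bool :=
  bif Nat.blt i n then s else (bif Nat.blt j n then (Nat.beq (i - n) j) != e else t)

theorem sp_of_tp {V : Type} {G : SimpleGraph V} {n : ℕ} {s t e : Bool} {a b : ℕ → V}
    (h : TP G n s t e a b) :
    SP G Set.univ (n + n) (fun i => {if i < n then a i else b (i - n)}) (rTP n s t e) := by
  refine ⟨fun i _ => Set.subset_univ _, fun i _ => Conn.singleton G _, ?_, ?_⟩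
  · intro i hi j hj
    rw [Set.disjoint_singleton]
    by_cases h1 : i < n
    · rw [if_pos h1, if_pos (hj.trans h1)]
      exact h.ia i h1 j (hj.trans h1) hj.ne'
    · rw [if_neg h1]
      by_cases h2 : j < n
      · rw [if_pos h2]
        exact (h.dis j h2 (i - n) (by omega)).symm
      · rw [if_neg h2]
        exact h.ib (i - n) (by omega) (j - n) (by omega) (by omega)
  · intro i hi j hj
    rw [tch_single]
    by_cases h1 : i < n
    · rw [if_pos h1, if_pos (hj.trans h1), h.aa i h1 j (hj.trans h1) hj.ne']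
      have : Nat.blt i n = true := Nat.blt_eq.mpr h1
      simp [rTP, this]
    · have h1' : Nat.blt i n = false := by
        rw [← Bool.not_eq_true, Nat.blt_eq]
        exact h1
      rw [if_neg h1]
      by_cases h2 : j < n
      · have h2' : Nat.blt j n = true := Nat.blt_eq.mpr h2
        rw [if_pos h2, SimpleGraph.adj_comm, h.ab j h2 (i - n) (by omega)]
        simp only [rTP, h1', h2', cond_false, cond_true]
        by_cases h3 : i - n = j
        · have : Nat.beq (i - n) j = true := Nat.beq_eq.mpr h3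
          rw [this]
          cases e <;> simp [h3]
        · have : Nat.beq (i - n) j = false := by
            rw [← Bool.not_eq_true, Nat.beq_eq]
            exact h3
          rw [this]
          have h3' : j ≠ i - n := fun h' => h3 h'.symm
          cases e <;> simp [h3']
      · have h2' : Nat.blt j n = false := by
          rw [← Bool.not_eq_true, Nat.blt_eq]
          exact h2
        rw [if_neg h2, h.bb (i - n) (by omega) (j - n) (by omega) (by omega)]
        simp [rTP, h1', h2']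

/-! ### the graphs -/

/-- the table of `J4` -/
def rJ4 (i j : ℕ) : Bool :=
  !(([(1, 0), (2, 0), (4, 3), (6, 5), (8, 7), (10, 9)] : List (ℕ × ℕ)).elem (i, j))

/-- the numbering of the vertices of `J4` -/
def fJ4 : Option (Σ i : Fin 3, Fin ((![0, 1, 1] : Fin 3 → ℕ) i)) ⊕ (Fin 4 × Bool) → ℕ
  | Sum.inl none => 0
  | Sum.inl (some ⟨0, k⟩) => Fin.elim0 k
  | Sum.inl (some ⟨1, _⟩) => 1
  | Sum.inl (some ⟨2, _⟩) => 2
  | Sum.inr (p, b) => 3 + 2 * p.val + (if b then 1 else 0)

/-- the vertices of `J4` -/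
def gJ4 : Fin 11 → Option (Σ i : Fin 3, Fin ((![0, 1, 1] : Fin 3 → ℕ) i)) ⊕ (Fin 4 × Bool) :=
  ![Sum.inl none, Sum.inl (some ⟨1, ⟨0, by decide⟩⟩), Sum.inl (some ⟨2, ⟨0, by decide⟩⟩),
    Sum.inr (0, false), Sum.inr (0, true), Sum.inr (1, false), Sum.inr (1, true),
    Sum.inr (2, false), Sum.inr (2, true), Sum.inr (3, false), Sum.inr (3, true)]

theorem fJ4_surj (w : Option (Σ i : Fin 3, Fin ((![0, 1, 1] : Fin 3 → ℕ) i)) ⊕ (Fin 4 × Bool)) :
    ∃ i : Fin 11, gJ4 i = w ∧ fJ4 w = i.val := by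
  rcases w with (_ | ⟨i, k⟩) | ⟨p, b⟩
  · exact ⟨0, rfl, rfl⟩
  · fin_cases i
    · exact Fin.elim0 k
    · have : k = (⟨0, by decide⟩ : Fin 1) := Subsingleton.elim (α := Fin 1) _ _
      subst this
      exact ⟨1, rfl, rfl⟩
    · have : k = (⟨0, by decide⟩ : Fin 1) := Subsingleton.elim (α := Fin 1) _ _
      subst this
      exact ⟨2, rfl, rfl⟩
  · fin_cases p <;> cases b
    · exact ⟨3, rfl, rfl⟩
    · exact ⟨4, rfl, rfl⟩
    · exact ⟨5, rfl, rfl⟩
    · exact ⟨6, rfl, rfl⟩
    · exact ⟨7, rfl, rfl⟩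
    · exact ⟨8, rfl, rfl⟩
    · exact ⟨9, rfl, rfl⟩
    · exact ⟨10, rfl, rfl⟩

theorem adjJ4 (i j : Fin 11) (h : j.val < i.val) :
    J4.Adj (gJ4 i) (gJ4 j) ↔ rJ4 i.val j.val = true := by
  fin_cases i <;> fin_cases j <;>
    first
    | (exfalso; revert h; decide)
    | simp [gJ4, F9.JS, F9.Spid, rJ4]

/-- a pattern with the table of `J4` -/
theorem ims_J4 {V : Type} {G : SimpleGraph V} {X : Set V} {S : ℕ → Set V} (h : SP G X 11 S rJ4) :
    IMS J4 G X := by
  refine ims_of_sp J4 fJ4 (fun w => ?_) (fun w w' hw => ?_) (fun w w' hw => ?_) h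
  · obtain ⟨i, -, h2⟩ := fJ4_surj w
    rw [h2]
    exact i.2
  · obtain ⟨i, h1, h2⟩ := fJ4_surj w
    obtain ⟨j, h3, h4⟩ := fJ4_surj w'
    rw [← h1, ← h3, Fin.ext (h2.symm.trans (hw.trans h4))]
  · obtain ⟨i, h1, h2⟩ := fJ4_surj w
    obtain ⟨j, h3, h4⟩ := fJ4_surj w'
    rw [h2, h4] at hw ⊢
    rw [← h1, ← h3]
    exact adjJ4 i j hw

/-- the table of `KF 4 2 ![{0}, {1}]` -/
def rK4 (i j : ℕ) : Bool := (([(1, 0), (2, 0), (2, 1), (3, 0), (3, 1), (3, 2), (4, 0), (5, 1)] :
  List (ℕ × ℕ)).elem (i, j))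

theorem ims_K4 {V : Type} {G : SimpleGraph V} {X : Set V} {S : ℕ → Set V} (h : SP G X 6 S rK4) :
    IMS (F9.KF 4 2 ![{0}, {1}]) G X := by
  refine ims_of_sp _ (Sum.elim (fun i : Fin 4 => i.val) (fun q : Fin 2 => 4 + q.val)) (fun w => ?_)
    (fun w w' hw => ?_) (fun w w' hw => ?_) h
  · rcases w with w | w
    · exact w.2.trans (by decide)
    · have := w.2
      simp only [Sum.elim_inr]
      omega
  · rcases w with w | w <;> rcases w' with w' | w'
    · exact congrArg Sum.inl (Fin.ext hw)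
    · have := w.2
      simp only [Sum.elim_inl, Sum.elim_inr] at hw
      omega
    · have := w'.2
      simp only [Sum.elim_inl, Sum.elim_inr] at hw
      omega
    · simp only [Sum.elim_inr] at hw
      exact congrArg Sum.inr (Fin.ext (by omega))
  · rcases w with w | w <;> rcases w' with w' | w' <;> fin_cases w <;> fin_cases w' <;>
      first
      | (exfalso; revert hw; decide)
      | simp [F9.KF, KA, rK4]

/-! ### the kills -/

/-- two stable rails with a co-matching contain `J4` -/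
theorem killR {I : Type} (H : SimpleGraph I) : Kill H J4 false false true :=
  kill_of_model 10 fun _ _ _ _ h => Or.inr (ims_univ_iff.mp (ims_J4 (HC.chkG_sp
    (L := [[0, 11], [1], [10], [2, 13], [3, 12], [4, 15], [5, 14], [6, 17], [7, 16], [8, 19],
      [9, 18]]) (sp_of_tp h) (by decide))))

/-- a clique with pendant vertices contains `K_4` with two pendant vertices -/
theorem killT {I : Type} (J : SimpleGraph I) : Kill (F9.KF 4 2 ![{0}, {1}]) J true false false :=
  kill_of_model 4 fun _ _ _ _ h => Or.inl (ims_univ_iff.mp (ims_K4 (HC.chkG_sp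
    (L := [[0], [1], [2], [3], [4], [5]]) (sp_of_tp h) (by decide))))

/-- `P_3 + 4 P_2` -/
def FJ : SimpleGraph (Fin 11) := ofE 11 [(0, 1), (0, 2), (3, 4), (5, 6), (7, 8), (9, 10)]

theorem colFJ : ∀ i j, FJ.Adj i j →
    (![false, true, true, false, true, false, true, false, true, false, true] : Fin 11 → Bool) i ≠
      (![false, true, true, false, true, false, true, false, true, false, true] :
        Fin 11 → Bool) j := by
  unfold FJ
  decide

theorem adjFJ (i j : Fin 11) : J4.Adj (gJ4 i) (gJ4 j) ↔ i ≠ j ∧ ¬ FJ.Adj i j := by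
  fin_cases i <;> fin_cases j <;> simp [gJ4, F9.JS, F9.Spid, FJ, ofE]

theorem subFJ : IsIndSub J4 (KCo 0 FJ) := by
  choose φ h1 h2 using fJ4_surj
  refine ⟨fun w => Sum.inr (φ w), fun w w' h => ?_, fun w w' => ?_⟩
  · rw [← h1 w, ← h1 w', Sum.inr.inj h]
  · conv_lhs => rw [← h1 w, ← h1 w']
    exact adjFJ (φ w) (φ w')

/-- two cliques with a matching contain `J4` -/
theorem killJ {I : Type} (H : SimpleGraph I) : Kill H J4 true true false := by
  obtain ⟨m, hm⟩ := coM 11 0
  refine kill_of_PGr (m + 1) (Or.inr (FDAux.indMinor_trans (FDAux.indMinor_of_indSub subFJ) ?_))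
  have htri : TriFree (PGr (m + 1) true true false)ᶜ := by
    have key : ∀ u v, (PGr (m + 1) true true false)ᶜ.Adj u v → u.1 ≠ v.1 := by
      rintro ⟨_ | _, i⟩ ⟨_ | _, j⟩ h
      · exact absurd (show (PGr (m + 1) true true false).Adj (false, i) (false, j) from
          ⟨fun h' => h.1 (congrArg (Prod.mk false) h'), rfl⟩) h.2
      · exact Bool.false_ne_true
      · exact Bool.false_ne_true.symm
      · exact absurd (show (PGr (m + 1) true true false).Adj (true, i) (true, j) from
          ⟨fun h' => h.1 (congrArg (Prod.mk true) h'), rfl⟩) h.2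
    intro x y z hxy hxz hyz
    have h1 := key x y hxy
    have h2 := key x z hxz
    have h3 := key y z hyz
    revert h1 h2 h3
    cases x.1 <;> cases y.1 <;> cases z.1 <;> decide
  have h := hm _ (PGr (m + 1) true true false)ᶜ FJ _ colFJ htri
    ⟨fun i => (false, ⟨i % (m + 1), Nat.mod_lt _ (by omega)⟩),
      fun i => (true, ⟨i % (m + 1), Nat.mod_lt _ (by omega)⟩), fun i hi j hj => ?_⟩
  · rwa [compl_compl] at h
  · have e1 : i % (m + 1) = i := Nat.mod_eq_of_lt (by omega)
    have e2 : j % (m + 1) = j := Nat.mod_eq_of_lt (by omega)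
    simp only [e1, e2]
    rw [SimpleGraph.compl_adj]
    show ((false, _) ≠ (true, _) ∧ ¬ (_ = _ ↔ false = false)) ↔ _
    simp [Fin.ext_iff]

end Pool.Agent.MPd439b2.Rep
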