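import Pool.Agent.Lib.MP_d439b2_co.W.SpecM

/-!
# MP_d439b2_co, Rep: no large induced matching, the width of `Cl D` is bounded; any of `F1, F2, F3`

Copy of `W/WidM.lean` (module M13) with the disjunction of the three excluded graphs (helper10).
-/

set_option autoImplicit false

namespace Pool.Agent.MPd439b2.Rep

open Pool.Agent.MPd439b2 Pool.Agent.MPd439b2.W

/-- one of the three graphs is excluded -/
def NoF3 (s : ℕ) {V : Type} (D : SimpleGraph V) : Prop :=
  ¬ IsIndMinor (KCo s F1) Dᶜ ∨ ¬ IsIndMinor (KCo s F2) Dᶜ ∨ ¬ IsIndMinor (KCo s F3) Dᶜ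

/-- no large induced matching: the width of `Cl D` is bounded -/
def S_WidR : Prop := ∀ s m₀ n : ℕ, ∃ w : ℕ, ∀ (V : Type) [Finite V] (D : SimpleGraph V),
  TriFree D → NoF3 s D → ¬ CoM D m₀ → (∀ a b, ¬ IM D n a b) → WidP (Cl D) w

namespace widRAux

variable {V : Type} {D : SimpleGraph V}

/-- an enumeration with repetitions -/
theorem enumRep {X : Finset V} (hne : X.Nonempty) {m : ℕ} (hm : X.card ≤ m) :
    ∃ f : ℕ → V, (∀ p, f p ∈ X) ∧ ∀ x ∈ X, ∃ p < m, f p = x := by
  classical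
  obtain ⟨x0, hx0⟩ := hne
  refine ⟨fun i => if h : i < X.card then (X.equivFin.symm ⟨i, h⟩).1 else x0, ?_, ?_⟩
  · intro p
    beta_reduce
    split_ifs with h
    · exact (X.equivFin.symm ⟨p, h⟩).2
    · exact hx0
  · intro x hx
    have h1 := (X.equivFin ⟨x, hx⟩).2
    refine ⟨(X.equivFin ⟨x, hx⟩).val, by omega, ?_⟩
    beta_reduce
    rw [dif_pos h1]
    simp

theorem cmp_single (u v : V) : Cmp D {u} {v} ↔ D.Adj u v := by
  unfold Cmp
  constructor
  · exact fun h => h u (Finset.mem_singleton_self u) v (Finset.mem_singleton_self v)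
  · intro h a ha b hb
    rw [Finset.mem_singleton] at ha hb
    rw [ha, hb]
    exact h

/-- the end of the proof: rails `v p i`, `p < 2 m`, with constant adjacencies between different indices -/
theorem fin (h4 : S_X1) (h5 : S_X2) {s n m : ℕ} (ht : TriFree D)
    (hno : NoF3 s D) (hIM : ∀ a b, ¬ IM D n a b) {M : ℕ}
    (hM : 200 + 8 * s + n + 3 ≤ M) {v : ℕ → ℕ → V} {E : ℕ → ℕ → Prop}
    (hdis : ∀ p < 2 * m, ∀ q < 2 * m, ∀ k < M, ∀ l < M, k ≠ l → v p k ≠ v q l)
    (hE : ∀ p < 2 * m, ∀ q < 2 * m, ∀ k l, k < l → l < M → (D.Adj (v p k) (v q l) ↔ E p q))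
    (hXY : ∀ p < m, ∀ q < 2 * m, m ≤ q → ∀ k < M, D.Adj (v p k) (v q k))
    (h01 : ∃ p < m, ∃ q < 2 * m, m ≤ q ∧ ¬ D.Adj (v p 0) (v q 1))
    (h10 : ∃ p < m, ∃ q < 2 * m, m ≤ q ∧ ¬ D.Adj (v p 1) (v q 0)) : False := by
  obtain ⟨x, hx, y, hy, hmy, hxy⟩ := h01
  obtain ⟨x', hx', y', hy', hmy', hxy'⟩ := h10
  have hpat : Pat D M (2 * m - 1) (fun p k => {v p k}) E := by
    refine ⟨fun p _ k _ => Finset.singleton_nonempty _, ?_, ?_⟩
    · intro p hp q hq k hk l hl hkl
      rw [Finset.disjoint_singleton]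
      exact hdis p (by omega) q (by omega) k hk l hl hkl
    · intro p hp q hq k l hkl hl
      rw [cmp_single]
      exact hE p (by omega) q (by omega) k l hkl hl
  have hdiag : ∀ p < 2 * m, ¬ E p p := by
    intro p hp hpp
    exact ht _ _ _ ((hE p hp p hp 0 1 (by omega) (by omega)).mpr hpp)
      ((hE p hp p hp 0 2 (by omega) (by omega)).mpr hpp)
      ((hE p hp p hp 1 2 (by omega) (by omega)).mpr hpp)
  have htwo : ∀ p < m, ∀ q < 2 * m, m ≤ q → E p q ∨ E q p := by
    intro p hp q hq hmq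
    by_contra hcon
    push Not at hcon
    have hnn : ∀ p' < 2 * m, ∀ q' < 2 * m, ¬ E p' q' → ¬ E q' p' → ∀ i < n, ∀ j < n, i ≠ j →
        ¬ D.Adj (v p' i) (v q' j) := by
      intro p' hp' q' hq' h1 h2 i hi j hj hij hadj
      rcases lt_or_gt_of_ne hij with h | h
      · exact h1 ((hE p' hp' q' hq' i j h (by omega)).mp hadj)
      · exact h2 ((hE q' hq' p' hp' j i h (by omega)).mp hadj.symm)
    apply hIM (fun i => v p i) (fun i => v q i)
    intro i hi j hj
    by_cases hij : i = j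
    · subst hij
      exact ⟨iff_of_true (hXY p hp q hq hmq i (by omega)) rfl, fun h => h.ne rfl,
        fun h => h.ne rfl⟩
    · exact ⟨iff_of_false (hnn p (by omega) q hq hcon.1 hcon.2 i hi j hj hij) hij,
        hnn p (by omega) p (by omega) (hdiag p (by omega)) (hdiag p (by omega)) i hi j hj hij,
        hnn q hq q hq (hdiag q hq) (hdiag q hq) i hi j hj hij⟩
  have e1 : ¬ E x y := fun h =>
    hxy ((hE x (by omega) y hy 0 1 (by omega) (by omega)).mpr h)
  have e2 : E y x := (htwo x hx y hy hmy).resolve_left e1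
  have e3 : ¬ E y' x' := fun h =>
    hxy' ((hE y' hy' x' (by omega) 0 1 (by omega) (by omega)).mpr h).symm
  have e4 : E x' y' := (htwo x' hx' y' hy' hmy').resolve_right e3
  have X1 : ∀ t < 2 * m, ∀ a < 2 * m, ∀ b < 2 * m, E t a → ¬ E a t → E b t → ¬ E t b → False := by
    intro t ht' a ha b hb g1 g2 g3 g4
    obtain ⟨q1, q2, q3⟩ := h4 s V D M (2 * m - 1) _ E ht hpat (by omega)
      ⟨t, by omega, a, by omega, b, by omega, g1, g2, g3, g4⟩
    exact hno.elim (fun h => h q1) (fun h => h.elim (fun h => h q2) (fun h => h q3))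
  have e5 : E x y' ∧ E y' x := by
    by_cases g1 : E x y' <;> by_cases g2 : E y' x
    · exact ⟨g1, g2⟩
    · exact (X1 x (by omega) y' hy' y hy g1 g2 e2 e1).elim
    · exact (X1 y' hy' x (by omega) x' (by omega) g2 g1 e4 e3).elim
    · exact ((htwo x hx y' hy' hmy').elim g1 g2).elim
  have e6 : E x' y ∧ E y x' := by
    by_cases g1 : E x' y <;> by_cases g2 : E y x'
    · exact ⟨g1, g2⟩
    · exact (X1 y hy x (by omega) x' (by omega) e2 e1 g1 g2).elim
    · exact (X1 x' (by omega) y' hy' y hy e4 e3 g2 g1).elim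
    · exact ((htwo x' hx' y hy hmy).elim g1 g2).elim
  obtain ⟨q1, q2, q3⟩ := h5 s V D M (2 * m - 1) _ E ht hpat (by omega)
    ⟨x', by omega, y', by omega, x, by omega, y, by omega, e4, e3, Or.inr ⟨e2, e1⟩, e6.2,
      e5.1⟩
  exact hno.elim (fun h => h q1) (fun h => h.elim (fun h => h q2) (fun h => h q3))

end widRAux

open widRAux in
theorem widR (h1 : S_Gen) (h2 : S_Sun) (h3 : S_RamC) (h4 : S_X1) (h5 : S_X2) : S_WidR := by
  classical
  intro s m₀ n
  set M := 200 + 8 * s + n + 3 with hMdef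
  obtain ⟨m₂, hm₂⟩ := h3 (Fin (2 * m₀) → Fin (2 * m₀) → Prop) M
  obtain ⟨w, hw⟩ := h2 2 m₀ (m₂ + 2)
  refine ⟨w, fun V _ D htri hno hCoM hIM A hA => ?_⟩
  by_contra hcard
  push Not at hcard
  have hgen := h1 V D m₀ hCoM
  choose GX hGXc hGX using fun x => (hgen x).1
  choose GY hGYc hGY using fun x => (hgen x).2
  -- an enumeration of the antichain
  have hAne : A.Nonempty := by
    rw [← Finset.card_pos]; omega
  obtain ⟨d0, hd0⟩ := hAne
  let x : ℕ → Cl D := fun i => if h : i < A.card then (A.equivFin.symm ⟨i, h⟩).1 else d0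
  have hxA : ∀ i, x i ∈ A := by
    intro i
    simp only [x]
    split_ifs with h
    · exact (A.equivFin.symm ⟨i, h⟩).2
    · exact hd0
  have hxinj : ∀ i < w, ∀ j < w, x i ≤ x j → i = j := by
    intro i hi j hj hle
    have := hA (x i) (hxA i) (x j) (hxA j) hle
    simp only [x] at this
    rw [dif_pos (by omega), dif_pos (by omega)] at this
    have h5 := A.equivFin.symm.injective (Subtype.ext this)
    exact congrArg Fin.val h5
  have hcmp : ∀ u v : Cl D, Cmp D (GX u) (GY v) ↔ u ≤ v := by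
    intro u v
    constructor
    · intro hc
      have h5 : (GX u : Set V) ⊆ v.1 := by
        intro a ha
        rw [← hGY v]
        intro b hb
        exact (hc a ha b hb).symm
      have h6 : cn D v.1 ⊆ cn D (GX u : Set V) := cn_anti h5
      rw [hGX u] at h6
      have h7 := cn_anti (D := D) h6
      rw [u.2.1, v.2.1] at h7
      exact h7
    · intro hle a ha b hb
      have h5 : a ∈ u.1 := by
        have := sub_cn_cn D (GX u : Set V) ha
        rw [hGX u, u.2.1] at this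
        exact this
      have h6 : a ∈ v.1 := hle h5
      rw [← hGY v] at h6
      exact (h6 b hb).symm
  let T : ℕ → ℕ → Finset V := fun r i => if r = 0 then GX (x i) else GY (x i)
  have hT0 : ∀ i, T 0 i = GX (x i) := fun i => by simp [T]
  have hT1 : ∀ i, T 1 i = GY (x i) := fun i => by simp [T]
  obtain ⟨σ, K, hσ1, hσ2, hK, hdis⟩ := hw V T (by
    intro r hr i hi
    simp only [T]
    split_ifs
    · exact (hGXc _).le
    · exact (hGYc _).le)
  have hTT : ∀ i < m₂ + 2, ∀ j < m₂ + 2, Cmp D (T 0 (σ i)) (T 1 (σ j)) ↔ i = j := by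
    intro i hi j hj
    rw [hT0, hT1, hcmp]
    constructor
    · intro hle
      have h5 := hxinj (σ i) (hσ2 i hi) (σ j) (hσ2 j hj) hle
      rcases lt_trichotomy i j with h | h | h
      · have := hσ1 i j h hj; omega
      · exact h
      · have := hσ1 j i h hi; omega
    · rintro rfl; exact le_refl _
  let X : ℕ → Finset V := fun i => T 0 (σ i) \ K 0
  let Y : ℕ → Finset V := fun i => T 1 (σ i) \ K 1
  have hXY : ∀ i < m₂ + 2, ∀ j < m₂ + 2, Cmp D (X i) (Y j) ↔ i = j := by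
    intro i hi j hj
    constructor
    · intro hc
      rw [← hTT i hi j hj]
      intro a ha b hb
      by_cases haK : a ∈ K 0
      · exact (hTT j hj j hj).mpr rfl a (hK 0 (by norm_num) j hj haK) b hb
      by_cases hbK : b ∈ K 1
      · exact (hTT i hi i hi).mpr rfl a ha b (hK 1 (by norm_num) i hi hbK)
      exact hc a (Finset.mem_sdiff.mpr ⟨ha, haK⟩) b (Finset.mem_sdiff.mpr ⟨hb, hbK⟩)
    · rintro rfl
      intro a ha b hb
      exact (hTT i hi i hi).mpr rfl a (Finset.mem_sdiff.mp ha).1 b (Finset.mem_sdiff.mp hb).1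
  have hother : ∀ i < m₂ + 2, ∃ j < m₂ + 2, j ≠ i := by
    intro i hi
    by_cases h0 : i = 0
    · exact ⟨1, by omega, by omega⟩
    · exact ⟨0, by omega, by omega⟩
  have hXne : ∀ i < m₂ + 2, (X i).Nonempty := by
    intro i hi
    obtain ⟨j, hj, hji⟩ := hother i hi
    by_contra hemp
    rw [Finset.not_nonempty_iff_eq_empty] at hemp
    have : i = j := (hXY i hi j hj).mp (by
      intro a ha
      rw [hemp] at ha
      exact absurd ha (Finset.notMem_empty a))
    exact hji this.symm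
  have hYne : ∀ i < m₂ + 2, (Y i).Nonempty := by
    intro i hi
    obtain ⟨j, hj, hji⟩ := hother i hi
    by_contra hemp
    rw [Finset.not_nonempty_iff_eq_empty] at hemp
    have : j = i := (hXY j hj i hi).mp (by
      intro a ha b hb
      rw [hemp] at hb
      exact absurd hb (Finset.notMem_empty b))
    exact hji this
  have hXc : ∀ i, (X i).card ≤ m₀ := by
    intro i
    refine (Finset.card_le_card Finset.sdiff_subset).trans ?_
    rw [hT0]
    exact (hGXc _).le
  have hYc : ∀ i, (Y i).card ≤ m₀ := by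
    intro i
    refine (Finset.card_le_card Finset.sdiff_subset).trans ?_
    rw [hT1]
    exact (hGYc _).le
  obtain ⟨v0, hv0⟩ := hXne 0 (by omega)
  have hξ : ∀ i, ∃ f : ℕ → V, i < m₂ + 2 → (∀ p, f p ∈ X i) ∧ ∀ x ∈ X i, ∃ p < m₀, f p = x := by
    intro i
    by_cases hi : i < m₂ + 2
    · obtain ⟨f, hf⟩ := enumRep (hXne i hi) (hXc i)
      exact ⟨f, fun _ => hf⟩
    · exact ⟨fun _ => v0, fun h => absurd h hi⟩
  have hη : ∀ i, ∃ f : ℕ → V, i < m₂ + 2 → (∀ p, f p ∈ Y i) ∧ ∀ x ∈ Y i, ∃ p < m₀, f p = x := by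
    intro i
    by_cases hi : i < m₂ + 2
    · obtain ⟨f, hf⟩ := enumRep (hYne i hi) (hYc i)
      exact ⟨f, fun _ => hf⟩
    · exact ⟨fun _ => v0, fun h => absurd h hi⟩
  choose ξ hξ using hξ
  choose η hη using hη
  let v : ℕ → ℕ → V := fun p i => if p < m₀ then ξ i p else η i (p - m₀)
  have hvX : ∀ p < m₀, ∀ i < m₂ + 2, v p i ∈ X i := by
    intro p hp i hi
    simp only [v, if_pos hp]
    exact (hξ i hi).1 p
  have hvY : ∀ p, m₀ ≤ p → ∀ i < m₂ + 2, v p i ∈ Y i := by
    intro p hp i hi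
    simp only [v, if_neg (show ¬ p < m₀ by omega)]
    exact (hη i hi).1 _
  have hXv : ∀ i < m₂ + 2, ∀ x ∈ X i, ∃ p < m₀, v p i = x := by
    intro i hi x hx
    obtain ⟨p, hp, hpx⟩ := (hξ i hi).2 x hx
    exact ⟨p, hp, by simp only [v, if_pos hp]; exact hpx⟩
  have hYv : ∀ i < m₂ + 2, ∀ x ∈ Y i, ∃ p < 2 * m₀, m₀ ≤ p ∧ v p i = x := by
    intro i hi x hx
    obtain ⟨p, hp, hpx⟩ := (hη i hi).2 x hx
    refine ⟨m₀ + p, by omega, by omega, ?_⟩
    simp only [v, if_neg (show ¬ m₀ + p < m₀ by omega), Nat.add_sub_cancel_left]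
    exact hpx
  have hvd : ∀ p q, ∀ i < m₂ + 2, ∀ j < m₂ + 2, i ≠ j → v p i ≠ v q j := by
    intro p q i hi j hj hij heq
    have hp : v p i ∈ X i ∨ v p i ∈ Y i := by
      rcases Nat.lt_or_ge p m₀ with h | h
      · exact Or.inl (hvX p h i hi)
      · exact Or.inr (hvY p h i hi)
    have hq : v q j ∈ X j ∨ v q j ∈ Y j := by
      rcases Nat.lt_or_ge q m₀ with h | h
      · exact Or.inl (hvX q h j hj)
      · exact Or.inr (hvY q h j hj)
    rw [← heq] at hq
    rcases hp with hp | hp <;> rcases hq with hq | hq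
    · exact Finset.disjoint_left.mp (hdis 0 (by norm_num) 0 (by norm_num) i hi j hj hij) hp hq
    · exact Finset.disjoint_left.mp (hdis 0 (by norm_num) 1 (by norm_num) i hi j hj hij) hp hq
    · exact Finset.disjoint_left.mp (hdis 1 (by norm_num) 0 (by norm_num) i hi j hj hij) hp hq
    · exact Finset.disjoint_left.mp (hdis 1 (by norm_num) 1 (by norm_num) i hi j hj hij) hp hq
  obtain ⟨τ, c, hτ1, hτ2, hτ3⟩ := hm₂ (fun i j => fun p q => D.Adj (v p.val i) (v q.val j))
  have hτlt : ∀ i < M, τ i < m₂ + 2 := fun i hi => by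
    have := hτ2 i hi; omega
  have hτne : ∀ i < M, ∀ j < M, i ≠ j → τ i ≠ τ j := by
    intro i hi j hj hij
    rcases lt_or_gt_of_ne hij with h | h
    · have := hτ1 i j h hj; omega
    · have := hτ1 j i h hi; omega
  refine fin h4 h5 (m := m₀) (v := fun p k => v p (τ k))
    (E := fun p q => D.Adj (v p (τ 0)) (v q (τ 1))) htri hno hIM (le_refl M) ?_ ?_ ?_ ?_ ?_
  · intro p _ q _ k hk l hl hkl
    exact hvd p q _ (hτlt k hk) _ (hτlt l hl) (hτne k hk l hl hkl)
  · intro p hp q hq k l hkl hl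
    have g1 := congrFun (congrFun (hτ3 k l hkl hl) ⟨p, hp⟩) ⟨q, hq⟩
    have g2 := congrFun (congrFun (hτ3 0 1 (by omega) (by omega)) ⟨p, hp⟩) ⟨q, hq⟩
    exact iff_of_eq (g1.trans g2.symm)
  · intro p hp q hq hmq k hk
    exact (hXY _ (hτlt k hk) _ (hτlt k hk)).mpr rfl _ (hvX p hp _ (hτlt k hk)) _
      (hvY q hmq _ (hτlt k hk))
  · have g1 : ¬ Cmp D (X (τ 0)) (Y (τ 1)) := fun h =>
      hτne 0 (by omega) 1 (by omega) (by omega) ((hXY _ (hτlt 0 (by omega)) _
        (hτlt 1 (by omega))).mp h)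
    unfold Cmp at g1
    push Not at g1
    obtain ⟨x, hx, y, hy, hxy⟩ := g1
    obtain ⟨p, hp, rfl⟩ := hXv _ (hτlt 0 (by omega)) x hx
    obtain ⟨q, hq, hmq, rfl⟩ := hYv _ (hτlt 1 (by omega)) y hy
    exact ⟨p, hp, q, hq, hmq, hxy⟩
  · have g1 : ¬ Cmp D (X (τ 1)) (Y (τ 0)) := fun h =>
      hτne 1 (by omega) 0 (by omega) (by omega) ((hXY _ (hτlt 1 (by omega)) _
        (hτlt 0 (by omega))).mp h)
    unfold Cmp at g1
    push Not at g1
    obtain ⟨x, hx, y, hy, hxy⟩ := g1
    obtain ⟨p, hp, rfl⟩ := hXv _ (hτlt 1 (by omega)) x hx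
    obtain ⟨q, hq, hmq, rfl⟩ := hYv _ (hτlt 0 (by omega)) y hy
    exact ⟨p, hp, q, hq, hmq, hxy⟩

end Pool.Agent.MPd439b2.Rep
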