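import Pool.Agent.Lib.MP_d439b2_co.Rep.FinalG
import Pool.Agent.Lib.MP_d439b2_co.Rep.WidR
import Pool.Agent.Lib.MP_d439b2_co.W.FinalW
import Pool.Agent.Lib.MP_d439b2_co.W.F1Row

/-!
# MP_d439b2_co, Rep: the row `3P_1` with the replacement theorem (helper10)

`rowQ`: for a class `Q` of triangle-free graphs `D` without one of `K_s ∨ co(F1), K_s ∨ co(F2), K_s ∨ co(F3)` in the
complement it is enough to show (for every `β`) that the graphs of `Q` with `Link β c₀ D` have no induced
matching of size `n`.  `rowF`: the base class, and the bounded clique-width.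
-/

set_option autoImplicit false

namespace Pool.Agent.MPd439b2.Rep

open Pool.Agent.MPd439b2 Pool.Agent.MPd439b2.W

/-- the class of the complements -/
theorem fsCompl (P : Cls) : (Inv P → Inv (fun V D => P V Dᶜ)) ∧ (FS P → FS (fun V D => P V Dᶜ)) := by
  refine ⟨fun h V V' _ _ G G' e he hp => h V V' Gᶜ G'ᶜ e (fun u v => ?_) hp, fun h t => ?_⟩
  · rw [SimpleGraph.compl_adj, SimpleGraph.compl_adj, he]
    exact and_congr_left fun _ => e.injective.ne_iff.symm
  · obtain ⟨Q, hQ, pr, hpr⟩ := h t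
    refine ⟨Q, hQ, fun n GZ l => pr n GZᶜ l, ?_⟩
    intro n n' m GZ GZ' GW l l' A heq hp
    have key : ∀ (k : ℕ) (GZ : SimpleGraph (Fin k)) (l : Fin k → Fin t),
        (glue GZ GW l A)ᶜ = glue GZᶜ GWᶜ l (fun i => (A i)ᶜ) := by
      intro k GZ l
      ext u v
      rcases u with u | u <;> rcases v with v | v
      · simp [glue]
      · simp [glue]
      · simp [glue]
      · simp [glue]
    have h1 := hpr n n' m GZᶜ GZ'ᶜ GWᶜ l l' (fun i => (A i)ᶜ) heq
    rw [← key, ← key] at h1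
    exact h1 hp

/-- one excluded induced minor -/
theorem fsIM {I : Type} [Finite I] (H : SimpleGraph I) :
    Inv (fun _ G => ¬ IsIndMinor H G) ∧ FS (fun _ G => ¬ IsIndMinor H G) := by
  have h := fsFr_holds I I H H
  have h1 : (fun (V : Type) (G : SimpleGraph V) => Fr H H G) =
      (fun (V : Type) (G : SimpleGraph V) => ¬ IsIndMinor H G) := by
    funext V G
    rw [Fr, ims_univ_iff, and_self]
  rw [h1] at h
  exact h

/-- the triangle-free graphs -/
theorem fsTri : Inv (fun _ D => TriFree D) ∧ FS (fun _ D => TriFree D) := by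
  have h := fsFor_holds Unit (fun _ => 3) (fun _ => (⊤ : SimpleGraph (Fin 3)))
  have h1 : NoInd (fun _ : Unit => 3) (fun _ => (⊤ : SimpleGraph (Fin 3))) =
      (fun (V : Type) (D : SimpleGraph V) => TriFree D) := by
    funext V D
    apply propext
    constructor
    · intro hno x y z hxy hxz hyz
      apply hno ()
      refine ⟨![x, y, z], ?_, ?_⟩
      · intro a b hab
        fin_cases a <;> fin_cases b <;> first | rfl | skip
        · exact absurd hab hxy.ne
        · exact absurd hab hxz.ne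
        · exact absurd hab hxy.ne.symm
        · exact absurd hab hyz.ne
        · exact absurd hab hxz.ne.symm
        · exact absurd hab hyz.ne.symm
      · intro a b
        rw [SimpleGraph.top_adj]
        fin_cases a <;> fin_cases b
        · exact iff_of_false (fun h => h.ne rfl) (fun h => h rfl)
        · exact iff_of_true hxy (by decide)
        · exact iff_of_true hxz (by decide)
        · exact iff_of_true hxy.symm (by decide)
        · exact iff_of_false (fun h => h.ne rfl) (fun h => h rfl)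
        · exact iff_of_true hyz (by decide)
        · exact iff_of_true hxz.symm (by decide)
        · exact iff_of_true hyz.symm (by decide)
        · exact iff_of_false (fun h => h.ne rfl) (fun h => h rfl)
    · intro htri _
      rintro ⟨f, -, ha⟩
      have h0 : ∀ a b : Fin 3, a ≠ b → D.Adj (f a) (f b) := fun a b hab => (ha a b).mpr hab
      exact htri (f 0) (f 1) (f 2) (h0 0 1 (by decide)) (h0 0 2 (by decide)) (h0 1 2 (by decide))
  rw [h1] at h
  exact h

/-- the base class: triangle-free, without `K_s ∨ co(F)` in the complement -/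
def QB (s : ℕ) {n : ℕ} (F : SimpleGraph (Fin n)) : Cls :=
  fun _ D => TriFree D ∧ ¬ IsIndMinor (KCo s F) Dᶜ

theorem fsQB (s : ℕ) {n : ℕ} (F : SimpleGraph (Fin n)) : Inv (QB s F) ∧ FS (QB s F) := by
  have h := fsIM (KCo s F)
  exact ⟨(fsAnd _ _).1 fsTri.1 ((fsCompl _).1 h.1), (fsAnd _ _).2 fsTri.2 ((fsCompl _).2 h.2)⟩

/-- **Row.** It is enough to exclude induced matchings in the graphs with `Link β c₀ D`. -/
theorem rowQ (Q : Cls) (hInv : Inv Q) (hFS : FS Q) (s m₀ : ℕ)
    (hQ : ∀ (V : Type) [Finite V] (D : SimpleGraph V), Q V D → TriFree D ∧ NoF3 s D ∧ ¬ CoM D m₀)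
    (h : ∀ β : ℕ → ℕ, ∃ c₀ n : ℕ, ∀ (V : Type) [Finite V] (D : SimpleGraph V), Q V D →
      Link β c₀ D → ∀ a b, ¬ IM D n a b) :
    ∃ k : ℕ, ∀ (V : Type) [Finite V] (D : SimpleGraph V), Q V D → Lay D k Set.univ := by
  refine hlG_holds Q hInv hFS fun β => ?_
  obtain ⟨c₀, n, hn⟩ := h β
  obtain ⟨w, hw⟩ := widR gen sun ramC (x1 tri atoms fSub) (x2 tri atoms fSub) s m₀ n
  obtain ⟨N, hN⟩ := bwF w s
  refine ⟨c₀, N, fun V _ D hD hL => ?_⟩
  obtain ⟨h1, h2, h3⟩ := hQ V D hD
  exact hN V D h1 (hw V D h1 h2 h3 (hn V D hD hL)) h2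

theorem colF2 : ∀ i j, F2.Adj i j →
    (![false, true, true, false, true, false, true, false, true, false, true, false, true] :
      Fin 13 → Bool) i ≠ (![false, true, true, false, true, false, true, false, true, false, true,
        false, true] : Fin 13 → Bool) j := by
  unfold F2
  decide

theorem colF3 : ∀ i j, F3.Adj i j →
    (![false, true, false, true, false, true, false, true, false, true, false, true] :
      Fin 12 → Bool) i ≠ (![false, true, false, true, false, true, false, true, false, true,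
        false, true] : Fin 12 → Bool) j := by
  unfold F3
  decide

/-- bounded layouts give bounded clique-width of the complements -/
theorem cwOf {n : ℕ} (F : SimpleGraph (Fin n)) (s k : ℕ)
    (hk : ∀ (V : Type) [Finite V] (D : SimpleGraph V), QB s F V D → Lay D k Set.univ) :
    BoundedCW (⊥ : SimpleGraph (Fin 3)) (KCo s F) := by
  refine ⟨3 * (k + 1 + 1), fun V _ _ G hG hK => ?_⟩
  have hcc : (Gᶜ)ᶜ = G := compl_compl G
  have h1 : QB s F V Gᶜ := ⟨F1RowAux.triFree G hG, by
    show ¬ IsIndMinor (KCo s F) (Gᶜ)ᶜ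
    rw [hcc]
    exact hK⟩
  have hL := layC V Gᶜ k Set.univ (hk V Gᶜ h1)
  rw [hcc] at hL
  exact layCW V G (k + 1) hL

/-- **Row `S_{2,2,3} + 2 P_2`**: the form which has to be proved -/
theorem rowF3 (h : ∀ (s m₀ : ℕ) (β : ℕ → ℕ), ∃ c₀ n : ℕ, ∀ (V : Type) [Finite V]
      (D : SimpleGraph V), TriFree D → ¬ IsIndMinor (KCo s F3) Dᶜ → ¬ CoM D m₀ → Link β c₀ D →
      ∀ a b, ¬ IM D n a b) :
    ∀ s : ℕ, BoundedCW (⊥ : SimpleGraph (Fin 3)) (KCo s F3) := by
  intro s
  obtain ⟨m₀, hm₀⟩ := coM 12 s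
  have hc : ∀ (V : Type) (D : SimpleGraph V), QB s F3 V D → ¬ CoM D m₀ :=
    fun V D hD hcm => hD.2 (hm₀ V D F3 _ colF3 hD.1 hcm)
  obtain ⟨k, hk⟩ := rowQ (QB s F3) (fsQB s F3).1 (fsQB s F3).2 s m₀
    (fun V _ D hD => ⟨hD.1, Or.inr (Or.inr hD.2), hc V D hD⟩) (fun β => by
      obtain ⟨c₀, n, hn⟩ := h s m₀ β
      exact ⟨c₀, n, fun V _ D hD hL => hn V D hD.1 hD.2 (hc V D hD) hL⟩)
  exact cwOf F3 s k hk

/-- **Row `S_{1,2,3} + 3 P_2`**: the form which has to be proved -/
theorem rowF2 (h : ∀ (s m₀ : ℕ) (β : ℕ → ℕ), ∃ c₀ n : ℕ, ∀ (V : Type) [Finite V]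
      (D : SimpleGraph V), TriFree D → ¬ IsIndMinor (KCo s F2) Dᶜ → ¬ CoM D m₀ → Link β c₀ D →
      ∀ a b, ¬ IM D n a b) :
    ∀ s : ℕ, BoundedCW (⊥ : SimpleGraph (Fin 3)) (KCo s F2) := by
  intro s
  obtain ⟨m₀, hm₀⟩ := coM 13 s
  have hc : ∀ (V : Type) (D : SimpleGraph V), QB s F2 V D → ¬ CoM D m₀ :=
    fun V D hD hcm => hD.2 (hm₀ V D F2 _ colF2 hD.1 hcm)
  obtain ⟨k, hk⟩ := rowQ (QB s F2) (fsQB s F2).1 (fsQB s F2).2 s m₀
    (fun V _ D hD => ⟨hD.1, Or.inr (Or.inl hD.2), hc V D hD⟩) (fun β => by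
      obtain ⟨c₀, n, hn⟩ := h s m₀ β
      exact ⟨c₀, n, fun V _ D hD hL => hn V D hD.1 hD.2 (hc V D hD) hL⟩)
  exact cwOf F2 s k hk

end Pool.Agent.MPd439b2.Rep
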