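import Pool.Agent.Lib.MP_d439b2_co.Rep.Spec

/-!
# MP_d439b2_co, Rep: there are finitely many profiles
-/

set_option autoImplicit false

namespace Pool.Agent.MPd439b2.Rep

open Pool.Agent.MPd439b2

private theorem fin_sub {M : Type} [AddCommGroup M] [Module (ZMod 2) M] [Finite M] :
    Finite (Submodule (ZMod 2) M) :=
  Finite.of_injective (fun S : Submodule (ZMod 2) M => (S : Set M)) SetLike.coe_injective

/-- for a map to a finite type there is a bounded system of representatives -/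
private theorem repr {P : Type} [Finite P] (Q : ℕ → P → Prop) :
    ∃ B : ℕ, ∀ (n : ℕ) (p : P), Q n p → ∃ n' ≤ B, Q n' p := by
  classical
  let b : P → ℕ := fun p => if h : ∃ n, Q n p then h.choose else 0
  obtain ⟨B, hB⟩ := (Set.finite_range b).bddAbove
  refine ⟨B, fun n p hnp => ?_⟩
  have h : ∃ n, Q n p := ⟨n, hnp⟩
  refine ⟨b p, hB ⟨p, rfl⟩, ?_⟩
  have hb : b p = h.choose := dif_pos h
  rw [hb]
  exact h.choose_spec

theorem fin : S_Fin := by
  intro I₁ I₂ _ _ t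
  have : Finite (Submodule (ZMod 2) (Fin t → ZMod 2)) := fin_sub
  have : Finite (Submodule (ZMod 2) ((Fin t → ZMod 2) × (Fin t → ZMod 2))) := fin_sub
  obtain ⟨B, hB⟩ := repr
    (P := Set ((I₁ → Set (Set (Fin t) × Set (Fin t))) × (I₁ → I₁ → Prop)) ×
      Set ((I₂ → Set (Set (Fin t) × Set (Fin t))) × (I₂ → I₂ → Prop)) ×
      Set (Option (Submodule (ZMod 2) (Fin t → ZMod 2) ×
        Submodule (ZMod 2) ((Fin t → ZMod 2) × (Fin t → ZMod 2)) × Fin t) ×
      Option (Submodule (ZMod 2) (Fin t → ZMod 2) ×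
        Submodule (ZMod 2) ((Fin t → ZMod 2) × (Fin t → ZMod 2)) × Fin t) ×
      Option (Submodule (ZMod 2) (Fin t → ZMod 2) ×
        Submodule (ZMod 2) ((Fin t → ZMod 2) × (Fin t → ZMod 2)) × Fin t)))
    (fun n p => ∃ (GZ : SimpleGraph (Fin n)) (l : Fin n → Fin t),
      p = (proM I₁ GZ l, proM I₂ GZ l, proT GZ l))
  refine ⟨B, fun n GZ l => ?_⟩
  obtain ⟨n', hn', GZ', l', h⟩ := hB n _ ⟨GZ, l, rfl⟩
  rw [Prod.mk.injEq, Prod.mk.injEq] at h
  exact ⟨n', hn', GZ', l', h.1.symm, h.2.1.symm, h.2.2.symm⟩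

end Pool.Agent.MPd439b2.Rep
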