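import Pool.Agent.Lib.MP_d439b2_co.Rep.Spec

/-!
# MP_d439b2_co, Rep: the black box
-/

set_option autoImplicit false

namespace Pool.Agent.MPd439b2.Rep

open Pool.Agent.MPd439b2

theorem hl (rep : S_Rep) (tanE : S_TanE) (tanL : S_TanL) : S_HL := by
  classical
  intro I₁ I₂ _ _ H₁ H₂ hyp
  choose β hβ using fun c => rep I₁ I₂ H₁ H₂ c
  obtain ⟨c₀, k, hk⟩ := hyp β
  have hno : ∀ n : ℕ, ∀ (V : Type) [Finite V] (G : SimpleGraph V) (T : Set (Set V)),
      Nat.card V = n → Fr H₁ H₂ G → ¬ Tan G (max (max c₀ k) 1) T := by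
    intro n
    induction n using Nat.strong_induction_on with
    | _ n ih =>
      intro V _ G T hn hFr hT
      have hmin : ∀ (V' : Type) [Finite V'] (G' : SimpleGraph V') (T' : Set (Set V')),
          Fr H₁ H₂ G' → Tan G' (max (max c₀ k) 1) T' → Nat.card V ≤ Nat.card V' := by
        intro V' _ G' T' hFr' hT'
        by_contra hlt
        exact ih (Nat.card V') (by omega) V' G' T' rfl hFr' hT'
      have hLink : Link β c₀ G := fun c hc X hX =>
        hβ c (max (max c₀ k) 1) (hc.trans ((le_max_left _ _).trans (le_max_left _ _)))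
          (le_max_right _ _) V G T hFr hT hmin X hX
      exact tanL V G _ k T ((le_max_right _ _).trans (le_max_left _ _)) (hk V G hFr hLink) hT
  refine ⟨2 ^ (6 * max (max c₀ k) 1 + 1), fun V _ G hFr => ?_⟩
  by_contra hL
  obtain ⟨T, hT⟩ := tanE V G (max (max c₀ k) 1) (6 * max (max c₀ k) 1 + 1) (le_max_right _ _)
    le_rfl hL
  exact hno _ V G T rfl hFr hT

end Pool.Agent.MPd439b2.Rep
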