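import Pool.Agent.Lib.MP_d439b2_co.Rep.Spec

/-!
# MP_d439b2_co, Rep: a cut of bounded rank is a glued graph
-/

set_option autoImplicit false

namespace Pool.Agent.MPd439b2.Rep

open Pool.Agent.MPd439b2

theorem iso (a3 : LK.S_A3) : S_Iso := by
  classical
  intro V _ G X c hX
  have hcard : Nat.card ↥(insert ∅ (Types G X) : Set (Set V)) ≤ 2 ^ c + 1 := by
    have h1 : (insert ∅ (Types G X) : Set (Set V)).ncard ≤ (Types G X).ncard + 1 :=
      Set.ncard_insert_le _ _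
    have h2 : (Types G X).ncard ≤ 2 ^ LK.cr G X := by
      have h := a3 V G X
      rw [← (Set.toFinite (Types G X)).cast_ncard_eq] at h
      exact_mod_cast h
    have h3 : 2 ^ LK.cr G X ≤ 2 ^ c := Nat.pow_le_pow_right (by norm_num) hX
    rw [Nat.card_coe_set_eq]
    omega
  have : Fintype ↥(insert ∅ (Types G X) : Set (Set V)) := Fintype.ofFinite _
  obtain ⟨ι⟩ : Nonempty (↥(insert ∅ (Types G X) : Set (Set V)) ↪ Fin (2 ^ c + 1)) := by
    apply Function.Embedding.nonempty_of_card_le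
    rw [Fintype.card_fin, ← Nat.card_eq_fintype_card]
    exact hcard
  have hty : ∀ a ∈ X, G.neighborSet a \ X ∈ (insert ∅ (Types G X) : Set (Set V)) := by
    intro a ha
    by_cases h : (G.neighborSet a \ X).Nonempty
    · exact Or.inr ⟨h, a, ha, rfl⟩
    · exact Or.inl (Set.not_nonempty_iff_eq_empty.1 h)
  let e₁ : ↥X ≃ Fin X.ncard := Finite.equivFinOfCardEq (Nat.card_coe_set_eq X)
  let e₂ : ↥(Xᶜ) ≃ Fin (Xᶜ).ncard := Finite.equivFinOfCardEq (Nat.card_coe_set_eq Xᶜ)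
  let l : Fin X.ncard → Fin (2 ^ c + 1) := fun z =>
    ι ⟨G.neighborSet (e₁.symm z).1 \ X, hty _ (e₁.symm z).2⟩
  let A : Fin (2 ^ c + 1) → Set (Fin (Xᶜ).ncard) := fun i =>
    {w | ∃ T : ↥(insert ∅ (Types G X) : Set (Set V)), ι T = i ∧ (e₂.symm w).1 ∈ T.1}
  have hA : ∀ z w, (w ∈ A (l z) ↔ G.Adj (e₁.symm z).1 (e₂.symm w).1) := by
    intro z w
    constructor
    · rintro ⟨T, hT, hw⟩
      have h1 := ι.injective hT
      rw [h1] at hw
      exact hw.1
    · intro h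
      exact ⟨_, rfl, h, (e₂.symm w).2⟩
  refine ⟨(Xᶜ).ncard, G.comap fun i => (e₁.symm i).1, G.comap fun i => (e₂.symm i).1, l, A,
    (Equiv.sumCongr e₁.symm e₂.symm).trans (Equiv.Set.sumCompl X), ?_, ?_⟩
  · rintro (u | u) (v | v)
    · exact Iff.rfl
    · exact hA u v
    · exact (hA v u).trans (G.adj_comm _ _)
    · exact Iff.rfl
  · ext x
    constructor
    · rintro ⟨_, ⟨z, -, rfl⟩, rfl⟩
      exact (e₁.symm z).2
    · intro hx
      refine ⟨Sum.inl (e₁ ⟨x, hx⟩), ⟨_, trivial, rfl⟩, ?_⟩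
      show (e₁.symm (e₁ ⟨x, hx⟩)).1 = x
      rw [Equiv.symm_apply_apply]

end Pool.Agent.MPd439b2.Rep
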