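import Pool.Agent.Lib.MP_d439b2_co.Rep.Spec

/-!
# MP_d439b2_co, Rep: the replacement theorem
-/

set_option autoImplicit false

namespace Pool.Agent.MPd439b2.Rep

open Pool.Agent.MPd439b2

theorem rep (mdl : S_Mdl) (tanG : S_TanG) (fin : S_Fin) (iso : S_Iso) (trans : S_Trans)
    (a2 : LK.S_A2) : S_Rep := by
  intro I₁ I₂ _ _ H₁ H₂ c
  obtain ⟨B, hB⟩ := fin I₁ I₂ (2 ^ c + 1)
  refine ⟨B, ?_⟩
  intro φ hcφ hφ V _ G T hFr hT hmin
  have claim : ∀ X : Set V, LK.cr G X ≤ c → X ∈ T → X.ncard ≤ B := by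
    intro X hX hXT
    by_contra hlt
    obtain ⟨m, GZ, GW, l, A, e, he, heX⟩ := iso V G X c hX
    have htr := trans (Fin X.ncard ⊕ Fin m) V (glue GZ GW l A) G e he
    have hT₁ := htr.2.1 φ T hT
    obtain ⟨n', hn', GZ', l', h1, h2, h3⟩ := hB _ GZ l
    obtain ⟨T', hT'⟩ := tanG (Fin X.ncard) (Fin n') (Fin m) (2 ^ c + 1) GZ GZ' GW l l' A φ _ hφ
      h3.symm hT₁ (by
        show e '' (Sum.inl '' Set.univ) ∈ T
        rw [heX]
        exact hXT)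
    have hFr' : Fr H₁ H₂ (glue GZ' GW l' A) := by
      refine ⟨fun h => ?_, fun h => ?_⟩
      · exact hFr.1 ((htr.2.2 I₁ H₁).1 (mdl I₁ _ _ _ H₁ _ GZ' GZ GW l' l A h1 h))
      · exact hFr.2 ((htr.2.2 I₂ H₂).1 (mdl I₂ _ _ _ H₂ _ GZ' GZ GW l' l A h2 h))
    have h4 := hmin (Fin n' ⊕ Fin m) (glue GZ' GW l' A) T' hFr' hT'
    have h5 : Nat.card V = X.ncard + m := by
      rw [← Nat.card_congr e, Nat.card_sum, Nat.card_fin, Nat.card_fin]
    have h6 : Nat.card (Fin n' ⊕ Fin m) = n' + m := by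
      rw [Nat.card_sum, Nat.card_fin, Nat.card_fin]
    omega
  intro X hX
  rcases hT.dec X (hX.trans hcφ) with h | h
  · exact Or.inl (claim X hX h)
  · refine Or.inr (claim Xᶜ ?_ h)
    rw [Set.compl_eq_univ_sdiff]
    exact ((a2 V G).2.1 X (Set.subset_univ X)).trans_le hX

end Pool.Agent.MPd439b2.Rep
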