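import Pool.Agent.Lib.MP_d439b2_co.Rep.RowQ
import Pool.Agent.Lib.MP_d439b2_co.F9.BaseP

/-!
# MP_d439b2_co, Rep/RowA: the two open pairs of row `A` from Step A' (helper10)
-/

set_option autoImplicit false

namespace Pool.Agent.MPd439b2.Rep

open Pool.Agent.MPd439b2 Pool.Agent.MPd439b2.W Pool.Agent.MPd439b2.F9

/-- Step A': in the linked graphs there is no large induced matching -/
def StepA (s : ℕ) {n : ℕ} (F : SimpleGraph (Fin n)) : Prop :=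
  ∀ (m₀ : ℕ) (β : ℕ → ℕ), ∃ c₀ m : ℕ, ∀ (V : Type) [Finite V] (D : SimpleGraph V), TriFree D →
    ¬ IsIndMinor (KCo s F) Dᶜ → ¬ CoM D m₀ → Link β c₀ D → ∀ a b, ¬ IM D m a b

namespace rowAAux

/-- the vertex set of `JS ![1, 2, 3] 3` -/
abbrev V2 : Type := Option (Σ i : Fin 3, Fin ((![1, 2, 3] : Fin 3 → ℕ) i)) ⊕ (Fin 3 × Bool)

/-- the map to the vertices of `F2` -/
def f2 : V2 → Fin 13
  | Sum.inl none => 0
  | Sum.inl (some ⟨0, _⟩) => 1
  | Sum.inl (some ⟨1, k⟩) => if k.val = 0 then 2 else 3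
  | Sum.inl (some ⟨2, k⟩) => if k.val = 0 then 4 else if k.val = 1 then 5 else 6
  | Sum.inr (p, b) => ⟨7 + 2 * p.val + (if b then 1 else 0), by
      have := p.isLt
      split_ifs <;> omega⟩

/-- the map from the vertices of `F2` -/
def g2 : Fin 13 → V2 := ![Sum.inl none, Sum.inl (some ⟨0, ⟨0, by decide⟩⟩),
  Sum.inl (some ⟨1, ⟨0, by decide⟩⟩), Sum.inl (some ⟨1, ⟨1, by decide⟩⟩),
  Sum.inl (some ⟨2, ⟨0, by decide⟩⟩), Sum.inl (some ⟨2, ⟨1, by decide⟩⟩),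
  Sum.inl (some ⟨2, ⟨2, by decide⟩⟩), Sum.inr (0, false), Sum.inr (0, true),
  Sum.inr (1, false), Sum.inr (1, true), Sum.inr (2, false), Sum.inr (2, true)]

theorem gf2 (x : V2) : g2 (f2 x) = x := by
  rcases x with (_ | ⟨i, k⟩) | ⟨p, b⟩
  · rfl
  · fin_cases i
    · have : k = (⟨0, by decide⟩ : Fin 1) := Subsingleton.elim (α := Fin 1) _ _
      subst this
      rfl
    · change Fin 2 at k
      fin_cases k <;> rfl
    · change Fin 3 at k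
      fin_cases k <;> rfl
  · fin_cases p <;> cases b <;> rfl

/-- the matrix of the adjacencies of `JS ![1, 2, 3] 3` -/
theorem adj2 (i j : Fin 13) : (JS ![1, 2, 3] 3).Adj (g2 i) (g2 j) ↔ i ≠ j ∧ ¬ F2.Adj i j := by
  fin_cases i <;> fin_cases j <;> simp [F2, ofE, JS, Spid, g2]

theorem sub2 : IsIndSub (JS ![1, 2, 3] 3) (KCo 0 F2) := by
  refine ⟨fun x => Sum.inr (f2 x), fun x y h => Function.LeftInverse.injective gf2
    (Sum.inr.inj h), fun x y => ?_⟩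
  conv_lhs => rw [← gf2 x, ← gf2 y]
  exact adj2 (f2 x) (f2 y)

/-- the vertex set of `JS ![2, 2, 3] 2` -/
abbrev V3 : Type := Option (Σ i : Fin 3, Fin ((![2, 2, 3] : Fin 3 → ℕ) i)) ⊕ (Fin 2 × Bool)

/-- the map to the vertices of `F3` -/
def f3 : V3 → Fin 12
  | Sum.inl none => 0
  | Sum.inl (some ⟨0, k⟩) => if k.val = 0 then 1 else 2
  | Sum.inl (some ⟨1, k⟩) => if k.val = 0 then 3 else 4
  | Sum.inl (some ⟨2, k⟩) => if k.val = 0 then 5 else if k.val = 1 then 6 else 7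
  | Sum.inr (p, b) => ⟨8 + 2 * p.val + (if b then 1 else 0), by
      have := p.isLt
      split_ifs <;> omega⟩

/-- the map from the vertices of `F3` -/
def g3 : Fin 12 → V3 := ![Sum.inl none, Sum.inl (some ⟨0, ⟨0, by decide⟩⟩),
  Sum.inl (some ⟨0, ⟨1, by decide⟩⟩), Sum.inl (some ⟨1, ⟨0, by decide⟩⟩),
  Sum.inl (some ⟨1, ⟨1, by decide⟩⟩), Sum.inl (some ⟨2, ⟨0, by decide⟩⟩),
  Sum.inl (some ⟨2, ⟨1, by decide⟩⟩), Sum.inl (some ⟨2, ⟨2, by decide⟩⟩),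
  Sum.inr (0, false), Sum.inr (0, true), Sum.inr (1, false), Sum.inr (1, true)]

theorem gf3 (x : V3) : g3 (f3 x) = x := by
  rcases x with (_ | ⟨i, k⟩) | ⟨p, b⟩
  · rfl
  · fin_cases i
    · change Fin 2 at k
      fin_cases k <;> rfl
    · change Fin 2 at k
      fin_cases k <;> rfl
    · change Fin 3 at k
      fin_cases k <;> rfl
  · fin_cases p <;> cases b <;> rfl

/-- the matrix of the adjacencies of `JS ![2, 2, 3] 2` -/
theorem adj3 (i j : Fin 12) : (JS ![2, 2, 3] 2).Adj (g3 i) (g3 j) ↔ i ≠ j ∧ ¬ F3.Adj i j := by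
  fin_cases i <;> fin_cases j <;> simp [F3, ofE, JS, Spid, g3]

theorem sub3 : IsIndSub (JS ![2, 2, 3] 2) (KCo 0 F3) := by
  refine ⟨fun x => Sum.inr (f3 x), fun x y h => Function.LeftInverse.injective gf3
    (Sum.inr.inj h), fun x y => ?_⟩
  conv_lhs => rw [← gf3 x, ← gf3 y]
  exact adj3 (f3 x) (f3 y)

/-- the row `3 P_1` with layouts -/
theorem row {n m₀ : ℕ} {W : Type} {J : SimpleGraph W} {F : SimpleGraph (Fin n)} (col : Fin n → Bool)
    (hcol : ∀ i j, F.Adj i j → col i ≠ col j) (hm₀ : ∀ (V : Type) (D : SimpleGraph V)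
      (F : SimpleGraph (Fin n)) (col : Fin n → Bool), (∀ i j, F.Adj i j → col i ≠ col j) →
      TriFree D → CoM D m₀ → IsIndMinor (KCo 0 F) Dᶜ)
    (hsub : IsIndSub J (KCo 0 F)) (hF : ∀ (V : Type) (D : SimpleGraph V),
      ¬ IsIndMinor (KCo 0 F) Dᶜ → NoF3 0 D) (h : StepA 0 F) :
    BoundedCW (KF 3 2 ![{0}, {1}]) J := by
  have hc : ∀ (V : Type) (D : SimpleGraph V), QB 0 F V D → ¬ CoM D m₀ :=
    fun V D hD hcm => hD.2 (hm₀ V D F col hcol hD.1 hcm)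
  obtain ⟨k, hk⟩ := rowQ (QB 0 F) (fsQB 0 F).1 (fsQB 0 F).2 0 m₀
    (fun V _ D hD => ⟨hD.1, hF V D hD.2, hc V D hD⟩) (fun β => by
      obtain ⟨c₀, n, hn⟩ := h m₀ β
      exact ⟨c₀, n, fun V _ D hD hL => hn V D hD.1 hD.2 (hc V D hD) hL⟩)
  refine bullRow ⟨k + 1, fun V _ G hG hK => ?_⟩
  have hcc : (Gᶜ)ᶜ = G := compl_compl G
  have h1 : QB 0 F V Gᶜ := ⟨F1RowAux.triFree G hG, by
    show ¬ IsIndMinor (KCo 0 F) (Gᶜ)ᶜ
    rw [hcc]
    exact fun h => hK (FDAux.indMinor_trans (FDAux.indMinor_of_indSub hsub) h)⟩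
  have hL := layC V Gᶜ k Set.univ (hk V Gᶜ h1)
  rwa [hcc] at hL

end rowAAux

open rowAAux

/-- the pair of the bull and `co(S_{2,2,3} + 2 P_2)` -/
theorem a1Of (h : StepA 0 F3) : BoundedCW (KF 3 2 ![{0}, {1}]) (JS ![2, 2, 3] 2) := by
  obtain ⟨m₀, hm₀⟩ := coM 12 0
  exact row _ colF3 hm₀ sub3 (fun _ _ hK => Or.inr (Or.inr hK)) h

/-- the pair of the bull and `co(S_{1,2,3} + 3 P_2)` -/
theorem a2Of (h : StepA 0 F2) : BoundedCW (KF 3 2 ![{0}, {1}]) (JS ![1, 2, 3] 3) := by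
  obtain ⟨m₀, hm₀⟩ := coM 13 0
  exact row _ colF2 hm₀ sub2 (fun _ _ hK => Or.inr (Or.inl hK)) h

end Pool.Agent.MPd439b2.Rep
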